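import Mathlib

set_option autoImplicit false

namespace Pool.Agent.Lib.MP_a1ab69_an

open Polynomial

variable {F : Type} [Field F]

/-- A polynomial of degree smaller than the size of the finite field vanishing everywhere is zero. -/
theorem poly_eq_zero [Fintype F] (p : F[X]) (n : ℕ) (hp : p.natDegree ≤ n)
    (hn : n < Fintype.card F) (h : ∀ s : F, p.eval s = 0) : p = 0 := by
  apply Polynomial.eq_zero_of_natDegree_lt_card_of_eval_eq_zero p (f := id) Function.injective_id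
  · intro i; exact h i
  · omega

theorem card_roots_le [Fintype F] [DecidableEq F] (p : F[X]) (n : ℕ) (hp : p.natDegree ≤ n)
    (h0 : p ≠ 0) : (Finset.univ.filter (fun s : F => p.eval s = 0)).card ≤ n := by
  have h1 : (Finset.univ.filter (fun s : F => p.eval s = 0)) ⊆ p.roots.toFinset := by
    intro s hs
    simp only [Finset.mem_filter, Finset.mem_univ, true_and] at hs
    simp [h0, hs]
  calc _ ≤ p.roots.toFinset.card := Finset.card_le_card h1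
    _ ≤ Multiset.card p.roots := Multiset.toFinset_card_le _
    _ ≤ p.natDegree := Polynomial.card_roots' p
    _ ≤ n := hp

theorem coeffs6 [Fintype F] (hq : 6 < Fintype.card F) (c0 c1 c2 c3 c4 c5 c6 : F)
    (h : ∀ s : F, c0 + c1 * s + c2 * s ^ 2 + c3 * s ^ 3 + c4 * s ^ 4 + c5 * s ^ 5 + c6 * s ^ 6 = 0) :
    c0 = 0 ∧ c1 = 0 ∧ c2 = 0 ∧ c3 = 0 ∧ c4 = 0 ∧ c5 = 0 ∧ c6 = 0 := by
  have hp : (C c0 + C c1 * X + C c2 * X ^ 2 + C c3 * X ^ 3 + C c4 * X ^ 4 + C c5 * X ^ 5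
      + C c6 * X ^ 6 : F[X]) = 0 := by
    apply poly_eq_zero _ 6 _ hq
    · intro s; simpa using h s
    · compute_degree
  have h0 := congrArg (fun p => p.coeff 0) hp
  have h1 := congrArg (fun p => p.coeff 1) hp
  have h2 := congrArg (fun p => p.coeff 2) hp
  have h3 := congrArg (fun p => p.coeff 3) hp
  have h4 := congrArg (fun p => p.coeff 4) hp
  have h5 := congrArg (fun p => p.coeff 5) hp
  have h6 := congrArg (fun p => p.coeff 6) hp
  simp [coeff_X, coeff_C, coeff_X_pow] at h0 h1 h2 h3 h4 h5 h6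
  exact ⟨h0, h1, h2, h3, h4, h5, h6⟩

/-- Vanishing of the Hessian of the binary cubic. -/
theorem hessian_zero [Fintype F] (hq : 6 < Fintype.card F) (h2 : (2 : F) ≠ 0) (h3 : (3 : F) ≠ 0)
    (f0 f1 f2 f3 η : F)
    (h : ∀ s : F, (f0 * s ^ 2 + 2 * f1 * s + f2) ^ 3
      = η ^ 3 * (f0 * s ^ 3 + 3 * f1 * s ^ 2 + 3 * f2 * s + f3) ^ 2) :
    f0 * f2 - f1 ^ 2 = 0 ∧ f0 * f3 - f1 * f2 = 0 ∧ f1 * f3 - f2 ^ 2 = 0 := by
  obtain ⟨c0, c1, c2, c3, c4, c5, c6⟩ := coeffs6 hq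
    (f2 ^ 3 - η ^ 3 * f3 ^ 2)
    (6 * f1 * f2 ^ 2 - η ^ 3 * (6 * f2 * f3))
    (3 * f0 * f2 ^ 2 + 12 * f1 ^ 2 * f2 - η ^ 3 * (6 * f1 * f3 + 9 * f2 ^ 2))
    (12 * f0 * f1 * f2 + 8 * f1 ^ 3 - η ^ 3 * (2 * f0 * f3 + 18 * f1 * f2))
    (3 * f0 ^ 2 * f2 + 12 * f0 * f1 ^ 2 - η ^ 3 * (6 * f0 * f2 + 9 * f1 ^ 2))
    (6 * f0 ^ 2 * f1 - η ^ 3 * (6 * f0 * f1))
    (f0 ^ 3 - η ^ 3 * f0 ^ 2) (fun s => by linear_combination h s)
  have h9 : (9 : F) ≠ 0 := by
    have : (9 : F) = 3 * 3 := by norm_num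
    rw [this]; exact mul_ne_zero h3 h3
  by_cases hf0 : f0 = 0
  · subst hf0
    by_cases hη : η = 0
    · subst hη
      have e1 : f1 = 0 := by
        have : (2 * f1) ^ 3 = 0 := by linear_combination c3
        have := pow_eq_zero_iff (by norm_num) |>.1 this
        exact (mul_eq_zero.1 this).resolve_left h2
      have e2 : f2 = 0 := by
        have : f2 ^ 3 = 0 := by linear_combination c0
        exact pow_eq_zero_iff (by norm_num) |>.1 this
      subst e1 e2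
      simp
    · have hη3 : η ^ 3 ≠ 0 := pow_ne_zero _ hη
      have e1 : f1 = 0 := by
        have : (9 * η ^ 3) * f1 ^ 2 = 0 := by linear_combination (-1 : F) * c4
        have := (mul_eq_zero.1 this).resolve_left (mul_ne_zero h9 hη3)
        exact pow_eq_zero_iff (by norm_num) |>.1 this
      subst e1
      have e2 : f2 = 0 := by
        have : (9 * η ^ 3) * f2 ^ 2 = 0 := by linear_combination (-1 : F) * c2
        have := (mul_eq_zero.1 this).resolve_left (mul_ne_zero h9 hη3)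
        exact pow_eq_zero_iff (by norm_num) |>.1 this
      subst e2
      simp
  · have e0 : η ^ 3 = f0 := by
      have : f0 ^ 2 * (f0 - η ^ 3) = 0 := by linear_combination c6
      have := (mul_eq_zero.1 this).resolve_left (pow_ne_zero _ hf0)
      linear_combination (-1 : F) * this
    rw [e0] at c0 c1 c2 c3 c4 c5 c6
    have e1 : f0 * f2 - f1 ^ 2 = 0 := by
      have : (3 * f0) * (f0 * f2 - f1 ^ 2) = 0 := by linear_combination (-1 : F) * c4
      exact (mul_eq_zero.1 this).resolve_left (mul_ne_zero h3 hf0)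
    have e2 : f0 * f3 - f1 * f2 = 0 := by
      have : (2 * f0) * (f0 * f3 - f1 * f2) = 0 := by
        linear_combination (-1 : F) * c3 - 8 * f1 * e1
      exact (mul_eq_zero.1 this).resolve_left (mul_ne_zero h2 hf0)
    refine ⟨e1, e2, ?_⟩
    have : f0 * (f1 * f3 - f2 ^ 2) = 0 := by
      linear_combination f1 * e2 - f2 * e1
    exact (mul_eq_zero.1 this).resolve_left hf0

theorem pluecker_zero (h2 : (2 : F) ≠ 0) (P1 P2 P3 : F) (hs : P1 ^ 2 + P2 ^ 2 + P3 ^ 2 = 0)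
    (hp : P1 ^ 2 * P2 * P3 = 0)
    (h12 : -P1 ^ 2 * P3 * (P2 - P1) + P2 ^ 2 * P3 * (P2 - P1) - P3 ^ 4 = 0)
    (h13 : -P1 ^ 2 * P2 * (P3 - P1) + P3 ^ 2 * P2 * (P3 - P1) - P2 ^ 4 = 0) :
    P1 = 0 ∧ P2 = 0 ∧ P3 = 0 := by
  have key : ∀ a b : F, a ^ 2 + b ^ 2 = 0 → b * (a ^ 3 - b ^ 3) = 0 → a = 0 ∧ b = 0 := by
    intro a b h1 h3
    have hb : b = 0 := by
      by_contra hb
      have h4 := (mul_eq_zero.1 h3).resolve_left hb
      have : 2 * b ^ 6 = 0 := by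
        linear_combination (a ^ 4 - a ^ 2 * b ^ 2 + b ^ 4) * h1 - (a ^ 3 + b ^ 3) * h4
      have := (mul_eq_zero.1 this).resolve_left h2
      exact hb (pow_eq_zero_iff (by norm_num) |>.1 this)
    subst hb
    refine ⟨?_, rfl⟩
    have : a ^ 2 = 0 := by linear_combination h1
    exact pow_eq_zero_iff (by norm_num) |>.1 this
  rcases mul_eq_zero.1 hp with h | h
  · rcases mul_eq_zero.1 h with h | h
    · have h1 : P1 = 0 := pow_eq_zero_iff (by norm_num) |>.1 h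
      subst h1
      obtain ⟨a, b⟩ := key P2 P3 (by linear_combination hs) (by linear_combination h12)
      exact ⟨rfl, a, b⟩
    · subst h
      obtain ⟨a, b⟩ := key P1 P3 (by linear_combination hs) (by linear_combination h12)
      exact ⟨a, rfl, b⟩
  · subst h
    obtain ⟨a, b⟩ := key P1 P2 (by linear_combination hs) (by linear_combination h13)
    exact ⟨a, b, rfl⟩

/-- The top form does not vanish identically on an isotropic plane through `e`. -/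
theorem plane_top [Fintype F] (hq : 6 < Fintype.card F) (h2 : (2 : F) ≠ 0) (h3 : (3 : F) ≠ 0)
    (e1 e2 e3 e4 b1 b2 b3 b4 η : F)
    (hee : e1 ^ 2 + e2 ^ 2 + e3 ^ 2 = e4 ^ 2) (hbb : b1 ^ 2 + b2 ^ 2 + b3 ^ 2 = b4 ^ 2)
    (heb : e1 * b1 + e2 * b2 + e3 * b3 = e4 * b4)
    (h : ∀ s : F, (e1 * (s * e1 + b1) ^ 2 + e2 * (s * e2 + b2) ^ 2 + e3 * (s * e3 + b3) ^ 2) ^ 3
      = η ^ 3 * ((s * e1 + b1) ^ 3 + (s * e2 + b2) ^ 3 + (s * e3 + b3) ^ 3) ^ 2) :
    e2 * b3 - e3 * b2 = 0 ∧ e3 * b1 - e1 * b3 = 0 ∧ e1 * b2 - e2 * b1 = 0 ∧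
    e1 * b4 - e4 * b1 = 0 ∧ e2 * b4 - e4 * b2 = 0 ∧ e3 * b4 - e4 * b3 = 0 := by
  obtain ⟨H0, H1, H2⟩ := hessian_zero hq h2 h3 (e1 ^ 3 + e2 ^ 3 + e3 ^ 3)
    (e1 ^ 2 * b1 + e2 ^ 2 * b2 + e3 ^ 2 * b3) (e1 * b1 ^ 2 + e2 * b2 ^ 2 + e3 * b3 ^ 2)
    (b1 ^ 3 + b2 ^ 3 + b3 ^ 3) η (fun s => by linear_combination h s)
  obtain ⟨p1, p2, p3⟩ := pluecker_zero h2 (e2 * b3 - e3 * b2) (e3 * b1 - e1 * b3)
    (e1 * b2 - e2 * b1)
    (by linear_combination (b1 ^ 2 + b2 ^ 2 + b3 ^ 2) * hee + e4 ^ 2 * hbb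
          - (e1 * b1 + e2 * b2 + e3 * b3 + e4 * b4) * heb)
    (by linear_combination (-b1 ^ 2) * H0 + (b1 * e1) * H1 - e1 ^ 2 * H2)
    (by linear_combination (b1 + b2) ^ 2 * H0 - (b1 + b2) * (e1 + e2) * H1 + (e1 + e2) ^ 2 * H2)
    (by linear_combination (b1 + b3) ^ 2 * H0 - (b1 + b3) * (e1 + e3) * H1 + (e1 + e3) ^ 2 * H2)
  refine ⟨p1, p2, p3, ?_, ?_, ?_⟩
  · have : (e1 * b4 - e4 * b1) ^ 2 = 0 := by
      linear_combination (-b1 ^ 2) * hee - e1 ^ 2 * hbb + 2 * e1 * b1 * heb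
        + (e3 * b1 - e1 * b3) * p2 + (e1 * b2 - e2 * b1) * p3
    exact pow_eq_zero_iff (by norm_num) |>.1 this
  · have : (e2 * b4 - e4 * b2) ^ 2 = 0 := by
      linear_combination (-b2 ^ 2) * hee - e2 ^ 2 * hbb + 2 * e2 * b2 * heb
        + (e2 * b3 - e3 * b2) * p1 + (e1 * b2 - e2 * b1) * p3
    exact pow_eq_zero_iff (by norm_num) |>.1 this
  · have : (e3 * b4 - e4 * b3) ^ 2 = 0 := by
      linear_combination (-b3 ^ 2) * hee - e3 ^ 2 * hbb + 2 * e3 * b3 * heb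
        + (e2 * b3 - e3 * b2) * p1 + (e3 * b1 - e1 * b3) * p2
    exact pow_eq_zero_iff (by norm_num) |>.1 this

end Pool.Agent.Lib.MP_a1ab69_an
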