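import Mathlib

set_option autoImplicit false
set_option linter.unusedSimpArgs false

namespace Pool.Agent.Lib.MP_a1ab69_an

open Finset

variable {G : Type} [AddCommGroup G] [Fintype G] [DecidableEq G]

theorem L2_bound (H : Finset G) (a : ℝ) (K : G → ℝ) (hK : ∀ e, 0 ≤ K e)
    (hr : ∀ e, ((H.filter (fun x => x - e ∈ H)).card : ℝ) ≤ a + K e)
    (φ : G → ℝ) (hφ : ∀ x, 0 ≤ φ x) :
    ∑ y, (∑ x ∈ H, φ (y - x)) ^ 2 ≤ a * (∑ u, φ u) ^ 2 + (∑ e, K e) * ∑ u, φ u ^ 2 := by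
  set c : G → ℝ := fun e => ∑ u, φ u * φ (u + e) with hc
  have c0 : ∀ e, 0 ≤ c e := fun e => sum_nonneg fun u _ => mul_nonneg (hφ _) (hφ _)
  have c1 : ∀ e, c e ≤ ∑ u, φ u ^ 2 := by
    intro e
    have h1 : ∑ u, φ (u + e) ^ 2 = ∑ u, φ u ^ 2 :=
      Equiv.sum_comp (Equiv.addRight e) (fun u => φ u ^ 2)
    have h2 : c e ≤ ∑ u, (φ u ^ 2 + φ (u + e) ^ 2) / 2 :=
      sum_le_sum fun u _ => by nlinarith [sq_nonneg (φ u - φ (u + e))]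
    rw [← sum_div, sum_add_distrib, h1] at h2
    linarith
  have c2 : ∑ e, c e = (∑ u, φ u) ^ 2 := by
    rw [hc, sum_comm, sq, sum_mul]
    refine sum_congr rfl fun u _ => ?_
    rw [← mul_sum]
    congr 1
    exact Equiv.sum_comp (Equiv.addLeft u) φ
  have h1 : ∑ y, (∑ x ∈ H, φ (y - x)) ^ 2 = ∑ x ∈ H, ∑ x' ∈ H, c (x - x') := by
    simp_rw [sq, sum_mul_sum]
    rw [sum_comm]
    refine sum_congr rfl fun x _ => ?_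
    rw [sum_comm]
    refine sum_congr rfl fun x' _ => ?_
    rw [hc]
    simp only
    rw [← Equiv.sum_comp (Equiv.subRight x) (fun u => φ u * φ (u + (x - x')))]
    refine sum_congr rfl fun y _ => ?_
    simp
  have h2 : ∑ x ∈ H, ∑ x' ∈ H, c (x - x')
      = ∑ e, ((H.filter (fun x => x - e ∈ H)).card : ℝ) * c e := by
    have : ∀ x, ∑ x' ∈ H, c (x - x') = ∑ e, if x - e ∈ H then c e else 0 := by
      intro x
      rw [← Equiv.sum_comp (Equiv.subLeft x) (fun e => if x - e ∈ H then c e else 0)]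
      simp [sum_ite_mem]
    simp_rw [this]
    rw [sum_comm]
    refine sum_congr rfl fun e _ => ?_
    rw [← sum_filter, sum_const, nsmul_eq_mul]
  rw [h1, h2, ← c2, mul_sum, sum_mul, ← sum_add_distrib]
  refine sum_le_sum fun e _ => ?_
  calc _ ≤ (a + K e) * c e := mul_le_mul_of_nonneg_right (hr e) (c0 e)
    _ = a * c e + K e * c e := by ring
    _ ≤ _ := by gcongr; exact hK e; exact c1 e

theorem rpow_add_le8 (a b : ℝ) (ha : 0 ≤ a) (hb : 0 ≤ b) :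
    (a + b) ^ (20 / 7 : ℝ) ≤ 8 * (a ^ (20 / 7 : ℝ) + b ^ (20 / 7 : ℝ)) := by
  have h8 : (2 : ℝ) ^ (20 / 7 : ℝ) ≤ 8 := by
    calc (2 : ℝ) ^ (20 / 7 : ℝ) ≤ (2 : ℝ) ^ ((3 : ℕ) : ℝ) :=
          Real.rpow_le_rpow_of_exponent_le (by norm_num) (by norm_num)
      _ = 8 := by rw [Real.rpow_natCast]; norm_num
  have pa : 0 ≤ a ^ (20 / 7 : ℝ) := by positivity
  have pb : 0 ≤ b ^ (20 / 7 : ℝ) := by positivity
  rcases le_total a b with h | h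
  · calc (a + b) ^ (20 / 7 : ℝ) ≤ (2 * b) ^ (20 / 7 : ℝ) := by
          apply Real.rpow_le_rpow (by positivity) (by linarith) (by norm_num)
      _ = (2 : ℝ) ^ (20 / 7 : ℝ) * b ^ (20 / 7 : ℝ) := Real.mul_rpow (by norm_num) hb
      _ ≤ 8 * b ^ (20 / 7 : ℝ) := by gcongr
      _ ≤ _ := by linarith
  · calc (a + b) ^ (20 / 7 : ℝ) ≤ (2 * a) ^ (20 / 7 : ℝ) := by
          apply Real.rpow_le_rpow (by positivity) (by linarith) (by norm_num)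
      _ = (2 : ℝ) ^ (20 / 7 : ℝ) * a ^ (20 / 7 : ℝ) := Real.mul_rpow (by norm_num) ha
      _ ≤ 8 * a ^ (20 / 7 : ℝ) := by gcongr
      _ ≤ _ := by linarith

theorem pow_rpow_eq (x : ℝ) (hx : 0 ≤ x) (m n : ℕ) (r : ℝ) (h : (m : ℝ) * r = n) :
    (x ^ m) ^ r = x ^ n := by
  rw [← Real.rpow_natCast, ← Real.rpow_mul hx, h, Real.rpow_natCast]

omit [DecidableEq G] [Fintype G] in
theorem jensen_step (H : Finset G) (hh : 0 < (H.card : ℝ)) (s : G → ℝ) (s0 : ∀ x, 0 ≤ s x) (y : G) :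
    ((H.card : ℝ)⁻¹ * ∑ x ∈ H, s (y - x) ^ 7) ^ (20 / 7 : ℝ)
      ≤ ((H.card : ℝ)⁻¹) ^ 2 * (∑ x ∈ H, s (y - x) ^ 10) ^ 2 := by
  have hinv0 : 0 ≤ (H.card : ℝ)⁻¹ := by positivity
  have hJ := Real.rpow_arith_mean_le_arith_mean_rpow H (fun _ => (H.card : ℝ)⁻¹)
    (fun x => s (y - x) ^ 7) (fun _ _ => hinv0)
    (by rw [sum_const, nsmul_eq_mul, mul_inv_cancel₀ hh.ne'])
    (fun x _ => pow_nonneg (s0 _) 7) (p := 10 / 7) (by norm_num)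
  simp only [← mul_sum] at hJ
  have e1 : ∀ x, (s (y - x) ^ 7) ^ (10 / 7 : ℝ) = s (y - x) ^ 10 := fun x =>
    pow_rpow_eq _ (s0 _) 7 10 _ (by norm_num)
  simp only [e1] at hJ
  have p1 : 0 ≤ (H.card : ℝ)⁻¹ * ∑ x ∈ H, s (y - x) ^ 7 :=
    mul_nonneg hinv0 (sum_nonneg fun x _ => pow_nonneg (s0 _) 7)
  calc _ = (((H.card : ℝ)⁻¹ * ∑ x ∈ H, s (y - x) ^ 7) ^ (10 / 7 : ℝ)) ^ 2 := by
        rw [← Real.rpow_natCast, ← Real.rpow_mul p1]; norm_num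
    _ ≤ ((H.card : ℝ)⁻¹ * ∑ x ∈ H, s (y - x) ^ 10) ^ 2 :=
        pow_le_pow_left₀ (Real.rpow_nonneg p1 _) hJ 2
    _ = _ := mul_pow _ _ _

theorem arith1 (τ θ c h A B : ℝ) (hτ : 0 < τ) (hc : 0 ≤ c) (h0 : 0 ≤ h) (hh : h ≤ 2 / τ ^ 30)
    (A0 : 0 ≤ A) (hA : A ≤ θ ^ 10 * τ ^ 50) (B0 : 0 ≤ B) (hB : B ≤ θ ^ 20 * τ ^ 80) :
    h ^ 2 * (c * τ ^ 10 * A ^ 2 + c * τ ^ 30 * B) ≤ 8 * c * (θ ^ 20 * τ ^ 50) := by
  calc _ ≤ (2 / τ ^ 30) ^ 2 * (c * τ ^ 10 * (θ ^ 10 * τ ^ 50) ^ 2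
        + c * τ ^ 30 * (θ ^ 20 * τ ^ 80)) := by gcongr
    _ = _ := by field_simp; ring

theorem arith2 (τ θ c h A B : ℝ) (hτ : 1 ≤ τ) (hθ : 0 < θ) (hc : 0 ≤ c) (h0 : 0 ≤ h)
    (hh : h ≤ 2 / τ ^ 30)
    (A0 : 0 ≤ A) (hA : A ≤ θ ^ 7 * τ ^ 41) (B0 : 0 ≤ B) (hB : B ≤ θ ^ 14 * τ ^ 70) :
    (2 * θ ^ 6 * τ ^ 10) * (h ^ 2 * (c * τ ^ 10 * A ^ 2 + c * τ ^ 30 * B))
      ≤ 16 * c * (θ ^ 20 * τ ^ 50) := by
  have hτ0 : 0 < τ := by linarith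
  calc _ ≤ (2 * θ ^ 6 * τ ^ 10) * ((2 / τ ^ 30) ^ 2 * (c * τ ^ 10 * (θ ^ 7 * τ ^ 41) ^ 2
        + c * τ ^ 30 * (θ ^ 14 * τ ^ 70))) := by gcongr
    _ = 8 * c * (θ ^ 20 * τ ^ 42 * 1) + 8 * c * (θ ^ 20 * τ ^ 50) := by field_simp; ring
    _ ≤ 8 * c * (θ ^ 20 * τ ^ 42 * τ ^ 8) + 8 * c * (θ ^ 20 * τ ^ 50) := by
        gcongr
        exact one_le_pow₀ hτ
    _ = _ := by ring

theorem arith3 (τ θ h A : ℝ) (hτ : 1 ≤ τ) (hθ : 0 < θ) (h0 : 0 ≤ h) (hh : h ≤ 2 / τ ^ 30)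
    (A0 : 0 ≤ A) (hA : A ≤ θ ^ 7 * τ ^ 41) :
    (h * A) ^ (20 / 7 : ℝ) ≤ (2 * θ ^ 6 * τ ^ 10) * (h ^ 2 * A ^ 2) := by
  have hτ0 : 0 < τ := by linarith
  have p1 : 0 ≤ h * A := mul_nonneg h0 A0
  have h2 : h * A ≤ 2 * θ ^ 7 * τ ^ 11 := by
    calc _ ≤ (2 / τ ^ 30) * (θ ^ 7 * τ ^ 41) := by gcongr
      _ = _ := by field_simp
  have h4 : (h * A) ^ 6 ≤ (2 * θ ^ 6 * τ ^ 10) ^ 7 := by
    calc _ ≤ (2 * θ ^ 7 * τ ^ 11) ^ 6 := by gcongr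
      _ = 64 * θ ^ 42 * τ ^ 66 * 1 := by ring
      _ ≤ 128 * θ ^ 42 * τ ^ 66 * τ ^ 4 := by
          gcongr
          · norm_num
          · exact one_le_pow₀ hτ
      _ = _ := by ring
  have h3 : (h * A) ^ (6 / 7 : ℝ) ≤ 2 * θ ^ 6 * τ ^ 10 := by
    calc _ = ((h * A) ^ 6) ^ (1 / 7 : ℝ) := by
          rw [← Real.rpow_natCast, ← Real.rpow_mul p1]; norm_num
      _ ≤ ((2 * θ ^ 6 * τ ^ 10) ^ 7) ^ (1 / 7 : ℝ) :=
          Real.rpow_le_rpow (by positivity) h4 (by norm_num)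
      _ = _ := by
          rw [pow_rpow_eq _ (by positivity) 7 1 _ (by norm_num), pow_one]
  calc _ = (h * A) ^ (6 / 7 : ℝ) * (h * A) ^ 2 := by
        rw [← Real.rpow_natCast, ← Real.rpow_add' p1 (by norm_num)]; norm_num
    _ ≤ (2 * θ ^ 6 * τ ^ 10) * (h * A) ^ 2 := mul_le_mul_of_nonneg_right h3 (by positivity)
    _ = _ := by ring

omit [DecidableEq G] in
theorem small_part (H : Finset G) (τ θ c : ℝ) (hτ : 1 ≤ τ) (hθ : 0 < θ) (hc : 0 ≤ c)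
    (hH : τ ^ 30 / 2 ≤ (H.card : ℝ))
    (hL2 : ∀ φ : G → ℝ, (∀ x, 0 ≤ φ x) →
      ∑ y, (∑ x ∈ H, φ (y - x)) ^ 2 ≤ c * τ ^ 10 * (∑ u, φ u) ^ 2 + c * τ ^ 30 * ∑ u, φ u ^ 2)
    (s : G → ℝ) (s0 : ∀ x, 0 ≤ s x) (sΛ : ∀ x, s x ≤ θ * τ ^ 3)
    (S1 : ∑ x, s x ^ 10 ≤ θ ^ 10 * τ ^ 50) :
    ∑ y, ((H.card : ℝ)⁻¹ * ∑ x ∈ H, s (y - x) ^ 7) ^ (20 / 7 : ℝ)
      ≤ 8 * c * (θ ^ 20 * τ ^ 50) := by
  have hτ0 : 0 < τ := by linarith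
  have hh : 0 < (H.card : ℝ) := lt_of_lt_of_le (by positivity) hH
  have hinv : (H.card : ℝ)⁻¹ ≤ 2 / τ ^ 30 := by
    rw [inv_le_comm₀ hh (by positivity)]
    simpa using hH
  have hinv0 : 0 ≤ (H.card : ℝ)⁻¹ := by positivity
  have S2 : ∑ x, (s x ^ 10) ^ 2 ≤ θ ^ 20 * τ ^ 80 := by
    calc ∑ x, (s x ^ 10) ^ 2 ≤ ∑ x, (θ * τ ^ 3) ^ 10 * s x ^ 10 := by
          refine sum_le_sum fun x _ => ?_
          rw [sq]
          exact mul_le_mul_of_nonneg_right (pow_le_pow_left₀ (s0 x) (sΛ x) 10)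
            (pow_nonneg (s0 x) 10)
      _ = (θ * τ ^ 3) ^ 10 * ∑ x, s x ^ 10 := by rw [mul_sum]
      _ ≤ (θ * τ ^ 3) ^ 10 * (θ ^ 10 * τ ^ 50) := mul_le_mul_of_nonneg_left S1 (by positivity)
      _ = _ := by ring
  refine le_trans (sum_le_sum fun y _ => jensen_step H hh s s0 y) ?_
  rw [← mul_sum]
  have h1 := hL2 (fun x => s x ^ 10) (fun x => pow_nonneg (s0 x) 10)
  refine le_trans (mul_le_mul_of_nonneg_left h1 (pow_nonneg hinv0 2)) ?_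
  exact arith1 τ θ c _ _ _ hτ0 hc hinv0 hinv (sum_nonneg fun x _ => pow_nonneg (s0 _) 10) S1
    (sum_nonneg fun x _ => sq_nonneg _) S2

omit [DecidableEq G] in
theorem large_part (H : Finset G) (τ θ c : ℝ) (hτ : 1 ≤ τ) (hθ : 0 < θ) (hc : 0 ≤ c)
    (hH : τ ^ 30 / 2 ≤ (H.card : ℝ))
    (hL2 : ∀ φ : G → ℝ, (∀ x, 0 ≤ φ x) →
      ∑ y, (∑ x ∈ H, φ (y - x)) ^ 2 ≤ c * τ ^ 10 * (∑ u, φ u) ^ 2 + c * τ ^ 30 * ∑ u, φ u ^ 2)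
    (b : G → ℝ) (b0 : ∀ x, 0 ≤ b x) (B1 : ∑ x, b x ^ 7 ≤ θ ^ 7 * τ ^ 41)
    (B2 : ∑ x, (b x ^ 7) ^ 2 ≤ θ ^ 14 * τ ^ 70) :
    ∑ y, ((H.card : ℝ)⁻¹ * ∑ x ∈ H, b (y - x) ^ 7) ^ (20 / 7 : ℝ)
      ≤ 16 * c * (θ ^ 20 * τ ^ 50) := by
  have hτ0 : 0 < τ := by linarith
  have hh : 0 < (H.card : ℝ) := lt_of_lt_of_le (by positivity) hH
  have hinv : (H.card : ℝ)⁻¹ ≤ 2 / τ ^ 30 := by
    rw [inv_le_comm₀ hh (by positivity)]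
    simpa using hH
  have hinv0 : 0 ≤ (H.card : ℝ)⁻¹ := by positivity
  have B3 : ∀ y, ((H.card : ℝ)⁻¹ * ∑ x ∈ H, b (y - x) ^ 7) ^ (20 / 7 : ℝ)
      ≤ (2 * θ ^ 6 * τ ^ 10) * (((H.card : ℝ)⁻¹) ^ 2 * (∑ x ∈ H, b (y - x) ^ 7) ^ 2) := by
    intro y
    have p2 : 0 ≤ ∑ x ∈ H, b (y - x) ^ 7 := sum_nonneg fun x _ => pow_nonneg (b0 _) 7
    have h1 : ∑ x ∈ H, b (y - x) ^ 7 ≤ θ ^ 7 * τ ^ 41 := by
      refine le_trans ?_ B1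
      rw [← Equiv.sum_comp (Equiv.subLeft y) (fun u => b u ^ 7)]
      exact sum_le_sum_of_subset_of_nonneg (subset_univ _) (fun x _ _ => pow_nonneg (b0 _) 7)
    exact arith3 τ θ _ _ hτ hθ hinv0 hinv p2 h1
  refine le_trans (sum_le_sum fun y _ => B3 y) ?_
  rw [← mul_sum, ← mul_sum]
  have h1 := hL2 (fun x => b x ^ 7) (fun x => pow_nonneg (b0 x) 7)
  refine le_trans (mul_le_mul_of_nonneg_left
    (mul_le_mul_of_nonneg_left h1 (pow_nonneg hinv0 2)) (by positivity)) ?_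
  exact arith2 τ θ c _ _ _ hτ hθ hc hinv0 hinv (sum_nonneg fun x _ => pow_nonneg (b0 _) 7) B1
    (sum_nonneg fun x _ => sq_nonneg _) B2

omit [DecidableEq G] in
theorem main_bound (H : Finset G) (τ θ c : ℝ) (hτ : 1 ≤ τ) (hθ : 0 < θ) (hc : 0 ≤ c)
    (hH : τ ^ 30 / 2 ≤ (H.card : ℝ))
    (hL2 : ∀ φ : G → ℝ, (∀ x, 0 ≤ φ x) →
      ∑ y, (∑ x ∈ H, φ (y - x)) ^ 2 ≤ c * τ ^ 10 * (∑ u, φ u) ^ 2 + c * τ ^ 30 * ∑ u, φ u ^ 2)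
    (g : G → ℝ) (hg : ∀ x, 0 ≤ g x) (hs : ∑ x, g x ^ 10 = θ ^ 10 * τ ^ 50) :
    ∑ y, ((H.card : ℝ)⁻¹ * ∑ x ∈ H, g (y - x) ^ 7) ^ (20 / 7 : ℝ)
      ≤ 192 * c * (θ ^ 20 * τ ^ 50) := by
  have hτ0 : 0 < τ := by linarith
  have hinv0 : 0 ≤ (H.card : ℝ)⁻¹ := by positivity
  obtain ⟨s, hsdef⟩ : ∃ s : G → ℝ, s = fun x => if g x ≤ θ * τ ^ 3 then g x else 0 := ⟨_, rfl⟩
  obtain ⟨b, hbdef⟩ : ∃ b : G → ℝ, b = fun x => if g x ≤ θ * τ ^ 3 then 0 else g x := ⟨_, rfl⟩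
  have s0 : ∀ x, 0 ≤ s x := fun x => by
    simp only [hsdef]; split_ifs; exacts [hg x, le_rfl]
  have b0 : ∀ x, 0 ≤ b x := fun x => by
    simp only [hbdef]; split_ifs; exacts [le_rfl, hg x]
  have sg : ∀ x, s x ≤ g x := fun x => by
    simp only [hsdef]; split_ifs; exacts [le_rfl, hg x]
  have bg : ∀ x, b x ≤ g x := fun x => by
    simp only [hbdef]; split_ifs; exacts [hg x, le_rfl]
  have sΛ : ∀ x, s x ≤ θ * τ ^ 3 := fun x => by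
    simp only [hsdef]; split_ifs with h; exacts [h, by positivity]
  have hsplit : ∀ x, g x ^ 7 = s x ^ 7 + b x ^ 7 := fun x => by
    simp only [hsdef, hbdef]; split_ifs <;> simp
  have gle : ∀ x, g x ≤ θ * τ ^ 5 := by
    intro x
    have h1 : g x ^ 10 ≤ ∑ x, g x ^ 10 :=
      single_le_sum (f := fun x => g x ^ 10) (fun x _ => pow_nonneg (hg x) 10) (mem_univ x)
    have h2 : g x ^ 10 ≤ (θ * τ ^ 5) ^ 10 := by
      rw [hs] at h1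
      calc _ ≤ _ := h1
        _ = _ := by ring
    exact (pow_le_pow_iff_left₀ (hg x) (by positivity) (by norm_num)).1 h2
  have S1 : ∑ x, s x ^ 10 ≤ θ ^ 10 * τ ^ 50 := by
    rw [← hs]
    exact sum_le_sum fun x _ => pow_le_pow_left₀ (s0 x) (sg x) 10
  have B1 : ∑ x, b x ^ 7 ≤ θ ^ 7 * τ ^ 41 := by
    have h1 : (θ * τ ^ 3) ^ 3 * ∑ x, b x ^ 7 ≤ θ ^ 10 * τ ^ 50 := by
      rw [← hs, mul_sum]
      refine sum_le_sum fun x _ => ?_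
      simp only [hbdef]
      split_ifs with h
      · simp only [ne_eq, OfNat.ofNat_ne_zero, not_false_eq_true, zero_pow, mul_zero]
        exact pow_nonneg (hg x) 10
      · calc (θ * τ ^ 3) ^ 3 * g x ^ 7 ≤ g x ^ 3 * g x ^ 7 :=
              mul_le_mul_of_nonneg_right (pow_le_pow_left₀ (by positivity) (not_le.1 h).le 3)
                (pow_nonneg (hg x) 7)
          _ = _ := by ring
    have h2 : (θ * τ ^ 3) ^ 3 * ∑ x, b x ^ 7 ≤ (θ * τ ^ 3) ^ 3 * (θ ^ 7 * τ ^ 41) := by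
      calc _ ≤ _ := h1
        _ = _ := by ring
    exact le_of_mul_le_mul_left h2 (by positivity)
  have B2 : ∑ x, (b x ^ 7) ^ 2 ≤ θ ^ 14 * τ ^ 70 := by
    calc ∑ x, (b x ^ 7) ^ 2 ≤ ∑ x, (θ * τ ^ 5) ^ 4 * g x ^ 10 := by
          refine sum_le_sum fun x _ => ?_
          calc (b x ^ 7) ^ 2 = b x ^ 4 * b x ^ 10 := by ring
            _ ≤ _ := mul_le_mul (pow_le_pow_left₀ (b0 x) (le_trans (bg x) (gle x)) 4)
              (pow_le_pow_left₀ (b0 x) (bg x) 10) (pow_nonneg (b0 x) 10) (by positivity)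
      _ = (θ * τ ^ 5) ^ 4 * (θ ^ 10 * τ ^ 50) := by rw [← mul_sum, hs]
      _ = _ := by ring
  have S4 := small_part H τ θ c hτ hθ hc hH hL2 s s0 sΛ S1
  have B4 := large_part H τ θ c hτ hθ hc hH hL2 b b0 B1 B2
  calc _ ≤ ∑ y, 8 * (((H.card : ℝ)⁻¹ * ∑ x ∈ H, s (y - x) ^ 7) ^ (20 / 7 : ℝ)
        + ((H.card : ℝ)⁻¹ * ∑ x ∈ H, b (y - x) ^ 7) ^ (20 / 7 : ℝ)) := by
        refine sum_le_sum fun y _ => ?_
        simp_rw [hsplit]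
        rw [sum_add_distrib, mul_add]
        exact rpow_add_le8 _ _ (mul_nonneg hinv0 (sum_nonneg fun x _ => pow_nonneg (s0 _) 7))
          (mul_nonneg hinv0 (sum_nonneg fun x _ => pow_nonneg (b0 _) 7))
    _ ≤ 8 * (8 * c * (θ ^ 20 * τ ^ 50) + 16 * c * (θ ^ 20 * τ ^ 50)) := by
        rw [← mul_sum, sum_add_distrib]
        linarith
    _ = _ := by ring

end Pool.Agent.Lib.MP_a1ab69_an
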