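import Mathlib
import Pool.Agent.Lib.MP_a1ab69_an.Alg

set_option autoImplicit false
set_option linter.unusedSimpArgs false

namespace Pool.Agent.Lib.MP_a1ab69_an

open Polynomial

variable {F : Type} [Field F]

theorem dvd_of_bezout {R : Type} [CommRing R] (D M V1 V2 V3 V4 a1 a2 a3 a4 : R)
    (hb : a1 * V1 + a2 * V2 + a3 * V3 + a4 * V4 = 1) (h4 : V4 ^ 2 = V1 ^ 2 + V2 ^ 2 + V3 ^ 2)
    (d1 : D ∣ V1 ^ 2 * M) (d2 : D ∣ V2 ^ 2 * M) (d3 : D ∣ V3 ^ 2 * M) : D ∣ M := by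
  let I : Ideal R := Submodule.comap (LinearMap.mulRight R M) (Ideal.span {D})
  have hI : ∀ x : R, x ∈ I ↔ D ∣ x * M := by
    intro x
    simp [I, Ideal.mem_span_singleton]
  have d4 : D ∣ V4 ^ 2 * M := by
    rw [h4, add_mul, add_mul]
    exact dvd_add (dvd_add d1 d2) d3
  have r1 : V1 ∈ I.radical := ⟨2, (hI _).2 d1⟩
  have r2 : V2 ∈ I.radical := ⟨2, (hI _).2 d2⟩
  have r3 : V3 ∈ I.radical := ⟨2, (hI _).2 d3⟩
  have r4 : V4 ∈ I.radical := ⟨2, (hI _).2 d4⟩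
  have h1 : (1 : R) ∈ I.radical := by
    rw [← hb]
    exact add_mem (add_mem (add_mem (Ideal.mul_mem_left _ _ r1) (Ideal.mul_mem_left _ _ r2))
      (Ideal.mul_mem_left _ _ r3)) (Ideal.mul_mem_left _ _ r4)
  obtain ⟨n, hn⟩ := h1
  have := (hI _).1 hn
  simpa using this

theorem quad_rep (h : F[X]) (hd : h.natDegree ≤ 2) :
    h = C (h.coeff 0) + C (h.coeff 1) * X + C (h.coeff 2) * X ^ 2 := by
  ext n
  rcases n with _ | _ | _ | n
  · simp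
  · simp [coeff_X, coeff_C]
  · simp [coeff_X, coeff_C]
  · have : h.coeff (n + 3) = 0 := coeff_eq_zero_of_natDegree_lt (by omega)
    simp [coeff_X, coeff_C, coeff_X_pow, this]

theorem quad_eq_zero (a b c : F) (h : (C a + C b * X + C c * X ^ 2 : F[X]) = 0) :
    a = 0 ∧ b = 0 ∧ c = 0 := by
  have h0 := congrArg (fun p => p.coeff 0) h
  have h1 := congrArg (fun p => p.coeff 1) h
  have h2 := congrArg (fun p => p.coeff 2) h
  simp [coeff_X, coeff_C, coeff_X_pow] at h0 h1 h2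
  exact ⟨h0, h1, h2⟩

theorem quad_deriv (a b c : F) :
    derivative (C a + C b * X + C c * X ^ 2 : F[X]) = C b + 2 * C c * X := by
  simp [derivative_pow]
  have : (C (2 : F) : F[X]) = 2 := rfl
  rw [this]
  ring

theorem small_of_dvd (a b c m0 m1 m2 : F) (hc : c ≠ 0)
    (h : (C a + C b * X + C c * X ^ 2 : F[X]) ^ 2 ∣ (C m0 + C m1 * X + C m2 * X ^ 2 : F[X])) :
    (C m0 + C m1 * X + C m2 * X ^ 2 : F[X]) = 0 := by
  apply Polynomial.eq_zero_of_dvd_of_natDegree_lt h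
  have h1 : (C a + C b * X + C c * X ^ 2 : F[X]).natDegree = 2 := by
    compute_degree!
  have h2 : (C m0 + C m1 * X + C m2 * X ^ 2 : F[X]).natDegree ≤ 2 := by
    compute_degree
  rw [natDegree_pow, h1]
  omega

theorem cube_root (η : F) (hη : η ≠ 0) (G P : F[X]) (h : G ^ 3 = C η ^ 3 * P ^ 2) :
    ∃ k : F[X], P = k ^ 3 ∧ G = C η * k ^ 2 := by
  have hC : (C η : F[X]) ≠ 0 := by simpa using hη
  by_cases hG : G = 0
  · refine ⟨0, ?_, by simp [hG]⟩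
    rw [hG] at h
    have : C η ^ 3 * P ^ 2 = 0 := by rw [← h]; simp
    have := (mul_eq_zero.1 this).resolve_left (pow_ne_zero _ hC)
    have := pow_eq_zero_iff (by norm_num) |>.1 this
    simp [this]
  · have hinv : (C η : F[X]) * C η⁻¹ = 1 := by
      rw [← C_mul, mul_inv_cancel₀ hη, C_1]
    have hd : G ^ 2 ∣ P ^ 2 := by
      refine ⟨G * C η⁻¹ ^ 3, ?_⟩
      calc P ^ 2 = (C η * C η⁻¹) ^ 3 * P ^ 2 := by rw [hinv]; ring
        _ = (C η ^ 3 * P ^ 2) * C η⁻¹ ^ 3 := by ring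
        _ = G ^ 2 * (G * C η⁻¹ ^ 3) := by rw [← h]; ring
    obtain ⟨k, hk⟩ := (IsIntegrallyClosed.pow_dvd_pow_iff (by norm_num : (2 : ℕ) ≠ 0)).1 hd
    have hG2 : G = C η ^ 3 * k ^ 2 := by
      have : G ^ 2 * (G - C η ^ 3 * k ^ 2) = 0 := by
        rw [hk] at h; linear_combination h
      have := (mul_eq_zero.1 this).resolve_left (pow_ne_zero _ hG)
      linear_combination this
    refine ⟨C η * k, ?_, ?_⟩
    · rw [hk, hG2]; ring
    · rw [hG2]; ring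

/-- On a smooth conic the top form cannot vanish identically when `η ≠ 0`. -/
theorem conic_top [Fintype F] (hq : 12 < Fintype.card F) (h2 : (2 : F) ≠ 0) (h3 : (3 : F) ≠ 0)
    (u1 u2 u3 u4 w1 w2 w3 w4 z1 z2 z3 z4 c1 c2 c3 η : F) (hη : η ≠ 0)
    (hA0 : u1 ^ 2 + u2 ^ 2 + u3 ^ 2 - u4 ^ 2 = 0)
    (hA1 : u1 * w1 + u2 * w2 + u3 * w3 - u4 * w4 = 0)
    (hA2 : 2 * (u1 * z1 + u2 * z2 + u3 * z3 - u4 * z4) + (w1 ^ 2 + w2 ^ 2 + w3 ^ 2 - w4 ^ 2) = 0)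
    (hA3 : w1 * z1 + w2 * z2 + w3 * z3 - w4 * z4 = 0)
    (hA4 : z1 ^ 2 + z2 ^ 2 + z3 ^ 2 - z4 ^ 2 = 0)
    (huz : u1 * z1 + u2 * z2 + u3 * z3 - u4 * z4 ≠ 0)
    (h : ∀ t : F, (c1 * (u1 + w1 * t + z1 * t ^ 2) ^ 2 + c2 * (u2 + w2 * t + z2 * t ^ 2) ^ 2
        + c3 * (u3 + w3 * t + z3 * t ^ 2) ^ 2) ^ 3
      = η ^ 3 * ((u1 + w1 * t + z1 * t ^ 2) ^ 3 + (u2 + w2 * t + z2 * t ^ 2) ^ 3
        + (u3 + w3 * t + z3 * t ^ 2) ^ 3) ^ 2) :
    (c1 * (w2 * z3 - w3 * z2) + c2 * (w3 * z1 - w1 * z3) + c3 * (w1 * z2 - w2 * z1) = 0) ∧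
    (c1 * (u2 * z3 - u3 * z2) + c2 * (u3 * z1 - u1 * z3) + c3 * (u1 * z2 - u2 * z1) = 0) ∧
    (c1 * (u2 * w3 - u3 * w2) + c2 * (u3 * w1 - u1 * w3) + c3 * (u1 * w2 - u2 * w1) = 0) ∧
    (u1 * (w2 * z3 - w3 * z2) + u2 * (w3 * z1 - w1 * z3) + u3 * (w1 * z2 - w2 * z1) = 0) := by
  set V1 : F[X] := C u1 + C w1 * X + C z1 * X ^ 2 with hV1
  set V2 : F[X] := C u2 + C w2 * X + C z2 * X ^ 2 with hV2
  set V3 : F[X] := C u3 + C w3 * X + C z3 * X ^ 2 with hV3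
  set V4 : F[X] := C u4 + C w4 * X + C z4 * X ^ 2 with hV4
  have dV1 : V1.natDegree ≤ 2 := by rw [hV1]; compute_degree
  have dV2 : V2.natDegree ≤ 2 := by rw [hV2]; compute_degree
  have dV3 : V3.natDegree ≤ 2 := by rw [hV3]; compute_degree
  have hpoly : (C c1 * V1 ^ 2 + C c2 * V2 ^ 2 + C c3 * V3 ^ 2) ^ 3
      = C η ^ 3 * (V1 ^ 3 + V2 ^ 3 + V3 ^ 3) ^ 2 := by
    rw [← sub_eq_zero]
    apply poly_eq_zero _ 12 _ hq
    · intro s
      simp only [hV1, hV2, hV3, eval_sub, eval_add, eval_mul, eval_pow, eval_C, eval_X]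
      rw [h s]; ring
    · rw [hV1, hV2, hV3]; compute_degree
  obtain ⟨k, hP, hG⟩ := cube_root η hη _ _ hpoly
  have dk : k.natDegree ≤ 2 := by
    have h6 : (V1 ^ 3 + V2 ^ 3 + V3 ^ 3).natDegree ≤ 6 := by
      rw [hV1, hV2, hV3]; compute_degree
    rw [hP, natDegree_pow] at h6
    omega
  obtain ⟨k0, k1, k2, hk⟩ : ∃ k0 k1 k2 : F, k = C k0 + C k1 * X + C k2 * X ^ 2 :=
    ⟨_, _, _, quad_rep k dk⟩
  have hder : V1 ^ 2 * (C w1 + 2 * C z1 * X) + V2 ^ 2 * (C w2 + 2 * C z2 * X)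
      + V3 ^ 2 * (C w3 + 2 * C z3 * X) = k ^ 2 * (C k1 + 2 * C k2 * X) := by
    have hd := congrArg derivative hP
    rw [derivative_add, derivative_add, derivative_pow, derivative_pow, derivative_pow,
      derivative_pow] at hd
    have e1 : derivative V1 = C w1 + 2 * C z1 * X := by rw [hV1, quad_deriv]
    have e2 : derivative V2 = C w2 + 2 * C z2 * X := by rw [hV2, quad_deriv]
    have e3 : derivative V3 = C w3 + 2 * C z3 * X := by rw [hV3, quad_deriv]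
    have e4 : derivative k = C k1 + 2 * C k2 * X := by rw [hk, quad_deriv]
    rw [e1, e2, e3, e4] at hd
    have hC3 : (C ((3 : ℕ) : F) : F[X]) ≠ 0 := by
      simpa using h3
    apply mul_left_cancel₀ hC3
    simp only [show 3 - 1 = 2 from rfl] at hd
    linear_combination hd
  -- the projected curve
  set a1 := η * u1 - c1 * k0 with ha1
  set a2 := η * u2 - c2 * k0 with ha2
  set a3 := η * u3 - c3 * k0 with ha3
  set b1 := η * w1 - c1 * k1 with hb1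
  set b2 := η * w2 - c2 * k1 with hb2
  set b3 := η * w3 - c3 * k1 with hb3
  set g1 := η * z1 - c1 * k2 with hg1
  set g2 := η * z2 - c2 * k2 with hg2
  set g3 := η * z3 - c3 * k2 with hg3
  set M1 : F[X] := C (a2 * b3 - a3 * b2) + C (2 * (a2 * g3 - a3 * g2)) * X
    + C (b2 * g3 - b3 * g2) * X ^ 2 with hM1
  set M2 : F[X] := C (a3 * b1 - a1 * b3) + C (2 * (a3 * g1 - a1 * g3)) * X
    + C (b3 * g1 - b1 * g3) * X ^ 2 with hM2
  set M3 : F[X] := C (a1 * b2 - a2 * b1) + C (2 * (a1 * g2 - a2 * g1)) * X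
    + C (b1 * g2 - b2 * g1) * X ^ 2 with hM3
  have hC2 : (C (2 : F) : F[X]) = 2 := rfl
  set A1 : F[X] := C η * V1 - C c1 * k with hA1'
  set A2 : F[X] := C η * V2 - C c2 * k with hA2'
  set A3 : F[X] := C η * V3 - C c3 * k with hA3'
  set B1 : F[X] := C η * (C w1 + 2 * C z1 * X) - C c1 * (C k1 + 2 * C k2 * X) with hB1'
  set B2 : F[X] := C η * (C w2 + 2 * C z2 * X) - C c2 * (C k1 + 2 * C k2 * X) with hB2'
  set B3 : F[X] := C η * (C w3 + 2 * C z3 * X) - C c3 * (C k1 + 2 * C k2 * X) with hB3'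
  have nA : V1 ^ 2 * A1 + V2 ^ 2 * A2 + V3 ^ 2 * A3 = 0 := by
    rw [hA1', hA2', hA3']
    linear_combination C η * hP - k * hG
  have nB : V1 ^ 2 * B1 + V2 ^ 2 * B2 + V3 ^ 2 * B3 = 0 := by
    rw [hB1', hB2', hB3']
    linear_combination C η * hder - (C k1 + 2 * C k2 * X) * hG
  have eM1 : M1 = A2 * B3 - A3 * B2 := by
    rw [hM1, hA2', hA3', hB2', hB3', hV2, hV3, hk, ha2, ha3, hb2, hb3, hg2, hg3]
    simp only [map_add, map_mul, map_sub, hC2]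
    ring
  have eM2 : M2 = A3 * B1 - A1 * B3 := by
    rw [hM2, hA1', hA3', hB1', hB3', hV1, hV3, hk, ha1, ha3, hb1, hb3, hg1, hg3]
    simp only [map_add, map_mul, map_sub, hC2]
    ring
  have eM3 : M3 = A1 * B2 - A2 * B1 := by
    rw [hM3, hA1', hA2', hB1', hB2', hV1, hV2, hk, ha1, ha2, hb1, hb2, hg1, hg2]
    simp only [map_add, map_mul, map_sub, hC2]
    ring
  have r12 : V1 ^ 2 * M2 = V2 ^ 2 * M1 := by
    rw [eM1, eM2]; linear_combination A3 * nB - B3 * nA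
  have r23 : V2 ^ 2 * M3 = V3 ^ 2 * M2 := by
    rw [eM3, eM2]; linear_combination A1 * nB - B1 * nA
  have r31 : V3 ^ 2 * M1 = V1 ^ 2 * M3 := by
    rw [eM1, eM3]; linear_combination A2 * nB - B2 * nA
  -- Bezout
  set δ := u1 * z1 + u2 * z2 + u3 * z3 - u4 * z4 with hδ
  have hbez : (C (δ⁻¹ * z1)) * V1 + (C (δ⁻¹ * z2)) * V2 + (C (δ⁻¹ * z3)) * V3
      + (C (-(δ⁻¹ * z4))) * V4 = 1 := by
    have e0 : (C δ⁻¹ : F[X]) * C δ = 1 := by rw [← C_mul, inv_mul_cancel₀ huz, C_1]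
    have e1 := congrArg (C : F →+* F[X]) hA3
    have e2 := congrArg (C : F →+* F[X]) hA4
    have e3 := congrArg (C : F →+* F[X]) hδ
    simp only [map_add, map_mul, map_sub, map_pow, map_zero, map_neg] at e1 e2 e3 ⊢
    rw [hV1, hV2, hV3, hV4]
    linear_combination e0 - C δ⁻¹ * e3 + C δ⁻¹ * X * e1 + C δ⁻¹ * X ^ 2 * e2
  have hsq : V4 ^ 2 = V1 ^ 2 + V2 ^ 2 + V3 ^ 2 := by
    have e0 := congrArg (C : F →+* F[X]) hA0
    have e1 := congrArg (C : F →+* F[X]) hA1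
    have e2 := congrArg (C : F →+* F[X]) hA2
    have e3 := congrArg (C : F →+* F[X]) hA3
    have e4 := congrArg (C : F →+* F[X]) hA4
    have e5 := congrArg (C : F →+* F[X]) hδ
    simp only [map_add, map_mul, map_sub, map_pow, map_zero, hC2] at e0 e1 e2 e3 e4 e5
    rw [hV1, hV2, hV3, hV4]
    linear_combination (-1 : F[X]) * e0 - 2 * X * e1 - X ^ 2 * e2 - 2 * X ^ 3 * e3 - X ^ 4 * e4
      + 2 * X ^ 2 * e5
  have hall : M1 = 0 ∧ M2 = 0 ∧ M3 = 0 := by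
    have nz : ∀ a b c : F, c ≠ 0 → (C a + C b * X + C c * X ^ 2 : F[X]) ^ 2 ≠ 0 := by
      intro a b c hc h0
      exact hc (quad_eq_zero a b c (pow_eq_zero_iff (by norm_num) |>.1 h0)).2.2
    by_cases hz1 : z1 = 0
    · by_cases hz2 : z2 = 0
      · by_cases hz3 : z3 = 0
        · exfalso
          have : z4 ^ 2 = 0 := by rw [hz1, hz2, hz3] at hA4; linear_combination (-1 : F) * hA4
          have hz4 : z4 = 0 := pow_eq_zero_iff (by norm_num) |>.1 this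
          apply huz; rw [hδ, hz1, hz2, hz3, hz4]; ring
        · have hd : V3 ^ 2 ∣ M3 := dvd_of_bezout _ _ V1 V2 V3 V4 _ _ _ _ hbez hsq
            ⟨M1, r31.symm⟩ ⟨M2, r23⟩ ⟨M3, rfl⟩
          have m3 : M3 = 0 := small_of_dvd _ _ _ _ _ _ hz3 hd
          refine ⟨?_, ?_, m3⟩
          · rw [m3, mul_zero] at r31
            exact (mul_eq_zero.1 r31).resolve_left (nz _ _ _ hz3)
          · rw [m3, mul_zero] at r23
            exact (mul_eq_zero.1 r23.symm).resolve_left (nz _ _ _ hz3)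
      · have hd : V2 ^ 2 ∣ M2 := dvd_of_bezout _ _ V1 V2 V3 V4 _ _ _ _ hbez hsq
          ⟨M1, r12⟩ ⟨M2, rfl⟩ ⟨M3, r23.symm⟩
        have m2 : M2 = 0 := small_of_dvd _ _ _ _ _ _ hz2 hd
        refine ⟨?_, m2, ?_⟩
        · rw [m2, mul_zero] at r12
          exact (mul_eq_zero.1 r12.symm).resolve_left (nz _ _ _ hz2)
        · rw [m2, mul_zero] at r23
          exact (mul_eq_zero.1 r23).resolve_left (nz _ _ _ hz2)
    · have hd : V1 ^ 2 ∣ M1 := dvd_of_bezout _ _ V1 V2 V3 V4 _ _ _ _ hbez hsq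
        ⟨M1, rfl⟩ ⟨M2, r12.symm⟩ ⟨M3, r31⟩
      have m1 : M1 = 0 := small_of_dvd _ _ _ _ _ _ hz1 hd
      refine ⟨m1, ?_, ?_⟩
      · rw [m1, mul_zero] at r12
        exact (mul_eq_zero.1 r12).resolve_left (nz _ _ _ hz1)
      · rw [m1, mul_zero] at r31
        exact (mul_eq_zero.1 r31.symm).resolve_left (nz _ _ _ hz1)
  obtain ⟨m1, m2, m3⟩ := hall
  obtain ⟨x1, y1, t1⟩ := quad_eq_zero _ _ _ m1
  obtain ⟨x2, y2, t2⟩ := quad_eq_zero _ _ _ m2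
  obtain ⟨x3, y3, t3⟩ := quad_eq_zero _ _ _ m3
  have y1' := (mul_eq_zero.1 y1).resolve_left h2
  have y2' := (mul_eq_zero.1 y2).resolve_left h2
  have y3' := (mul_eq_zero.1 y3).resolve_left h2
  have hη2 : η ^ 2 ≠ 0 := pow_ne_zero _ hη
  have hη3 : η ^ 3 ≠ 0 := pow_ne_zero _ hη
  rw [ha1, ha2, ha3, hb1, hb2, hb3, hg1, hg2, hg3] at *
  refine ⟨?_, ?_, ?_, ?_⟩
  · apply (mul_eq_zero.1 (_ : η ^ 2 * _ = 0)).resolve_left hη2
    linear_combination c1 * t1 + c2 * t2 + c3 * t3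
  · apply (mul_eq_zero.1 (_ : η ^ 2 * _ = 0)).resolve_left hη2
    linear_combination c1 * y1' + c2 * y2' + c3 * y3'
  · apply (mul_eq_zero.1 (_ : η ^ 2 * _ = 0)).resolve_left hη2
    linear_combination c1 * x1 + c2 * x2 + c3 * x3
  · apply (mul_eq_zero.1 (_ : η ^ 3 * _ = 0)).resolve_left hη3
    linear_combination (η * u1) * t1 + (η * u2) * t2 + (η * u3) * t3
      - k1 * (c1 * y1' + c2 * y2' + c3 * y3') + k2 * (c1 * x1 + c2 * x2 + c3 * x3)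

end Pool.Agent.Lib.MP_a1ab69_an
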