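import Mathlib
import Pool.Agent.Lib.MP_a1ab69_an.Conic

set_option autoImplicit false
set_option linter.unusedSimpArgs false

namespace Pool.Agent.Lib.MP_a1ab69_an

open Polynomial

variable {F : Type} [Field F]

/-- leading form (divided by 27) of the resultant `RR` -/
def rho (e0 e1 e2 η v0 v1 v2 : F) : F :=
  (e0 * v0 ^ 2 + e1 * v1 ^ 2 + e2 * v2 ^ 2) ^ 3 - η ^ 3 * (v0 ^ 3 + v1 ^ 3 + v2 ^ 3) ^ 2

/-- the resultant eliminating the last coordinate -/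
def RR (e0 e1 e2 η a b c : F) : F :=
  ((a ^ 3 + b ^ 3 + c ^ 3) - ((a - e0) ^ 3 + (b - e1) ^ 3 + (c - e2) ^ 3) - η ^ 3) ^ 3
    - 27 * η ^ 3 * (a ^ 3 + b ^ 3 + c ^ 3) * ((a - e0) ^ 3 + (b - e1) ^ 3 + (c - e2) ^ 3)

def V0 (e1 e2 e3 i t : F) : F := -(e3 + e2) + (2 * i * e1) * t + (e3 - e2) * t ^ 2
def V1 (e0 e2 e3 i t : F) : F := i * (e3 + e2) + (-2 * i * e0) * t + (i * (e3 - e2)) * t ^ 2
def V2 (e0 e1 e3 i t : F) : F := (e0 - i * e1) + (-2 * e3) * t + (e0 + i * e1) * t ^ 2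
def V3 (e0 e1 e2 i t : F) : F := -(e0 - i * e1) + (-2 * e2) * t + (e0 + i * e1) * t ^ 2

theorem RR_eq_zero (e0 e1 e2 η a b c y : F) (h1 : a ^ 3 + b ^ 3 + c ^ 3 = y ^ 3)
    (h2 : (a - e0) ^ 3 + (b - e1) ^ 3 + (c - e2) ^ 3 = (y - η) ^ 3) :
    RR e0 e1 e2 η a b c = 0 := by
  unfold RR
  rw [h1, h2]
  ring

theorem card_sextic [Fintype F] [DecidableEq F] (c0 c1 c2 c3 c4 c5 c6 : F) (h6 : c6 ≠ 0) :
    (Finset.univ.filter (fun s : F =>
      c0 + c1 * s + c2 * s ^ 2 + c3 * s ^ 3 + c4 * s ^ 4 + c5 * s ^ 5 + c6 * s ^ 6 = 0)).card ≤ 6 := by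
  have hp : (C c0 + C c1 * X + C c2 * X ^ 2 + C c3 * X ^ 3 + C c4 * X ^ 4 + C c5 * X ^ 5
      + C c6 * X ^ 6 : F[X]) ≠ 0 := by
    intro hp
    have h := congrArg (fun p => p.coeff 6) hp
    simp [coeff_X, coeff_C, coeff_X_pow] at h
    exact h6 h
  have := card_roots_le (C c0 + C c1 * X + C c2 * X ^ 2 + C c3 * X ^ 3 + C c4 * X ^ 4 + C c5 * X ^ 5
      + C c6 * X ^ 6 : F[X]) 6 (by compute_degree) hp
  simpa using this

theorem card_line_aux [Fintype F] [DecidableEq F] (d0 d1 d2 f0 f1 f2 f3 g0 g1 g2 g3 κ : F)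
    (h : d2 ^ 3 - κ * f3 * g3 ≠ 0) :
    (Finset.univ.filter (fun s : F => (d0 + d1 * s + d2 * s ^ 2) ^ 3
      - κ * (f0 + f1 * s + f2 * s ^ 2 + f3 * s ^ 3) * (g0 + g1 * s + g2 * s ^ 2 + g3 * s ^ 3) = 0)).card
      ≤ 6 := by
  have := card_sextic (d0 ^ 3 - κ * (f0 * g0)) (3 * d0 ^ 2 * d1 - κ * (f0 * g1 + f1 * g0))
    (3 * d0 ^ 2 * d2 + 3 * d0 * d1 ^ 2 - κ * (f0 * g2 + f1 * g1 + f2 * g0))
    (6 * d0 * d1 * d2 + d1 ^ 3 - κ * (f0 * g3 + f1 * g2 + f2 * g1 + f3 * g0))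
    (3 * d0 * d2 ^ 2 + 3 * d1 ^ 2 * d2 - κ * (f1 * g3 + f2 * g2 + f3 * g1))
    (3 * d1 * d2 ^ 2 - κ * (f2 * g3 + f3 * g2)) (d2 ^ 3 - κ * f3 * g3) h
  refine le_trans (Finset.card_le_card ?_) this
  intro s hs
  simp only [Finset.mem_filter, Finset.mem_univ, true_and] at hs ⊢
  linear_combination hs

theorem card_RR_line [Fintype F] [DecidableEq F] (h3 : (3 : F) ≠ 0) (e0 e1 e2 η y0 y1 y2 v0 v1 v2 : F)
    (h : rho e0 e1 e2 η v0 v1 v2 ≠ 0) :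
    (Finset.univ.filter (fun s : F =>
      RR e0 e1 e2 η (y0 + s * v0) (y1 + s * v1) (y2 + s * v2) = 0)).card ≤ 6 := by
  have h27 : (27 : F) ≠ 0 := by
    have : (27 : F) = 3 ^ 3 := by norm_num
    rw [this]; exact pow_ne_zero _ h3
  have := card_line_aux
    ((y0 ^ 3 + y1 ^ 3 + y2 ^ 3) - ((y0 - e0) ^ 3 + (y1 - e1) ^ 3 + (y2 - e2) ^ 3) - η ^ 3)
    (3 * (y0 ^ 2 * v0 + y1 ^ 2 * v1 + y2 ^ 2 * v2)
      - 3 * ((y0 - e0) ^ 2 * v0 + (y1 - e1) ^ 2 * v1 + (y2 - e2) ^ 2 * v2))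
    (3 * (e0 * v0 ^ 2 + e1 * v1 ^ 2 + e2 * v2 ^ 2))
    (y0 ^ 3 + y1 ^ 3 + y2 ^ 3) (3 * (y0 ^ 2 * v0 + y1 ^ 2 * v1 + y2 ^ 2 * v2))
    (3 * (y0 * v0 ^ 2 + y1 * v1 ^ 2 + y2 * v2 ^ 2)) (v0 ^ 3 + v1 ^ 3 + v2 ^ 3)
    ((y0 - e0) ^ 3 + (y1 - e1) ^ 3 + (y2 - e2) ^ 3)
    (3 * ((y0 - e0) ^ 2 * v0 + (y1 - e1) ^ 2 * v1 + (y2 - e2) ^ 2 * v2))
    (3 * ((y0 - e0) * v0 ^ 2 + (y1 - e1) * v1 ^ 2 + (y2 - e2) * v2 ^ 2))
    (v0 ^ 3 + v1 ^ 3 + v2 ^ 3) (27 * η ^ 3)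
    (by
      intro h0
      apply mul_ne_zero h27 h
      unfold rho
      generalize e0 * v0 ^ 2 + e1 * v1 ^ 2 + e2 * v2 ^ 2 = a at h0 ⊢
      generalize v0 ^ 3 + v1 ^ 3 + v2 ^ 3 = b at h0 ⊢
      linear_combination h0)
  refine le_trans (Finset.card_le_card ?_) this
  intro s hs
  simp only [Finset.mem_filter, Finset.mem_univ, true_and, RR] at hs ⊢
  rw [← hs]
  congr 1
  · congr 1
    ring
  · congr 1
    · congr 1
      ring
    · ring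

theorem eta_zero (h2 : (2 : F) ≠ 0) (e0 e1 e2 e3 i : F) (hi : i ^ 2 = -1)
    (hD : e0 ^ 2 + e1 ^ 2 + e2 ^ 2 - e3 ^ 2 ≠ 0)
    (c0 : (e0 - e1) * (e3 + e2) ^ 2 + e2 * (e0 - i * e1) ^ 2 = 0)
    (c1 : (1 - i) * e0 * e1 * (e3 + e2) - e2 * e3 * (e0 - i * e1) = 0)
    (c2 : 2 * (-e0 * e1 ^ 2 - e1 * e0 ^ 2 + e2 * e3 ^ 2)
      + (-(e0 + e1) * (e3 - e2) * (e3 + e2) + e2 * (e0 + i * e1) * (e0 - i * e1)) = 0)
    (c3 : (1 + i) * e0 * e1 * (e3 - e2) - e2 * e3 * (e0 + i * e1) = 0)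
    (c4 : (e0 - e1) * (e3 - e2) ^ 2 + e2 * (e0 + i * e1) ^ 2 = 0) :
    (e1 = 0 ∧ e2 = 0 ∧ e3 = 0) ∨ (e0 = 0 ∧ e2 = 0 ∧ e3 = 0) ∨ (e0 = 0 ∧ e1 = 0 ∧ e3 = 0) ∨
    (e0 = 0 ∧ e1 = 0 ∧ e2 = 0) ∨ (e1 = -e0 ∧ e2 = 0 ∧ e3 = 0) ∨ (e1 = 0 ∧ e2 = -e0 ∧ e3 = 0) ∨
    (e0 = 0 ∧ e2 = -e1 ∧ e3 = 0) := by
  have hi0 : i ≠ 0 := by
    intro h; rw [h] at hi; apply h2; linear_combination 2 * hi
  have hi1 : 1 - i ≠ 0 := by
    intro h; apply h2; linear_combination (1 + i) * h + hi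
  by_cases hP : e0 - e1 = 0 ∧ e2 = 0
  · obtain ⟨p1, p2⟩ := hP
    have p1' : e1 = e0 := by linear_combination (-1 : F) * p1
    subst p1' p2
    have : (1 - i) * (e1 ^ 2 * e3) = 0 := by linear_combination c1
    have := (mul_eq_zero.1 this).resolve_left hi1
    have he1 : e1 = 0 := by
      rcases mul_eq_zero.1 this with h | h
      · exact pow_eq_zero_iff (by norm_num) |>.1 h
      · subst h
        have : (2 * 2) * e1 ^ 3 = 0 := by linear_combination (-1 : F) * c2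
        have := (mul_eq_zero.1 this).resolve_left (mul_ne_zero h2 h2)
        exact pow_eq_zero_iff (by norm_num) |>.1 this
    simp [he1]
  by_cases hQ : e0 * e1 = 0 ∧ e2 * e3 = 0
  · obtain ⟨q1, q2⟩ := hQ
    rcases mul_eq_zero.1 q1 with a | a <;> rcases mul_eq_zero.1 q2 with b | b
    · subst a b
      have : e1 * e3 ^ 2 = 0 := by linear_combination (-1 : F) * c0
      rcases mul_eq_zero.1 this with h | h
      · simp [h]
      · have : e3 = 0 := pow_eq_zero_iff (by norm_num) |>.1 h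
        simp [this]
    · subst a b
      have : e1 * e2 * (e2 + e1) = 0 := by linear_combination (-1 : F) * c0 + e2 * e1 ^ 2 * hi
      rcases mul_eq_zero.1 this with h | h
      · rcases mul_eq_zero.1 h with h | h
        · simp [h]
        · simp [h]
      · have : e2 = -e1 := by linear_combination h
        simp [this]
    · subst a b
      have : e0 * e3 ^ 2 = 0 := by linear_combination c0
      rcases mul_eq_zero.1 this with h | h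
      · simp [h]
      · have : e3 = 0 := pow_eq_zero_iff (by norm_num) |>.1 h
        simp [this]
    · subst a b
      have : e0 * e2 * (e2 + e0) = 0 := by linear_combination c0
      rcases mul_eq_zero.1 this with h | h
      · rcases mul_eq_zero.1 h with h | h
        · simp [h]
        · simp [h]
      · have : e2 = -e0 := by linear_combination h
        simp [this]
  have k1 : ((e0 + i * e1) * (e3 + e2)) ^ 2 - ((e3 - e2) * (e0 - i * e1)) ^ 2 = 0 := by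
    by_contra hk
    apply hP
    constructor
    · apply (mul_eq_zero.1 (_ : _ * (e0 - e1) = 0)).resolve_left hk
      linear_combination (e0 + i * e1) ^ 2 * c0 - (e0 - i * e1) ^ 2 * c4
    · apply (mul_eq_zero.1 (_ : _ * e2 = 0)).resolve_left hk
      linear_combination (e3 + e2) ^ 2 * c4 - (e3 - e2) ^ 2 * c0
  have k2 : (1 - i) * ((e0 + i * e1) * (e3 + e2)) - (1 + i) * ((e3 - e2) * (e0 - i * e1)) = 0 := by
    by_contra hk
    apply hQ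
    constructor
    · apply (mul_eq_zero.1 (_ : _ * (e0 * e1) = 0)).resolve_left hk
      linear_combination (e0 + i * e1) * c1 - (e0 - i * e1) * c3
    · apply (mul_eq_zero.1 (_ : _ * (e2 * e3) = 0)).resolve_left hk
      linear_combination (1 + i) * (e3 - e2) * c1 - (1 - i) * (e3 + e2) * c3
  have hD' : (e0 + i * e1) * (e0 - i * e1) - (e3 - e2) * (e3 + e2) ≠ 0 := by
    intro h; apply hD; linear_combination h + e1 ^ 2 * hi
  generalize hX : (e0 + i * e1) * (e3 + e2) = x at k1 k2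
  generalize hY : (e3 - e2) * (e0 - i * e1) = y at k1 k2
  have hx : x = 0 := by
    have : (2 * 2 * i) * x ^ 2 = 0 := by
      linear_combination (-((1 - i) * x + (1 + i) * y)) * k2 + (1 + i) ^ 2 * k1
    have := (mul_eq_zero.1 this).resolve_left (mul_ne_zero (mul_ne_zero h2 h2) hi0)
    exact pow_eq_zero_iff (by norm_num) |>.1 this
  have hy : y = 0 := by
    have : y ^ 2 = 0 := by rw [hx] at k1; linear_combination (-1 : F) * k1
    exact pow_eq_zero_iff (by norm_num) |>.1 this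
  rw [hx] at hX
  rw [hy] at hY
  rcases mul_eq_zero.1 hX with a | a <;> rcases mul_eq_zero.1 hY with b | b
  · exfalso; apply hD'; rw [a, b]; ring
  · exfalso
    have z0 : e0 = 0 := by
      apply (mul_eq_zero.1 (_ : 2 * e0 = 0)).resolve_left h2
      linear_combination a + b
    have z1 : e1 = 0 := by
      apply (mul_eq_zero.1 (_ : (2 * i) * e1 = 0)).resolve_left (mul_ne_zero h2 hi0)
      linear_combination a - b
    subst z0 z1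
    have : 2 * (e2 * e3 * e3) = 0 := by linear_combination c2
    have := (mul_eq_zero.1 this).resolve_left h2
    apply hQ
    refine ⟨by simp, ?_⟩
    rcases mul_eq_zero.1 this with h | h
    · exact h
    · simp [h]
  · have z2 : e2 = 0 := by
      apply (mul_eq_zero.1 (_ : 2 * e2 = 0)).resolve_left h2
      linear_combination a - b
    have z3 : e3 = 0 := by
      apply (mul_eq_zero.1 (_ : 2 * e3 = 0)).resolve_left h2
      linear_combination a + b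
    subst z2 z3
    have : 2 * ((e0 * e1) * (e0 + e1)) = 0 := by linear_combination (-1 : F) * c2
    have := (mul_eq_zero.1 this).resolve_left h2
    rcases mul_eq_zero.1 this with h | h
    · exact absurd ⟨h, by simp⟩ hQ
    · have : e1 = -e0 := by linear_combination h
      simp [this]
  · exfalso; apply hD'; rw [a, b]; ring

theorem nonsing_top [Fintype F] (hq : 12 < Fintype.card F) (h2 : (2 : F) ≠ 0) (h3 : (3 : F) ≠ 0)
    (e0 e1 e2 e3 η i : F) (hi : i ^ 2 = -1) (hD : e0 ^ 2 + e1 ^ 2 + e2 ^ 2 - e3 ^ 2 ≠ 0)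
    (h : ∀ t : F, rho e0 e1 e2 η (V0 e1 e2 e3 i t) (V1 e0 e2 e3 i t) (V2 e0 e1 e3 i t) = 0) :
    η = 0 ∧ ((e1 = 0 ∧ e2 = 0 ∧ e3 = 0) ∨ (e0 = 0 ∧ e2 = 0 ∧ e3 = 0) ∨ (e0 = 0 ∧ e1 = 0 ∧ e3 = 0) ∨
    (e0 = 0 ∧ e1 = 0 ∧ e2 = 0) ∨ (e1 = -e0 ∧ e2 = 0 ∧ e3 = 0) ∨ (e1 = 0 ∧ e2 = -e0 ∧ e3 = 0) ∨
    (e0 = 0 ∧ e2 = -e1 ∧ e3 = 0)) := by
  have hi0 : i ≠ 0 := by
    intro h; rw [h] at hi; apply h2; linear_combination 2 * hi
  have h4 : (4 : F) ≠ 0 := by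
    have : (4 : F) = 2 * 2 := by norm_num
    rw [this]; exact mul_ne_zero h2 h2
  have hη : η = 0 := by
    by_contra hη
    obtain ⟨d1, d2, d3, d4⟩ := conic_top hq h2 h3
      (-(e3 + e2)) (i * (e3 + e2)) (e0 - i * e1) (-(e0 - i * e1))
      (2 * i * e1) (-2 * i * e0) (-2 * e3) (-2 * e2)
      (e3 - e2) (i * (e3 - e2)) (e0 + i * e1) (e0 + i * e1) e0 e1 e2 η hη
      (by linear_combination (2 * e2 * e3 + e2 ^ 2 + e3 ^ 2) * hi)
      (by linear_combination (-2 * e0 * e2 - 2 * e0 * e3) * hi)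
      (by linear_combination (4 * e0 ^ 2 - 2 * e2 ^ 2 + 2 * e3 ^ 2) * hi)
      (by linear_combination (2 * e0 * e2 - 2 * e0 * e3) * hi)
      (by linear_combination (-2 * e2 * e3 + e2 ^ 2 + e3 ^ 2) * hi)
      (by
        intro h0
        apply mul_ne_zero h2 hD
        linear_combination h0 - (-2 * e1 ^ 2 - e2 ^ 2 + e3 ^ 2) * hi)
      (fun t => by
        have := h t
        unfold rho V0 V1 V2 at this
        exact sub_eq_zero.1 this)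
    apply mul_ne_zero (mul_ne_zero h4 hi0) (pow_ne_zero 2 hD)
    linear_combination (-(e0 - i * e1)) * d1 - (-2 * e2) * d2 + (e0 + i * e1) * d3 - e3 * d4
      + (4 * e0 ^ 2 * e1 ^ 2 * i + 4 * e1 ^ 2 * e2 ^ 2 * i - 4 * e1 ^ 2 * e3 ^ 2 * i
        + 4 * e1 ^ 4 * i) * hi
  refine ⟨hη, ?_⟩
  subst hη
  obtain ⟨c0, c1, c2, c3, c4, -, -⟩ := coeffs6 (by omega : 6 < Fintype.card F)
    ((e0 - e1) * (e3 + e2) ^ 2 + e2 * (e0 - i * e1) ^ 2)
    (4 * ((1 - i) * e0 * e1 * (e3 + e2) - e2 * e3 * (e0 - i * e1)))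
    (2 * (2 * (-e0 * e1 ^ 2 - e1 * e0 ^ 2 + e2 * e3 ^ 2)
      + (-(e0 + e1) * (e3 - e2) * (e3 + e2) + e2 * (e0 + i * e1) * (e0 - i * e1))))
    (4 * ((1 + i) * e0 * e1 * (e3 - e2) - e2 * e3 * (e0 + i * e1)))
    ((e0 - e1) * (e3 - e2) ^ 2 + e2 * (e0 + i * e1) ^ 2) 0 0
    (fun t => by
      have h1 := h t
      unfold rho at h1
      have h5 : (e0 * (V0 e1 e2 e3 i t) ^ 2 + e1 * (V1 e0 e2 e3 i t) ^ 2
          + e2 * (V2 e0 e1 e3 i t) ^ 2) ^ 3 = 0 := by simpa using h1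
      have h6 := pow_eq_zero_iff (by norm_num) |>.1 h5
      unfold V0 V1 V2 at h6
      linear_combination h6 - (-4 * e0 * e1 * e2 * t + 4 * e0 * e1 * e2 * t ^ 3
        - 4 * e0 * e1 * e3 * t - 4 * e0 * e1 * e3 * t ^ 3 + 4 * e0 * e1 ^ 2 * t ^ 2
        + 4 * e0 ^ 2 * e1 * t ^ 2 + 2 * e1 * e2 * e3 - 2 * e1 * e2 * e3 * t ^ 4 + e1 * e2 ^ 2
        - 2 * e1 * e2 ^ 2 * t ^ 2 + e1 * e2 ^ 2 * t ^ 4 + e1 * e3 ^ 2 + 2 * e1 * e3 ^ 2 * t ^ 2
        + e1 * e3 ^ 2 * t ^ 4) * hi)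
  exact eta_zero h2 e0 e1 e2 e3 i hi hD c0 ((mul_eq_zero.1 c1).resolve_left h4)
    ((mul_eq_zero.1 c2).resolve_left h2) ((mul_eq_zero.1 c3).resolve_left h4) c4

theorem card_rho_aux [Fintype F] [DecidableEq F] (e0 e1 e2 η u0 u1 u2 w0 w1 w2 z0 z1 z2 t0 : F)
    (h : rho e0 e1 e2 η (u0 + w0 * t0 + z0 * t0 ^ 2) (u1 + w1 * t0 + z1 * t0 ^ 2)
      (u2 + w2 * t0 + z2 * t0 ^ 2) ≠ 0) :
    (Finset.univ.filter (fun t : F =>
      rho e0 e1 e2 η (u0 + w0 * t + z0 * t ^ 2) (u1 + w1 * t + z1 * t ^ 2)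
      (u2 + w2 * t + z2 * t ^ 2) = 0)).card ≤ 12 := by
  obtain ⟨P, hP⟩ : ∃ P : F[X], P = (C e0 * (C u0 + C w0 * X + C z0 * X ^ 2) ^ 2
    + C e1 * (C u1 + C w1 * X + C z1 * X ^ 2) ^ 2 + C e2 * (C u2 + C w2 * X + C z2 * X ^ 2) ^ 2) ^ 3
    - C η ^ 3 * ((C u0 + C w0 * X + C z0 * X ^ 2) ^ 3 + (C u1 + C w1 * X + C z1 * X ^ 2) ^ 3
      + (C u2 + C w2 * X + C z2 * X ^ 2) ^ 3) ^ 2 := ⟨_, rfl⟩
  have hev : ∀ t : F, P.eval t
      = rho e0 e1 e2 η (u0 + w0 * t + z0 * t ^ 2) (u1 + w1 * t + z1 * t ^ 2)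
      (u2 + w2 * t + z2 * t ^ 2) := by
    intro t
    simp only [hP, eval_sub, eval_add, eval_mul, eval_pow, eval_C, eval_X, rho]
  have hdeg : P.natDegree ≤ 12 := by
    rw [hP]; compute_degree
  have hne : P ≠ 0 := by
    intro h0
    apply h
    rw [← hev, h0, eval_zero]
  have := card_roots_le P 12 hdeg hne
  simpa only [hev] using this

theorem card_rho_le [Fintype F] [DecidableEq F] (e0 e1 e2 e3 η i t0 : F)
    (h : rho e0 e1 e2 η (V0 e1 e2 e3 i t0) (V1 e0 e2 e3 i t0) (V2 e0 e1 e3 i t0) ≠ 0) :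
    (Finset.univ.filter (fun t : F =>
      rho e0 e1 e2 η (V0 e1 e2 e3 i t) (V1 e0 e2 e3 i t) (V2 e0 e1 e3 i t) = 0)).card ≤ 12 :=
  card_rho_aux e0 e1 e2 η _ _ _ _ _ _ _ _ _ t0 h

end Pool.Agent.Lib.MP_a1ab69_an
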