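import Mathlib
import Pool.Agent.Lib.MP_a1ab69_an.Top

set_option autoImplicit false
set_option linter.unusedSimpArgs false

namespace Pool.Agent.Lib.MP_a1ab69_an

open Polynomial Finset

variable {F : Type} [Field F] [Fintype F] [DecidableEq F]

/-- the variety for `d = 5`, `k = 3` -/
def HH (F : Type) [Field F] [Fintype F] [DecidableEq F] : Finset (Fin 5 → F) :=
  univ.filter (fun x => x 0 ^ 2 + x 1 ^ 2 + x 2 ^ 2 = x 3 ^ 2 ∧ x 0 ^ 3 + x 1 ^ 3 + x 2 ^ 3 = x 4 ^ 3)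

/-- intersection of the variety with a translate -/
def II (e : Fin 5 → F) : Finset (Fin 5 → F) := (HH F).filter (fun x => x - e ∈ HH F)

theorem mem_II (e x : Fin 5 → F) : x ∈ II e ↔
    (x 0 ^ 2 + x 1 ^ 2 + x 2 ^ 2 = x 3 ^ 2 ∧ x 0 ^ 3 + x 1 ^ 3 + x 2 ^ 3 = x 4 ^ 3) ∧
    ((x 0 - e 0) ^ 2 + (x 1 - e 1) ^ 2 + (x 2 - e 2) ^ 2 = (x 3 - e 3) ^ 2 ∧
      (x 0 - e 0) ^ 3 + (x 1 - e 1) ^ 3 + (x 2 - e 2) ^ 3 = (x 4 - e 4) ^ 3) := by
  simp [II, HH]

theorem card_pow_le (n : ℕ) (hn : 0 < n) (c : F) :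
    (univ.filter (fun y : F => y ^ n = c)).card ≤ n := by
  have hp : (X ^ n - C c : F[X]) ≠ 0 := X_pow_sub_C_ne_zero hn c
  have := card_roots_le (X ^ n - C c : F[X]) n (by rw [natDegree_X_pow_sub_C]) hp
  simpa [sub_eq_zero] using this

theorem line_bound (e : Fin 5 → F) (y0 y1 y2 y3 v0 v1 v2 v3 : F) (T : Finset (Fin 5 → F))
    (hT : ∀ x ∈ T, x ∈ II e ∧ ∃ s, x 0 = y0 + s * v0 ∧ x 1 = y1 + s * v1 ∧ x 2 = y2 + s * v2 ∧
      x 3 = y3 + s * v3) (Z : Finset F)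
    (hZ : ∀ s, RR (e 0) (e 1) (e 2) (e 4) (y0 + s * v0) (y1 + s * v1) (y2 + s * v2) = 0 → s ∈ Z) :
    T.card ≤ Z.card * 3 := by
  have hsub : T ⊆ Z.biUnion (fun s => (univ.filter (fun y : F =>
      y ^ 3 = (y0 + s * v0) ^ 3 + (y1 + s * v1) ^ 3 + (y2 + s * v2) ^ 3)).image
      (fun y => ![y0 + s * v0, y1 + s * v1, y2 + s * v2, y3 + s * v3, y])) := by
    intro x hx
    obtain ⟨hI, s, h0, h1, h2, h3⟩ := hT x hx
    rw [mem_II] at hI
    rw [mem_biUnion]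
    refine ⟨s, hZ s ?_, ?_⟩
    · rw [← h0, ← h1, ← h2]
      exact RR_eq_zero _ _ _ _ _ _ _ (x 4) hI.1.2 hI.2.2
    · rw [mem_image]
      refine ⟨x 4, ?_, ?_⟩
      · simp only [mem_filter, mem_univ, true_and]
        rw [← h0, ← h1, ← h2]; exact hI.1.2.symm
      · funext j
        fin_cases j <;> simp [h0, h1, h2, h3]
  refine le_trans (card_le_card hsub) (card_biUnion_le_card_mul _ _ _ ?_)
  intro s _
  exact le_trans card_image_le (card_pow_le 3 (by norm_num) _)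

theorem line_bound_good (h3 : (3 : F) ≠ 0) (e : Fin 5 → F) (y0 y1 y2 y3 v0 v1 v2 v3 : F)
    (T : Finset (Fin 5 → F))
    (hT : ∀ x ∈ T, x ∈ II e ∧ ∃ s, x 0 = y0 + s * v0 ∧ x 1 = y1 + s * v1 ∧ x 2 = y2 + s * v2 ∧
      x 3 = y3 + s * v3) (hρ : rho (e 0) (e 1) (e 2) (e 4) v0 v1 v2 ≠ 0) :
    T.card ≤ 18 := by
  have h := line_bound e y0 y1 y2 y3 v0 v1 v2 v3 T hT (univ.filter (fun s : F =>
      RR (e 0) (e 1) (e 2) (e 4) (y0 + s * v0) (y1 + s * v1) (y2 + s * v2) = 0))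
      (fun s hs => by simpa using hs)
  have := card_RR_line h3 (e 0) (e 1) (e 2) (e 4) y0 y1 y2 v0 v1 v2 hρ
  omega

theorem line_bound_any (e : Fin 5 → F) (y0 y1 y2 y3 v0 v1 v2 v3 : F)
    (T : Finset (Fin 5 → F))
    (hT : ∀ x ∈ T, x ∈ II e ∧ ∃ s, x 0 = y0 + s * v0 ∧ x 1 = y1 + s * v1 ∧ x 2 = y2 + s * v2 ∧
      x 3 = y3 + s * v3) :
    T.card ≤ Fintype.card F * 3 :=
  line_bound e y0 y1 y2 y3 v0 v1 v2 v3 T hT univ (fun s _ => mem_univ s)

omit [Fintype F] [DecidableEq F] in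
theorem exists_param (h2 : (2 : F) ≠ 0) (α β a b : F) (h : α ≠ 0 ∨ β ≠ 0)
    (hab : α * a + β * b = 0) : ∃ s, a = 2 * s * β ∧ b = -2 * s * α := by
  rcases h with h | h
  · refine ⟨-b / (2 * α), ?_, ?_⟩
    · field_simp
      linear_combination hab
    · field_simp
  · refine ⟨a / (2 * β), ?_, ?_⟩
    · field_simp
    · field_simp
      linear_combination hab

/-- points on the plane of the first ruling with slope `t` -/
def TT (e : Fin 5 → F) (i t : F) : Finset (Fin 5 → F) :=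
  (II e).filter (fun x => x 3 + x 2 = t * (x 0 + i * x 1) ∧ x 0 - i * x 1 = t * (x 3 - x 2))

def TI (e : Fin 5 → F) (i : F) : Finset (Fin 5 → F) :=
  (II e).filter (fun x => x 0 + i * x 1 = 0 ∧ x 3 - x 2 = 0)

theorem cover (e : Fin 5 → F) (i : F) (hi : i ^ 2 = -1) :
    II e ⊆ TI e i ∪ univ.biUnion (fun t => TT e i t) := by
  intro x hx
  have hx' := ((mem_II e x).1 hx).1.1
  have hdet : (x 0 + i * x 1) * (x 0 - i * x 1) = (x 3 - x 2) * (x 3 + x 2) := by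
    linear_combination hx' - (x 1) ^ 2 * hi
  rw [mem_union, mem_biUnion]
  by_cases hA : x 0 + i * x 1 = 0
  · by_cases hB : x 3 - x 2 = 0
    · left; exact mem_filter.2 ⟨hx, hA, hB⟩
    · right
      refine ⟨(x 0 - i * x 1) / (x 3 - x 2), mem_univ _, mem_filter.2 ⟨hx, ?_, ?_⟩⟩
      · rw [hA, zero_mul] at hdet
        rw [hA, mul_zero]
        exact (mul_eq_zero.1 hdet.symm).resolve_left hB
      · field_simp
  · right
    refine ⟨(x 3 + x 2) / (x 0 + i * x 1), mem_univ _, mem_filter.2 ⟨hx, ?_, ?_⟩⟩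
    · field_simp
    · field_simp
      linear_combination hdet

theorem TT_line (h2 : (2 : F) ≠ 0) (e : Fin 5 → F) (i t : F) (hi : i ^ 2 = -1)
    (hD : e 0 ^ 2 + e 1 ^ 2 + e 2 ^ 2 - e 3 ^ 2 ≠ 0) (y : Fin 5 → F) (hy : y ∈ TT e i t) :
    ∀ x ∈ TT e i t, x ∈ II e ∧ ∃ s, x 0 = y 0 + s * V0 (e 1) (e 2) (e 3) i t ∧
      x 1 = y 1 + s * V1 (e 0) (e 2) (e 3) i t ∧ x 2 = y 2 + s * V2 (e 0) (e 1) (e 3) i t ∧
      x 3 = y 3 + s * V3 (e 0) (e 1) (e 2) i t := by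
  intro x hx
  obtain ⟨hx, xC, xD⟩ := mem_filter.1 hx
  obtain ⟨hy, yC, yD⟩ := mem_filter.1 hy
  refine ⟨hx, ?_⟩
  obtain ⟨⟨x1, -⟩, ⟨x2, -⟩⟩ := (mem_II e x).1 hx
  obtain ⟨⟨y1, -⟩, ⟨y2, -⟩⟩ := (mem_II e y).1 hy
  have hi0 : i ≠ 0 := by
    intro h; rw [h] at hi; apply h2; linear_combination 2 * hi
  have hne : ((e 0 - i * e 1) - t * (e 3 - e 2)) ≠ 0 ∨ (t * (e 0 + i * e 1) - (e 3 + e 2)) ≠ 0 := by
    by_contra hcon
    push Not at hcon
    apply hD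
    linear_combination (e 0 + i * e 1) * hcon.1 + (e 3 - e 2) * hcon.2 + (e 1) ^ 2 * hi
  obtain ⟨s, hA, hB⟩ := exists_param h2 _ _ ((x 0 + i * x 1) - (y 0 + i * y 1))
    ((x 3 - x 2) - (y 3 - y 2)) hne (by
      linear_combination (x1 - x2) - (y1 - y2) - (e 0 + i * e 1) * (xD - yD)
        + (e 3 - e 2) * (xC - yC) - 2 * e 1 * (x 1 - y 1) * hi)
  refine ⟨s, ?_, ?_, ?_, ?_⟩
  · apply mul_left_cancel₀ h2
    unfold V0
    linear_combination hA + (xD - yD) + t * hB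
  · apply mul_left_cancel₀ (mul_ne_zero h2 hi0)
    unfold V1
    linear_combination hA - (xD - yD) - t * hB
      - 2 * s * ((e 3 + e 2) - 2 * e 0 * t + (e 3 - e 2) * t ^ 2) * hi
  · apply mul_left_cancel₀ h2
    unfold V2
    linear_combination (xC - yC) + t * hA - hB
  · apply mul_left_cancel₀ h2
    unfold V3
    linear_combination (xC - yC) + t * hA + hB

theorem TI_card (h2 : (2 : F) ≠ 0) (e : Fin 5 → F) (i : F) (hi : i ^ 2 = -1)
    (hD : e 0 ^ 2 + e 1 ^ 2 + e 2 ^ 2 - e 3 ^ 2 ≠ 0) : (TI e i).card ≤ Fintype.card F * 3 := by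
  rcases (TI e i).eq_empty_or_nonempty with h | ⟨y, hy⟩
  · simp [h]
  apply line_bound_any e (y 0) (y 1) (y 2) (y 3) (e 3 - e 2) (i * (e 3 - e 2)) (e 0 + i * e 1)
    (e 0 + i * e 1)
  intro x hx
  obtain ⟨hx, xA, xB⟩ := mem_filter.1 hx
  obtain ⟨hy, yA, yB⟩ := mem_filter.1 hy
  refine ⟨hx, ?_⟩
  obtain ⟨⟨x1, -⟩, ⟨x2, -⟩⟩ := (mem_II e x).1 hx
  obtain ⟨⟨y1, -⟩, ⟨y2, -⟩⟩ := (mem_II e y).1 hy
  have hi0 : i ≠ 0 := by
    intro h; rw [h] at hi; apply h2; linear_combination 2 * hi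
  have hne : (-(e 3 - e 2)) ≠ 0 ∨ (e 0 + i * e 1) ≠ 0 := by
    by_contra hcon
    push Not at hcon
    apply hD
    linear_combination (e 0 - i * e 1) * hcon.2 + (e 3 + e 2) * hcon.1 + (e 1) ^ 2 * hi
  obtain ⟨s, hC, hD'⟩ := exists_param h2 _ _ ((x 3 + x 2) - (y 3 + y 2))
    ((x 0 - i * x 1) - (y 0 - i * y 1)) hne (by
      linear_combination (x1 - x2) - (y1 - y2) - (e 0 - i * e 1) * (xA - yA)
        + (e 3 + e 2) * (xB - yB) - 2 * e 1 * (x 1 - y 1) * hi)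
  refine ⟨s, ?_, ?_, ?_, ?_⟩
  · apply mul_left_cancel₀ h2
    linear_combination hD' + (xA - yA)
  · apply mul_left_cancel₀ (mul_ne_zero h2 hi0)
    linear_combination (xA - yA) - hD' - 2 * s * (e 3 - e 2) * hi
  · apply mul_left_cancel₀ h2
    linear_combination hC - (xB - yB)
  · apply mul_left_cancel₀ h2
    linear_combination hC + (xB - yB)

theorem TT_card_any (h2 : (2 : F) ≠ 0) (e : Fin 5 → F) (i t : F) (hi : i ^ 2 = -1)
    (hD : e 0 ^ 2 + e 1 ^ 2 + e 2 ^ 2 - e 3 ^ 2 ≠ 0) : (TT e i t).card ≤ Fintype.card F * 3 := by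
  rcases (TT e i t).eq_empty_or_nonempty with h | ⟨y, hy⟩
  · simp [h]
  exact line_bound_any e _ _ _ _ _ _ _ _ _ (TT_line h2 e i t hi hD y hy)

theorem TT_card_good (h2 : (2 : F) ≠ 0) (h3 : (3 : F) ≠ 0) (e : Fin 5 → F) (i t : F)
    (hi : i ^ 2 = -1) (hD : e 0 ^ 2 + e 1 ^ 2 + e 2 ^ 2 - e 3 ^ 2 ≠ 0)
    (hρ : rho (e 0) (e 1) (e 2) (e 4) (V0 (e 1) (e 2) (e 3) i t) (V1 (e 0) (e 2) (e 3) i t)
      (V2 (e 0) (e 1) (e 3) i t) ≠ 0) : (TT e i t).card ≤ 18 := by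
  rcases (TT e i t).eq_empty_or_nonempty with h | ⟨y, hy⟩
  · simp [h]
  exact line_bound_good h3 e _ _ _ _ _ _ _ _ _ (TT_line h2 e i t hi hD y hy) hρ

theorem nonsing_any (h2 : (2 : F) ≠ 0) (e : Fin 5 → F) (i : F) (hi : i ^ 2 = -1)
    (hD : e 0 ^ 2 + e 1 ^ 2 + e 2 ^ 2 - e 3 ^ 2 ≠ 0) :
    (II e).card ≤ 6 * Fintype.card F ^ 2 := by
  have h1 := card_le_card (cover e i hi)
  have h4 := card_union_le (TI e i) (univ.biUnion (fun t => TT e i t))
  have h5 := TI_card h2 e i hi hD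
  have h6 := card_biUnion_le_card_mul univ (fun t => TT e i t) (Fintype.card F * 3)
    (fun t _ => TT_card_any h2 e i t hi hD)
  rw [card_univ] at h6
  have h7 : 1 ≤ Fintype.card F := Fintype.card_pos
  nlinarith

theorem nonsing_good (h2 : (2 : F) ≠ 0) (h3 : (3 : F) ≠ 0) (e : Fin 5 → F) (i t0 : F)
    (hi : i ^ 2 = -1) (hD : e 0 ^ 2 + e 1 ^ 2 + e 2 ^ 2 - e 3 ^ 2 ≠ 0)
    (hρ : rho (e 0) (e 1) (e 2) (e 4) (V0 (e 1) (e 2) (e 3) i t0) (V1 (e 0) (e 2) (e 3) i t0)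
      (V2 (e 0) (e 1) (e 3) i t0) ≠ 0) :
    (II e).card ≤ 57 * Fintype.card F := by
  have h1 := card_le_card (cover e i hi)
  have h4 := card_union_le (TI e i) (univ.biUnion (fun t => TT e i t))
  have h5 := TI_card h2 e i hi hD
  set Z := univ.filter (fun t : F => rho (e 0) (e 1) (e 2) (e 4) (V0 (e 1) (e 2) (e 3) i t)
    (V1 (e 0) (e 2) (e 3) i t) (V2 (e 0) (e 1) (e 3) i t) = 0) with hZ
  have hZc : Z.card ≤ 12 := card_rho_le _ _ _ _ _ _ t0 hρ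
  have h6 : univ.biUnion (fun t => TT e i t)
      ⊆ Z.biUnion (fun t => TT e i t) ∪ Zᶜ.biUnion (fun t => TT e i t) := by
    intro x hx
    obtain ⟨t, -, ht⟩ := mem_biUnion.1 hx
    rw [mem_union, mem_biUnion, mem_biUnion]
    by_cases h : t ∈ Z
    · exact Or.inl ⟨t, h, ht⟩
    · exact Or.inr ⟨t, mem_compl.2 h, ht⟩
  have h7 := card_le_card h6
  have h8 := card_union_le (Z.biUnion (fun t => TT e i t)) (Zᶜ.biUnion (fun t => TT e i t))
  have h9 := card_biUnion_le_card_mul Z (fun t => TT e i t) (Fintype.card F * 3)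
    (fun t _ => TT_card_any h2 e i t hi hD)
  have h10 := card_biUnion_le_card_mul Zᶜ (fun t => TT e i t) 18
    (fun t ht => TT_card_good h2 h3 e i t hi hD (by
      have := mem_compl.1 ht
      simpa [hZ] using this))
  have h11 : Zᶜ.card ≤ Fintype.card F := card_le_univ _
  have h12 : Z.card * (Fintype.card F * 3) ≤ 12 * (Fintype.card F * 3) :=
    Nat.mul_le_mul_right _ hZc
  omega

theorem plane_bound (hq : 6 < Fintype.card F) (h2 : (2 : F) ≠ 0) (h3 : (3 : F) ≠ 0)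
    (e : Fin 5 → F) (n0 n1 n2 n3 : F)
    (hee : e 0 ^ 2 + e 1 ^ 2 + e 2 ^ 2 = e 3 ^ 2) (hnn : n0 ^ 2 + n1 ^ 2 + n2 ^ 2 = n3 ^ 2)
    (hen : e 0 * n0 + e 1 * n1 + e 2 * n2 = e 3 * n3)
    (hind : ¬ (e 1 * n2 - e 2 * n1 = 0 ∧ e 2 * n0 - e 0 * n2 = 0 ∧ e 0 * n1 - e 1 * n0 = 0 ∧
      e 0 * n3 - e 3 * n0 = 0 ∧ e 1 * n3 - e 3 * n1 = 0 ∧ e 2 * n3 - e 3 * n2 = 0))
    (T : Finset (Fin 5 → F))
    (hT : ∀ x ∈ T, x ∈ II e ∧ ∃ σ τ, x 0 = σ * e 0 + τ * n0 ∧ x 1 = σ * e 1 + τ * n1 ∧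
      x 2 = σ * e 2 + τ * n2 ∧ x 3 = σ * e 3 + τ * n3) :
    T.card ≤ Fintype.card F * 18 := by
  obtain ⟨s0, hs0⟩ : ∃ s0 : F, rho (e 0) (e 1) (e 2) (e 4) (s0 * e 0 + n0) (s0 * e 1 + n1)
      (s0 * e 2 + n2) ≠ 0 := by
    by_contra hcon
    push Not at hcon
    apply hind
    exact plane_top hq h2 h3 _ _ _ _ _ _ _ _ (e 4) hee hnn hen
      (fun s => sub_eq_zero.1 (hcon s))
  have hsub : T ⊆ univ.biUnion (fun l : F => T.filter (fun x => ∃ s,
      x 0 = l * e 0 + s * (s0 * e 0 + n0) ∧ x 1 = l * e 1 + s * (s0 * e 1 + n1) ∧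
      x 2 = l * e 2 + s * (s0 * e 2 + n2) ∧ x 3 = l * e 3 + s * (s0 * e 3 + n3))) := by
    intro x hx
    obtain ⟨-, σ, τ, a0, a1, a2, a3⟩ := hT x hx
    rw [mem_biUnion]
    refine ⟨σ - τ * s0, mem_univ _, mem_filter.2 ⟨hx, τ, ?_, ?_, ?_, ?_⟩⟩
    · rw [a0]; ring
    · rw [a1]; ring
    · rw [a2]; ring
    · rw [a3]; ring
  refine le_trans (card_le_card hsub) ?_
  rw [← card_univ]
  apply card_biUnion_le_card_mul
  intro l _
  apply line_bound_good h3 e (l * e 0) (l * e 1) (l * e 2) (l * e 3) _ _ _ (s0 * e 3 + n3) _ _ hs0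
  intro x hx
  obtain ⟨hx1, hx2⟩ := mem_filter.1 hx
  exact ⟨(hT x hx1).1, hx2⟩

omit [Fintype F] [DecidableEq F] in
theorem rank_one (A B C D : F) (h : A * D = B * C) :
    ∃ a0 a1 b0 b1 : F, A = a0 * b0 ∧ B = a0 * b1 ∧ C = a1 * b0 ∧ D = a1 * b1 := by
  by_cases hA : A = 0
  · by_cases hB : B = 0
    · exact ⟨0, 1, C, D, by simp [hA], by simp [hB], by simp, by simp⟩
    · have hC : C = 0 := by
        rw [hA, zero_mul] at h
        exact (mul_eq_zero.1 h.symm).resolve_left hB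
      exact ⟨B, D, 0, 1, by simp [hA], by simp, by simp [hC], by simp⟩
  · refine ⟨A, C, 1, B / A, by simp, by field_simp, by simp, ?_⟩
    field_simp
    linear_combination h

omit [Fintype F] [DecidableEq F] in
theorem exists_compl (b0 b1 : F) (h : ¬ (b0 = 0 ∧ b1 = 0)) : ∃ c0 c1 : F, b0 * c1 - b1 * c0 = 1 := by
  by_cases h0 : b0 = 0
  · have h1 : b1 ≠ 0 := fun h1 => h ⟨h0, h1⟩
    exact ⟨-b1⁻¹, 0, by field_simp; simp⟩
  · exact ⟨0, b0⁻¹, by field_simp; simp⟩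

theorem sing_bound (hq : 6 < Fintype.card F) (h2 : (2 : F) ≠ 0) (h3 : (3 : F) ≠ 0)
    (e : Fin 5 → F) (i : F) (hi : i ^ 2 = -1) (hee : e 0 ^ 2 + e 1 ^ 2 + e 2 ^ 2 = e 3 ^ 2)
    (hne : ¬ (e 0 = 0 ∧ e 1 = 0 ∧ e 2 = 0 ∧ e 3 = 0)) :
    (II e).card ≤ 36 * Fintype.card F := by
  have hi0 : i ≠ 0 := by
    intro h; rw [h] at hi; apply h2; linear_combination 2 * hi
  obtain ⟨a0, a1, b0, b1, eA, eB, eC, eD⟩ := rank_one (e 0 + i * e 1) (e 3 - e 2) (e 3 + e 2)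
    (e 0 - i * e 1) (by linear_combination hee - (e 1) ^ 2 * hi)
  have hz : ¬ (e 0 + i * e 1 = 0 ∧ e 3 - e 2 = 0 ∧ e 3 + e 2 = 0 ∧ e 0 - i * e 1 = 0) := by
    rintro ⟨p1, p2, p3, p4⟩
    apply hne
    refine ⟨?_, ?_, ?_, ?_⟩
    · apply mul_left_cancel₀ h2; linear_combination p1 + p4
    · apply mul_left_cancel₀ (mul_ne_zero h2 hi0); linear_combination p1 - p4
    · apply mul_left_cancel₀ h2; linear_combination p3 - p2
    · apply mul_left_cancel₀ h2; linear_combination p3 + p2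
  have ha : ¬ (a0 = 0 ∧ a1 = 0) := by
    rintro ⟨p, q⟩; apply hz; rw [eA, eB, eC, eD, p, q]; simp
  have hb : ¬ (b0 = 0 ∧ b1 = 0) := by
    rintro ⟨p, q⟩; apply hz; rw [eA, eB, eC, eD, p, q]; simp
  obtain ⟨α0, α1, hα⟩ := exists_compl a0 a1 ha
  obtain ⟨β0, β1, hβ⟩ := exists_compl b0 b1 hb
  have E0 : e 0 = (a0 * b0 + a1 * b1) / 2 := by
    field_simp; linear_combination eA + eD
  have E1 : e 1 = -i * (a0 * b0 - a1 * b1) / 2 := by
    field_simp; linear_combination (-i) * (eA - eD) + 2 * e 1 * hi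
  have E2 : e 2 = (a1 * b0 - a0 * b1) / 2 := by
    field_simp; linear_combination eC - eB
  have E3 : e 3 = (a0 * b1 + a1 * b0) / 2 := by
    field_simp; linear_combination eC + eB
  set T1 := (II e).filter (fun x => ∃ σ τ, x 0 = σ * e 0 + τ * (a0 * β0 + a1 * β1) ∧
    x 1 = σ * e 1 + τ * (-i * (a0 * β0 - a1 * β1)) ∧
    x 2 = σ * e 2 + τ * (a1 * β0 - a0 * β1) ∧ x 3 = σ * e 3 + τ * (a0 * β1 + a1 * β0)) with hT1
  set T2 := (II e).filter (fun x => ∃ σ τ, x 0 = σ * e 0 + τ * (α0 * b0 + α1 * b1) ∧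
    x 1 = σ * e 1 + τ * (-i * (α0 * b0 - α1 * b1)) ∧
    x 2 = σ * e 2 + τ * (α1 * b0 - α0 * b1) ∧ x 3 = σ * e 3 + τ * (α0 * b1 + α1 * b0)) with hT2
  have c1 : T1.card ≤ Fintype.card F * 18 := by
    apply plane_bound hq h2 h3 e (a0 * β0 + a1 * β1) (-i * (a0 * β0 - a1 * β1))
      (a1 * β0 - a0 * β1) (a0 * β1 + a1 * β0) hee
    · linear_combination (a0 * β0 - a1 * β1) ^ 2 * hi
    · apply mul_left_cancel₀ h2
      rw [E0, E1, E2, E3]
      field_simp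
      linear_combination (a0 * b0 - a1 * b1) * (a0 * β0 - a1 * β1) * hi
    · rintro ⟨m1, m2, m3, m4, m5, m6⟩
      apply ha
      constructor
      · have : 2 * a0 ^ 2 = 0 := by
          linear_combination m4 + m2 + i * m5 - i * m1
            - (2 * a0 * β1) * eA + (2 * a0 * β0) * eB - 2 * a0 ^ 2 * hβ
            - (e 3 - e 2) * (a0 * β0 - a1 * β1) * hi
        exact pow_eq_zero_iff (by norm_num) |>.1 ((mul_eq_zero.1 this).resolve_left h2)
      · have : 2 * a1 ^ 2 = 0 := by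
          linear_combination (-1 : F) * m4 + m2 + i * m5 + i * m1
            - (2 * a1 * β1) * eC + (2 * a1 * β0) * eD - 2 * a1 ^ 2 * hβ
            - (e 3 + e 2) * (a0 * β0 - a1 * β1) * hi
        exact pow_eq_zero_iff (by norm_num) |>.1 ((mul_eq_zero.1 this).resolve_left h2)
    · intro x hx
      exact mem_filter.1 hx
  have c2 : T2.card ≤ Fintype.card F * 18 := by
    apply plane_bound hq h2 h3 e (α0 * b0 + α1 * b1) (-i * (α0 * b0 - α1 * b1))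
      (α1 * b0 - α0 * b1) (α0 * b1 + α1 * b0) hee
    · linear_combination (α0 * b0 - α1 * b1) ^ 2 * hi
    · apply mul_left_cancel₀ h2
      rw [E0, E1, E2, E3]
      field_simp
      linear_combination (a0 * b0 - a1 * b1) * (α0 * b0 - α1 * b1) * hi
    · rintro ⟨m1, m2, m3, m4, m5, m6⟩
      apply hb
      constructor
      · have : 2 * b0 ^ 2 = 0 := by
          linear_combination m4 - m2 + i * m5 + i * m1
            - (2 * α1 * b0) * eA + (2 * α0 * b0) * eC - 2 * b0 ^ 2 * hα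
            - (e 3 + e 2) * (α0 * b0 - α1 * b1) * hi
        exact pow_eq_zero_iff (by norm_num) |>.1 ((mul_eq_zero.1 this).resolve_left h2)
      · have : 2 * b1 ^ 2 = 0 := by
          linear_combination (-1 : F) * m4 - m2 + i * m5 - i * m1
            - (2 * α1 * b1) * eB + (2 * α0 * b1) * eD - 2 * b1 ^ 2 * hα
            - (e 3 - e 2) * (α0 * b0 - α1 * b1) * hi
        exact pow_eq_zero_iff (by norm_num) |>.1 ((mul_eq_zero.1 this).resolve_left h2)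
    · intro x hx
      exact mem_filter.1 hx
  have hsub : II e ⊆ T1 ∪ T2 := by
    intro x hx
    obtain ⟨⟨x1, -⟩, ⟨x2, -⟩⟩ := (mem_II e x).1 hx
    obtain ⟨c0, c1, d0, d1, xA, xB, xC, xD⟩ := rank_one (x 0 + i * x 1) (x 3 - x 2) (x 3 + x 2)
      (x 0 - i * x 1) (by linear_combination x1 - (x 1) ^ 2 * hi)
    have X0 : x 0 = (c0 * d0 + c1 * d1) / 2 := by
      field_simp; linear_combination xA + xD
    have X1 : x 1 = -i * (c0 * d0 - c1 * d1) / 2 := by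
      field_simp; linear_combination (-i) * (xA - xD) + 2 * x 1 * hi
    have X2 : x 2 = (c1 * d0 - c0 * d1) / 2 := by
      field_simp; linear_combination xC - xB
    have X3 : x 3 = (c0 * d1 + c1 * d0) / 2 := by
      field_simp; linear_combination xC + xB
    have hprod : (c0 * a1 - c1 * a0) * (d0 * b1 - d1 * b0) = 0 := by
      have h1 : (x 0 + i * x 1) * (e 0 - i * e 1) + (x 0 - i * x 1) * (e 0 + i * e 1)
          - (x 3 - x 2) * (e 3 + e 2) - (x 3 + x 2) * (e 3 - e 2) = 0 := by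
        linear_combination x1 - x2 + hee - 2 * x 1 * e 1 * hi
      rw [xA, xB, xC, xD, eA, eB, eC, eD] at h1
      linear_combination h1
    rw [mem_union]
    rcases mul_eq_zero.1 hprod with h | h
    · left
      obtain ⟨l, l0, l1⟩ : ∃ l, c0 = l * a0 ∧ c1 = l * a1 :=
        ⟨c0 * α1 - c1 * α0, by linear_combination (-c0) * hα - α0 * h,
          by linear_combination (-c1) * hα - α1 * h⟩
      obtain ⟨σ, τ, s0, s1⟩ : ∃ σ τ, d0 = σ * b0 + τ * β0 ∧ d1 = σ * b1 + τ * β1 :=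
        ⟨d0 * β1 - d1 * β0, b0 * d1 - b1 * d0, by linear_combination (-d0) * hβ,
          by linear_combination (-d1) * hβ⟩
      refine mem_filter.2 ⟨hx, l * σ, l * τ / 2, ?_, ?_, ?_, ?_⟩
      · rw [X0, E0, l0, l1, s0, s1]; field_simp; ring
      · rw [X1, E1, l0, l1, s0, s1]; field_simp; ring
      · rw [X2, E2, l0, l1, s0, s1]; field_simp; ring
      · rw [X3, E3, l0, l1, s0, s1]; field_simp; ring
    · right
      obtain ⟨l, l0, l1⟩ : ∃ l, d0 = l * b0 ∧ d1 = l * b1 :=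
        ⟨d0 * β1 - d1 * β0, by linear_combination (-d0) * hβ - β0 * h,
          by linear_combination (-d1) * hβ - β1 * h⟩
      obtain ⟨σ, τ, s0, s1⟩ : ∃ σ τ, c0 = σ * a0 + τ * α0 ∧ c1 = σ * a1 + τ * α1 :=
        ⟨c0 * α1 - c1 * α0, a0 * c1 - a1 * c0, by linear_combination (-c0) * hα,
          by linear_combination (-c1) * hα⟩
      refine mem_filter.2 ⟨hx, l * σ, l * τ / 2, ?_, ?_, ?_, ?_⟩
      · rw [X0, E0, l0, l1, s0, s1]; field_simp; ring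
      · rw [X1, E1, l0, l1, s0, s1]; field_simp; ring
      · rw [X2, E2, l0, l1, s0, s1]; field_simp; ring
      · rw [X3, E3, l0, l1, s0, s1]; field_simp; ring
  have := card_le_card hsub
  have := card_union_le T1 T2
  omega

theorem axis_bound (h3 : (3 : F) ≠ 0) (e : Fin 5 → F) (h0 : e 0 = 0) (h1 : e 1 = 0) (h2 : e 2 = 0)
    (h4 : e 4 ≠ 0) : (II e).card ≤ 12 * Fintype.card F ^ 2 := by
  set Z := univ.filter (fun y : F => e 4 ^ 3 + (-3 * e 4 ^ 2) * y + (3 * e 4) * y ^ 2 = 0) with hZ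
  have hZc : Z.card ≤ 2 := by
    have hp : (C (e 4 ^ 3) + C (-3 * e 4 ^ 2) * X + C (3 * e 4) * X ^ 2 : F[X]) ≠ 0 := by
      intro hp
      exact mul_ne_zero h3 h4 (quad_eq_zero _ _ _ hp).2.2
    have := card_roots_le _ 2 (by compute_degree) hp
    simpa only [eval_add, eval_mul, eval_C, eval_X, eval_pow] using this
  have hsub : II e ⊆ (univ : Finset (F × F)).biUnion (fun p => Z.biUnion (fun y =>
      (univ.filter (fun c : F => c ^ 3 = y ^ 3 - p.1 ^ 3 - p.2 ^ 3)).biUnion (fun c =>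
        (univ.filter (fun d : F => d ^ 2 = p.1 ^ 2 + p.2 ^ 2 + c ^ 2)).image
          (fun d => ![p.1, p.2, c, d, y])))) := by
    intro x hx
    obtain ⟨⟨x1, x2⟩, ⟨-, x4⟩⟩ := (mem_II e x).1 hx
    rw [h0, h1, h2] at x4
    simp only [mem_biUnion, mem_image, mem_filter, mem_univ, true_and, hZ]
    refine ⟨(x 0, x 1), x 4, ?_, x 2, ?_, x 3, x1.symm, ?_⟩
    · linear_combination x4 - x2
    · simp only; linear_combination x2
    · funext j
      fin_cases j <;> simp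
  refine le_trans (card_le_card hsub) ?_
  refine le_trans (card_biUnion_le_card_mul _ _ 12 ?_) ?_
  · intro p _
    refine le_trans (card_biUnion_le_card_mul _ _ 6 ?_) (by omega)
    intro y _
    refine le_trans (card_biUnion_le_card_mul _ _ 2 ?_) ?_
    · intro c _
      exact le_trans card_image_le (card_pow_le 2 (by norm_num) _)
    · have := card_pow_le 3 (by norm_num) (y ^ 3 - p.1 ^ 3 - p.2 ^ 3)
      omega
  · rw [card_univ, Fintype.card_prod]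
    nlinarith

/-- the exceptional directions -/
def dirs (F : Type) [Field F] : Fin 8 → Fin 5 → F :=
  ![![1, 0, 0, 0, 0], ![0, 1, 0, 0, 0], ![0, 0, 1, 0, 0], ![0, 0, 0, 1, 0], ![0, 0, 0, 0, 1],
    ![1, -1, 0, 0, 0], ![1, 0, -1, 0, 0], ![0, 1, -1, 0, 0]]

def BB (F : Type) [Field F] [Fintype F] [DecidableEq F] : Finset (Fin 5 → F) :=
  (univ : Finset (Fin 8 × F)).image (fun p => p.2 • dirs F p.1)

theorem card_BB : (BB F).card ≤ 8 * Fintype.card F := by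
  refine le_trans card_image_le ?_
  simp

theorem II_any (hq : 12 < Fintype.card F) (h2 : (2 : F) ≠ 0) (h3 : (3 : F) ≠ 0)
    (i : F) (hi : i ^ 2 = -1) (e : Fin 5 → F) (he : e ≠ 0) :
    (II e).card ≤ 12 * Fintype.card F ^ 2 := by
  by_cases hz : e 0 = 0 ∧ e 1 = 0 ∧ e 2 = 0 ∧ e 3 = 0
  · apply axis_bound h3 e hz.1 hz.2.1 hz.2.2.1
    intro h4
    apply he
    funext j
    fin_cases j <;> simp [hz.1, hz.2.1, hz.2.2.1, hz.2.2.2, h4]
  · by_cases hD : e 0 ^ 2 + e 1 ^ 2 + e 2 ^ 2 - e 3 ^ 2 = 0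
    · have := sing_bound (by omega) h2 h3 e i hi (sub_eq_zero.1 hD) hz
      nlinarith
    · have := nonsing_any h2 e i hi hD
      nlinarith

theorem II_good (hq : 12 < Fintype.card F) (h2 : (2 : F) ≠ 0) (h3 : (3 : F) ≠ 0)
    (i : F) (hi : i ^ 2 = -1) (e : Fin 5 → F) (he : e ∉ BB F) :
    (II e).card ≤ 57 * Fintype.card F := by
  have hmem : ∀ (j : Fin 8) (t : F), e ≠ t • dirs F j := by
    intro j t h
    apply he
    exact mem_image.2 ⟨(j, t), mem_univ _, h.symm⟩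
  by_cases hz : e 0 = 0 ∧ e 1 = 0 ∧ e 2 = 0 ∧ e 3 = 0
  · exfalso
    apply hmem 4 (e 4)
    funext j
    fin_cases j <;> simp [dirs, hz.1, hz.2.1, hz.2.2.1, hz.2.2.2]
  · by_cases hD : e 0 ^ 2 + e 1 ^ 2 + e 2 ^ 2 - e 3 ^ 2 = 0
    · have := sing_bound (by omega) h2 h3 e i hi (sub_eq_zero.1 hD) hz
      omega
    · by_cases hρ : ∀ t : F, rho (e 0) (e 1) (e 2) (e 4) (V0 (e 1) (e 2) (e 3) i t)
        (V1 (e 0) (e 2) (e 3) i t) (V2 (e 0) (e 1) (e 3) i t) = 0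
      · exfalso
        obtain ⟨h4, h⟩ := nonsing_top hq h2 h3 (e 0) (e 1) (e 2) (e 3) (e 4) i hi hD hρ
        rcases h with ⟨a, b, c⟩ | ⟨a, b, c⟩ | ⟨a, b, c⟩ | ⟨a, b, c⟩ | ⟨a, b, c⟩ | ⟨a, b, c⟩ |
          ⟨a, b, c⟩
        · apply hmem 0 (e 0); funext j; fin_cases j <;> simp [dirs, a, b, c, h4]
        · apply hmem 1 (e 1); funext j; fin_cases j <;> simp [dirs, a, b, c, h4]
        · apply hmem 2 (e 2); funext j; fin_cases j <;> simp [dirs, a, b, c, h4]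
        · apply hmem 3 (e 3); funext j; fin_cases j <;> simp [dirs, a, b, c, h4]
        · apply hmem 5 (e 0); funext j; fin_cases j <;> simp [dirs, a, b, c, h4]
        · apply hmem 6 (e 0); funext j; fin_cases j <;> simp [dirs, a, b, c, h4]
        · apply hmem 7 (e 1); funext j; fin_cases j <;> simp [dirs, a, b, c, h4]
      · push Not at hρ
        obtain ⟨t0, ht0⟩ := hρ
        exact nonsing_good h2 h3 e i t0 hi hD ht0

end Pool.Agent.Lib.MP_a1ab69_an
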