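import Mathlib
import Pool.Agent.Lib.MP_a1ab69_an.Inter

set_option autoImplicit false
set_option linter.unusedSimpArgs false

namespace Pool.Agent.Lib.MP_a1ab69_an

open Finset

variable {F : Type} [Field F] [Fintype F] [DecidableEq F]

omit [DecidableEq F] in
theorem normsq_sum (ψ : AddChar F ℂ) (φ : F → F) :
    ((‖∑ x, ψ (φ x)‖ ^ 2 : ℝ) : ℂ) = ∑ x, ∑ y, ψ (φ x - φ y) := by
  rw [Complex.ofReal_pow, ← Complex.mul_conj', map_sum, Finset.sum_mul_sum]
  refine sum_congr rfl fun x _ => sum_congr rfl fun y _ => ?_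
  rw [sub_eq_add_neg, AddChar.map_add_eq_mul, AddChar.map_neg_eq_conj]

/-- monomial exponential sum -/
noncomputable def GG (ψ : AddChar F ℂ) (k : ℕ) (l : F) : ℂ := ∑ x, ψ (l * x ^ k)

/-- binomial exponential sum -/
noncomputable def SS (ψ : AddChar F ℂ) (l m : F) : ℂ := ∑ x, ψ (l * x ^ 2 + m * x ^ 3)

theorem parseval_GG (ψ : AddChar F ℂ) (hψ : ψ.IsPrimitive) (k : ℕ) (hk : 0 < k) :
    ∑ l, ‖GG ψ k l‖ ^ 2 ≤ (k : ℝ) * (Fintype.card F : ℝ) ^ 2 := by
  have h1 : ((∑ l, ‖GG ψ k l‖ ^ 2 : ℝ) : ℂ)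
      = ((∑ x : F, ∑ y : F, (if y ^ k = x ^ k then (Fintype.card F : ℝ) else 0) : ℝ) : ℂ) := by
    rw [Complex.ofReal_sum]
    simp only [GG, normsq_sum]
    rw [sum_comm, Complex.ofReal_sum]
    refine sum_congr rfl fun x _ => ?_
    rw [sum_comm, Complex.ofReal_sum]
    refine sum_congr rfl fun y _ => ?_
    have := AddChar.sum_mulShift (x ^ k - y ^ k) hψ
    simp only [mul_sub] at this
    rw [this]
    by_cases h : y ^ k = x ^ k
    · simp [h]
    · have h' : x ^ k - y ^ k ≠ 0 := fun h0 => h (sub_eq_zero.1 h0).symm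
      simp [h, h']
  have h2 := Complex.ofReal_injective h1
  rw [h2]
  calc ∑ x : F, ∑ y : F, (if y ^ k = x ^ k then (Fintype.card F : ℝ) else 0)
      ≤ ∑ x : F, (k : ℝ) * (Fintype.card F : ℝ) := by
        refine sum_le_sum fun x _ => ?_
        rw [← sum_filter, sum_const, nsmul_eq_mul]
        have := card_pow_le k hk (x ^ k)
        gcongr
    _ = (k : ℝ) * (Fintype.card F : ℝ) ^ 2 := by
        rw [sum_const, card_univ, nsmul_eq_mul]; ring

omit [DecidableEq F] in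
theorem GG_mul (ψ : AddChar F ℂ) (k : ℕ) (l t : F) (ht : t ≠ 0) :
    GG ψ k (l * t ^ k) = GG ψ k l := by
  unfold GG
  rw [← Equiv.sum_comp (Equiv.mulLeft₀ t ht) (fun x => ψ (l * x ^ k))]
  refine sum_congr rfl fun x _ => ?_
  simp [mul_pow, mul_assoc]

theorem GG_bound (ψ : AddChar F ℂ) (hψ : ψ.IsPrimitive) (k : ℕ) (hk : 0 < k) (l : F) (hl : l ≠ 0) :
    ‖GG ψ k l‖ ^ 2 ≤ 2 * (k : ℝ) ^ 2 * (Fintype.card F : ℝ) := by
  have hq : (2 : ℝ) ≤ (Fintype.card F : ℝ) := by exact_mod_cast Fintype.one_lt_card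
  have h1 : ((Fintype.card F : ℝ) - 1) * ‖GG ψ k l‖ ^ 2
      = ∑ t ∈ univ.erase (0 : F), ‖GG ψ k (l * t ^ k)‖ ^ 2 := by
    rw [sum_congr rfl (fun t ht => by rw [GG_mul ψ k l t (ne_of_mem_erase ht)])]
    rw [sum_const, card_erase_of_mem (mem_univ _), card_univ, nsmul_eq_mul,
      Nat.cast_sub Fintype.card_pos]
    simp
  have h2 : ∑ t ∈ univ.erase (0 : F), ‖GG ψ k (l * t ^ k)‖ ^ 2
      ≤ ∑ t : F, ‖GG ψ k (l * t ^ k)‖ ^ 2 :=
    sum_le_sum_of_subset_of_nonneg (subset_univ _) (fun _ _ _ => by positivity)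
  have h3 : ∑ t : F, ‖GG ψ k (l * t ^ k)‖ ^ 2 ≤ (k : ℝ) * ∑ m, ‖GG ψ k m‖ ^ 2 := by
    rw [← sum_fiberwise_of_maps_to (s := univ) (t := univ) (g := fun t : F => l * t ^ k)
      (fun _ _ => mem_univ _), mul_sum]
    refine sum_le_sum fun m _ => ?_
    rw [sum_congr rfl (fun t ht => by rw [(mem_filter.1 ht).2]), sum_const, nsmul_eq_mul]
    have : (univ.filter (fun t : F => l * t ^ k = m)).card ≤ k := by
      refine le_trans (card_le_card ?_) (card_pow_le k hk (m / l))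
      intro t ht
      simp only [mem_filter, mem_univ, true_and] at ht ⊢
      rw [← ht]; field_simp
    gcongr
  have h4 := parseval_GG ψ hψ k hk
  have h5 : ((Fintype.card F : ℝ) - 1) * ‖GG ψ k l‖ ^ 2
      ≤ (k : ℝ) ^ 2 * (Fintype.card F : ℝ) ^ 2 := by
    calc _ ≤ (k : ℝ) * ∑ m, ‖GG ψ k m‖ ^ 2 := by linarith
      _ ≤ (k : ℝ) * ((k : ℝ) * (Fintype.card F : ℝ) ^ 2) := by gcongr
      _ = _ := by ring
  have h6 : (Fintype.card F : ℝ) * ‖GG ψ k l‖ ^ 2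
      ≤ (Fintype.card F : ℝ) * (2 * (k : ℝ) ^ 2 * (Fintype.card F : ℝ)) := by
    have : 0 ≤ ‖GG ψ k l‖ ^ 2 := by positivity
    nlinarith
  exact le_of_mul_le_mul_left h6 (by linarith)

omit [DecidableEq F] in
theorem quad_norm (h2 : (2 : F) ≠ 0) (ψ : AddChar F ℂ) (a b c : F) (ha : a ≠ 0) :
    ‖∑ x, ψ (a * x ^ 2 + b * x + c)‖ = ‖GG ψ 2 a‖ := by
  have : ∑ x, ψ (a * x ^ 2 + b * x + c) = GG ψ 2 a * ψ (c - b ^ 2 / (4 * a)) := by
    unfold GG
    rw [← Equiv.sum_comp (Equiv.addRight (b / (2 * a))) (fun x => ψ (a * x ^ 2)), sum_mul]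
    refine sum_congr rfl fun x _ => ?_
    rw [← AddChar.map_add_eq_mul]
    congr 1
    have h4 : (4 : F) ≠ 0 := by
      have : (4 : F) = 2 * 2 := by norm_num
      rw [this]; exact mul_ne_zero h2 h2
    simp only [Equiv.coe_addRight]
    field_simp
    ring
  rw [this, norm_mul, AddChar.norm_apply, mul_one]

theorem SS_bound (hq : 200000000 ≤ Fintype.card F) (h2 : (2 : F) ≠ 0) (h3 : (3 : F) ≠ 0)
    (ψ : AddChar F ℂ) (hψ : ψ.IsPrimitive) (l m : F) (hm : m ≠ 0) :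
    ‖SS ψ l m‖ ≤ (Fintype.card F : ℝ) / 48 := by
  have hq' : (200000000 : ℝ) ≤ (Fintype.card F : ℝ) := by exact_mod_cast hq
  have hG : ∀ a : F, a ≠ 0 → ‖GG ψ 2 a‖ ≤ (Fintype.card F : ℝ) / 4608 := by
    intro a ha
    have := GG_bound ψ hψ 2 (by norm_num) a ha
    apply le_of_sq_le_sq _ (by positivity)
    push_cast at this
    nlinarith
  have h1 : ((‖SS ψ l m‖ ^ 2 : ℝ) : ℂ) = ∑ h : F, ∑ y : F,
      ψ ((3 * m * h) * y ^ 2 + (3 * m * h ^ 2 + 2 * l * h) * y + (m * h ^ 3 + l * h ^ 2)) := by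
    unfold SS
    rw [normsq_sum, sum_comm]
    conv_rhs => rw [sum_comm]
    refine sum_congr rfl fun y _ => ?_
    rw [← Equiv.sum_comp (Equiv.addRight y)]
    refine sum_congr rfl fun h _ => ?_
    congr 1
    simp only [Equiv.coe_addRight]
    ring
  have h4 : ‖SS ψ l m‖ ^ 2 ≤ (Fintype.card F : ℝ)
      + (Fintype.card F : ℝ) * ((Fintype.card F : ℝ) / 4608) := by
    have h5 : ‖SS ψ l m‖ ^ 2 = ‖((‖SS ψ l m‖ ^ 2 : ℝ) : ℂ)‖ := by
      rw [Complex.norm_real, Real.norm_of_nonneg (by positivity)]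
    rw [h5, h1]
    refine le_trans (norm_sum_le _ _) ?_
    calc _ ≤ ∑ h : F, ((if h = 0 then (Fintype.card F : ℝ) else 0)
          + (Fintype.card F : ℝ) / 4608) := by
          refine sum_le_sum fun h _ => ?_
          by_cases hh : h = 0
          · rw [if_pos hh]
            refine le_trans (norm_sum_le _ _) ?_
            simp only [AddChar.norm_apply, sum_const, card_univ, nsmul_eq_mul, mul_one]
            have : 0 ≤ (Fintype.card F : ℝ) / 4608 := by positivity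
            linarith
          · have hne : 3 * m * h ≠ 0 := mul_ne_zero (mul_ne_zero h3 hm) hh
            rw [if_neg hh, quad_norm h2 ψ _ _ _ hne, zero_add]
            exact hG _ hne
      _ = _ := by
          rw [sum_add_distrib, sum_ite_eq']
          simp
  apply le_of_sq_le_sq _ (by positivity)
  nlinarith

theorem parseval_SS (ψ : AddChar F ℂ) (hψ : ψ.IsPrimitive) :
    ∑ l, ∑ m, ‖SS ψ l m‖ ^ 2 = (Fintype.card F : ℝ) ^ 3 := by
  apply Complex.ofReal_injective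
  have h1 : ∀ x y : F, ∑ l : F, ∑ m : F, ψ (l * x ^ 2 + m * x ^ 3 - (l * y ^ 2 + m * y ^ 3))
      = if y = x then (Fintype.card F : ℂ) ^ 2 else 0 := by
    intro x y
    have : ∑ l : F, ∑ m : F, ψ (l * x ^ 2 + m * x ^ 3 - (l * y ^ 2 + m * y ^ 3))
        = (∑ l : F, ψ (l * (x ^ 2 - y ^ 2))) * ∑ m : F, ψ (m * (x ^ 3 - y ^ 3)) := by
      rw [sum_mul_sum]
      refine sum_congr rfl fun l _ => sum_congr rfl fun m _ => ?_
      rw [← AddChar.map_add_eq_mul]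
      congr 1
      ring
    rw [this, AddChar.sum_mulShift _ hψ, AddChar.sum_mulShift _ hψ]
    by_cases h : y = x
    · simp [h, sq]
    · rw [if_neg h]
      by_cases a : x ^ 2 - y ^ 2 = 0
      · have b : x ^ 3 - y ^ 3 ≠ 0 := by
          intro b
          apply h
          have : (x - y) * y ^ 2 = 0 := by linear_combination b - x * a
          rcases mul_eq_zero.1 this with c | c
          · exact (sub_eq_zero.1 c).symm
          · have c' : y = 0 := pow_eq_zero_iff (by norm_num) |>.1 c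
            have : x ^ 2 = 0 := by rw [c'] at a; linear_combination a
            have c'' : x = 0 := pow_eq_zero_iff (by norm_num) |>.1 this
            rw [c', c'']
        simp [b]
      · simp [a]
  calc ((∑ l, ∑ m, ‖SS ψ l m‖ ^ 2 : ℝ) : ℂ)
      = ∑ l : F, ∑ m : F, ∑ x : F, ∑ y : F,
          ψ (l * x ^ 2 + m * x ^ 3 - (l * y ^ 2 + m * y ^ 3)) := by
        rw [Complex.ofReal_sum]
        refine sum_congr rfl fun l _ => ?_
        rw [Complex.ofReal_sum]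
        refine sum_congr rfl fun m _ => ?_
        unfold SS
        rw [normsq_sum]
    _ = ∑ x : F, ∑ y : F, ∑ l : F, ∑ m : F,
          ψ (l * x ^ 2 + m * x ^ 3 - (l * y ^ 2 + m * y ^ 3)) := by
        rw [← Fintype.sum_prod_type', ← Fintype.sum_prod_type' (α₁ := F) (α₂ := F)
          (fun x y => ∑ l : F, ∑ m : F, ψ (l * x ^ 2 + m * x ^ 3 - (l * y ^ 2 + m * y ^ 3)))]
        simp_rw [← Fintype.sum_prod_type']
        exact (Equiv.sum_comp (Equiv.prodComm _ _) _).symm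
    _ = _ := by
        simp_rw [h1]
        simp
        ring

theorem count_identity (ψ : AddChar F ℂ) (hψ : ψ.IsPrimitive) :
    ∑ l, ∑ m, SS ψ l m ^ 3 * SS ψ (-l) 0 * SS ψ 0 (-m)
      = (Fintype.card F : ℂ) ^ 2 * ((HH F).card : ℂ) := by
  have h1 : ∀ l m : F, SS ψ l m ^ 3 * SS ψ (-l) 0 * SS ψ 0 (-m)
      = ∑ x : Fin 5 → F, ψ (l * (x 0 ^ 2 + x 1 ^ 2 + x 2 ^ 2 - x 3 ^ 2))
        * ψ (m * (x 0 ^ 3 + x 1 ^ 3 + x 2 ^ 3 - x 4 ^ 3)) := by
    intro l m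
    have := prod_univ_sum (fun _ : Fin 5 => (univ : Finset F))
      (fun j x => ψ ((![l, l, l, -l, 0] : Fin 5 → F) j * x ^ 2
        + (![m, m, m, 0, -m] : Fin 5 → F) j * x ^ 3))
    rw [Fintype.piFinset_univ, Fin.prod_univ_five] at this
    simp only [Matrix.cons_val_zero, Matrix.cons_val_one, Matrix.cons_val] at this
    unfold SS
    rw [pow_three, ← mul_assoc, this]
    refine sum_congr rfl fun x _ => ?_
    rw [Fin.prod_univ_five]
    simp only [Matrix.cons_val_zero, Matrix.cons_val_one, Matrix.cons_val,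
      ← AddChar.map_add_eq_mul]
    congr 1
    ring
  simp_rw [h1]
  calc _ = ∑ x : Fin 5 → F, ∑ l : F, ∑ m : F, ψ (l * (x 0 ^ 2 + x 1 ^ 2 + x 2 ^ 2 - x 3 ^ 2))
        * ψ (m * (x 0 ^ 3 + x 1 ^ 3 + x 2 ^ 3 - x 4 ^ 3)) := by
        rw [← Fintype.sum_prod_type']
        simp_rw [← Fintype.sum_prod_type']
        exact (Equiv.sum_comp (Equiv.prodComm _ _) _).symm
    _ = ∑ x : Fin 5 → F, if x ∈ HH F then (Fintype.card F : ℂ) ^ 2 else 0 := by
        refine sum_congr rfl fun x _ => ?_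
        rw [← sum_mul_sum, AddChar.sum_mulShift _ hψ, AddChar.sum_mulShift _ hψ]
        simp only [HH, mem_filter, mem_univ, true_and, sub_eq_zero]
        by_cases a : x 0 ^ 2 + x 1 ^ 2 + x 2 ^ 2 = x 3 ^ 2 <;>
          by_cases b : x 0 ^ 3 + x 1 ^ 3 + x 2 ^ 3 = x 4 ^ 3 <;> simp [a, b, sq]
    _ = _ := by
        rw [← sum_filter]
        simp [mul_comm]

theorem card_HH_ge (hq : 200000000 ≤ Fintype.card F) (h2 : (2 : F) ≠ 0) (h3 : (3 : F) ≠ 0) :
    (Fintype.card F : ℝ) ^ 3 / 2 ≤ ((HH F).card : ℝ) := by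
  set ψ := AddChar.FiniteField.primitiveChar_to_Complex F
  have hψ : ψ.IsPrimitive := AddChar.FiniteField.primitiveChar_to_Complex_isPrimitive F
  set q : ℝ := (Fintype.card F : ℝ) with hqdef
  have hq' : (200000000 : ℝ) ≤ q := by rw [hqdef]; exact_mod_cast hq
  have s00 : SS ψ 0 0 = (q : ℂ) := by simp [SS, hqdef]
  have sl : ∀ l : F, l ≠ 0 → ‖SS ψ l 0‖ ^ 2 ≤ 8 * q := by
    intro l hl
    have := GG_bound ψ hψ 2 (by norm_num) l hl
    have e : SS ψ l 0 = GG ψ 2 l := by simp [SS, GG]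
    rw [e]; push_cast at this; linarith
  have sm : ∀ m : F, m ≠ 0 → ‖SS ψ 0 m‖ ^ 2 ≤ 18 * q := by
    intro m hm
    have := GG_bound ψ hψ 3 (by norm_num) m hm
    have e : SS ψ 0 m = GG ψ 3 m := by simp [SS, GG]
    rw [e]; push_cast at this; linarith
  have hterm : ∀ l m : F, ‖SS ψ l m ^ 3 * SS ψ (-l) 0 * SS ψ 0 (-m)
      - (if l = 0 then (if m = 0 then (q : ℂ) ^ 5 else 0) else 0)‖
      ≤ (if m = 0 then 64 * q ^ 3 else 0) + (if l = 0 then 324 * q ^ 3 else 0)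
        + q ^ 2 / 4 * ‖SS ψ l m‖ ^ 2 := by
    intro l m
    have hq0 : 0 ≤ q := by linarith
    by_cases hl : l = 0 <;> by_cases hm : m = 0
    · subst hl hm
      simp only [neg_zero, s00, if_true]
      have : (q : ℂ) ^ 3 * q * q - q ^ 5 = 0 := by ring
      rw [this, norm_zero]
      positivity
    · subst hl
      simp only [neg_zero, s00, if_true, if_neg hm, sub_zero, norm_mul, norm_pow,
        Complex.norm_real, Real.norm_of_nonneg hq0]
      have a := sm m hm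
      have b := sm (-m) (neg_ne_zero.2 hm)
      have c : ‖SS ψ 0 m‖ * ‖SS ψ 0 (-m)‖ ≤ 18 * q := by nlinarith [sq_nonneg (‖SS ψ 0 m‖ - ‖SS ψ 0 (-m)‖)]
      have d : ‖SS ψ 0 m‖ ^ 3 * q * ‖SS ψ 0 (-m)‖
          = ‖SS ψ 0 m‖ ^ 2 * (‖SS ψ 0 m‖ * ‖SS ψ 0 (-m)‖) * q := by ring
      have e : ‖SS ψ 0 m‖ ^ 2 * (‖SS ψ 0 m‖ * ‖SS ψ 0 (-m)‖) * q ≤ (18 * q) * (18 * q) * q := by
        gcongr
      have f : 0 ≤ q ^ 2 / 4 * ‖SS ψ 0 m‖ ^ 2 := by positivity
      nlinarith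
    · subst hm
      simp only [neg_zero, s00, if_true, if_neg hl, sub_zero, norm_mul, norm_pow,
        Complex.norm_real, Real.norm_of_nonneg hq0]
      have a := sl l hl
      have b := sl (-l) (neg_ne_zero.2 hl)
      have c : ‖SS ψ l 0‖ * ‖SS ψ (-l) 0‖ ≤ 8 * q := by nlinarith [sq_nonneg (‖SS ψ l 0‖ - ‖SS ψ (-l) 0‖)]
      have d : ‖SS ψ l 0‖ ^ 3 * ‖SS ψ (-l) 0‖ * q
          = ‖SS ψ l 0‖ ^ 2 * (‖SS ψ l 0‖ * ‖SS ψ (-l) 0‖) * q := by ring
      have e : ‖SS ψ l 0‖ ^ 2 * (‖SS ψ l 0‖ * ‖SS ψ (-l) 0‖) * q ≤ (8 * q) * (8 * q) * q := by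
        gcongr
      have f : 0 ≤ q ^ 2 / 4 * ‖SS ψ l 0‖ ^ 2 := by positivity
      nlinarith
    · simp only [if_neg hl, if_neg hm, sub_zero, norm_mul, norm_pow, zero_add]
      have a := sl (-l) (neg_ne_zero.2 hl)
      have b := sm (-m) (neg_ne_zero.2 hm)
      have c : ‖SS ψ (-l) 0‖ * ‖SS ψ 0 (-m)‖ ≤ 12 * q := by
        apply le_of_sq_le_sq _ (by positivity)
        rw [mul_pow]
        calc _ ≤ (8 * q) * (18 * q) := by gcongr
          _ = _ := by ring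
      have d := SS_bound hq h2 h3 ψ hψ l m hm
      calc ‖SS ψ l m‖ ^ 3 * ‖SS ψ (-l) 0‖ * ‖SS ψ 0 (-m)‖
          = ‖SS ψ l m‖ * (‖SS ψ (-l) 0‖ * ‖SS ψ 0 (-m)‖) * ‖SS ψ l m‖ ^ 2 := by ring
        _ ≤ (q / 48) * (12 * q) * ‖SS ψ l m‖ ^ 2 := by gcongr
        _ = _ := by ring
  have hsum : ‖((q ^ 2 * ((HH F).card : ℝ) - q ^ 5 : ℝ) : ℂ)‖ ≤ 388 * q ^ 4 + q ^ 5 / 4 := by
    have e1 : ((q ^ 2 * ((HH F).card : ℝ) - q ^ 5 : ℝ) : ℂ)
        = ∑ l, ∑ m, (SS ψ l m ^ 3 * SS ψ (-l) 0 * SS ψ 0 (-m)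
          - (if l = 0 then (if m = 0 then (q : ℂ) ^ 5 else 0) else 0)) := by
      simp_rw [sum_sub_distrib]
      rw [count_identity ψ hψ]
      simp [hqdef]
    rw [e1]
    refine le_trans (norm_sum_le _ _) ?_
    refine le_trans (sum_le_sum fun l _ => le_trans (norm_sum_le _ _)
      (sum_le_sum fun m _ => hterm l m)) ?_
    simp_rw [sum_add_distrib, ← mul_sum]
    rw [parseval_SS ψ hψ]
    simp [← hqdef]
    apply le_of_eq
    ring
  rw [Complex.norm_real, Real.norm_eq_abs] at hsum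
  have h5 := (abs_le.1 hsum).1
  have hq2 : 0 < q ^ 2 := by positivity
  have h6 : 388 * q ^ 4 ≤ q ^ 5 / 4 := by
    have : 0 < q ^ 4 := by positivity
    nlinarith
  have h7 : q ^ 2 * (q ^ 3 / 2) ≤ q ^ 2 * ((HH F).card : ℝ) := by nlinarith
  exact le_of_mul_le_mul_left h7 hq2

end Pool.Agent.Lib.MP_a1ab69_an
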