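import Mathlib
import Pool.Agent.Lib.MP_a1ab69_an.Count
import Pool.Agent.Lib.MP_a1ab69_an.Analysis

set_option autoImplicit false
set_option linter.unusedSimpArgs false

namespace Pool.Agent.Lib.MP_a1ab69_an

open Finset

variable {F : Type} [Field F] [Fintype F] [DecidableEq F]

theorem card_HH_le : (HH F).card ≤ 6 * Fintype.card F ^ 3 := by
  have hsub : HH F ⊆ (univ : Finset (F × F × F)).biUnion (fun p =>
      (univ.filter (fun c : F => c ^ 3 = p.1 ^ 3 + p.2.1 ^ 3 + p.2.2 ^ 3)).biUnion (fun c =>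
        (univ.filter (fun d : F => d ^ 2 = p.1 ^ 2 + p.2.1 ^ 2 + p.2.2 ^ 2)).image
          (fun d => ![p.1, p.2.1, p.2.2, d, c]))) := by
    intro x hx
    simp only [HH, mem_filter, mem_univ, true_and] at hx
    simp only [mem_biUnion, mem_image, mem_filter, mem_univ, true_and]
    refine ⟨(x 0, x 1, x 2), x 4, hx.2.symm, x 3, hx.1.symm, ?_⟩
    funext j
    fin_cases j <;> simp
  refine le_trans (card_le_card hsub) ?_
  refine le_trans (card_biUnion_le_card_mul _ _ 6 ?_) ?_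
  · intro p _
    refine le_trans (card_biUnion_le_card_mul _ _ 2 ?_) ?_
    · intro c _
      exact le_trans card_image_le (card_pow_le 2 (by norm_num) _)
    · have := card_pow_le 3 (by norm_num) (p.1 ^ 3 + p.2.1 ^ 3 + p.2.2 ^ 3)
      omega
  · rw [card_univ, Fintype.card_prod, Fintype.card_prod]
    apply le_of_eq
    ring

theorem L2_HH (hq : 12 < Fintype.card F) (h2 : (2 : F) ≠ 0) (h3 : (3 : F) ≠ 0)
    (i : F) (hi : i ^ 2 = -1) (φ : (Fin 5 → F) → ℝ) (hφ : ∀ x, 0 ≤ φ x) :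
    ∑ y, (∑ x ∈ HH F, φ (y - x)) ^ 2 ≤ 102 * (Fintype.card F : ℝ) * (∑ u, φ u) ^ 2
      + 102 * (Fintype.card F : ℝ) ^ 3 * ∑ u, φ u ^ 2 := by
  have h := L2_bound (HH F) (57 * (Fintype.card F : ℝ))
    (fun e => (if e = 0 then 6 * (Fintype.card F : ℝ) ^ 3 else 0)
      + (if e ∈ BB F then 12 * (Fintype.card F : ℝ) ^ 2 else 0))
    (fun e => by positivity)
    (fun e => by
      have p1 : (0 : ℝ) ≤ if e = 0 then 6 * (Fintype.card F : ℝ) ^ 3 else 0 := by positivity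
      have p2 : (0 : ℝ) ≤ if e ∈ BB F then 12 * (Fintype.card F : ℝ) ^ 2 else 0 := by positivity
      have p3 : (0 : ℝ) ≤ 57 * (Fintype.card F : ℝ) := by positivity
      change ((II e).card : ℝ) ≤ _
      by_cases h0 : e = 0
      · have a : (II e).card ≤ 6 * Fintype.card F ^ 3 :=
          le_trans (card_filter_le _ _) card_HH_le
        have b : ((II e).card : ℝ) ≤ 6 * (Fintype.card F : ℝ) ^ 3 := by exact_mod_cast a
        rw [if_pos h0]
        linarith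
      · by_cases hB : e ∈ BB F
        · have a := II_any hq h2 h3 i hi e h0
          have b : ((II e).card : ℝ) ≤ 12 * (Fintype.card F : ℝ) ^ 2 := by exact_mod_cast a
          rw [if_pos hB]
          linarith
        · have a := II_good hq h2 h3 i hi e hB
          have b : ((II e).card : ℝ) ≤ 57 * (Fintype.card F : ℝ) := by exact_mod_cast a
          linarith) φ hφ
  refine le_trans h ?_
  have hK : ∑ e : Fin 5 → F, ((if e = 0 then 6 * (Fintype.card F : ℝ) ^ 3 else 0)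
      + (if e ∈ BB F then 12 * (Fintype.card F : ℝ) ^ 2 else 0))
      ≤ 102 * (Fintype.card F : ℝ) ^ 3 := by
    rw [sum_add_distrib, sum_ite_eq', ← sum_filter, sum_const, nsmul_eq_mul]
    simp only [mem_univ, if_true, filter_mem_eq_inter, univ_inter]
    have a : ((BB F).card : ℝ) ≤ 8 * (Fintype.card F : ℝ) := by exact_mod_cast card_BB
    have b : ((BB F).card : ℝ) * (12 * (Fintype.card F : ℝ) ^ 2)
        ≤ (8 * (Fintype.card F : ℝ)) * (12 * (Fintype.card F : ℝ) ^ 2) := by gcongr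
    linarith
  have p1 : 0 ≤ ∑ u, φ u ^ 2 := sum_nonneg fun u _ => sq_nonneg _
  have p2 : 0 ≤ (Fintype.card F : ℝ) * (∑ u, φ u) ^ 2 := by positivity
  have := mul_le_mul_of_nonneg_right hK p1
  linarith

theorem est (hq : 200000000 ≤ Fintype.card F) (h2 : (2 : F) ≠ 0) (h3 : (3 : F) ≠ 0)
    (i : F) (hi : i ^ 2 = -1) (f : (Fin 5 → F) → ℂ) :
    (Fintype.card F : ℝ) ^ (-(5 : ℝ) * (7 / 20 : ℝ)) *
      (∑ y, ‖(((HH F).card : ℂ))⁻¹ * ∑ x ∈ HH F, f (y - x)‖ ^ (20 / 7 : ℝ)) ^ (7 / 20 : ℝ)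
    ≤ (192 * 102 : ℝ) ^ (7 / 20 : ℝ) * ((Fintype.card F : ℝ) ^ (-(5 : ℝ) * (7 / 10 : ℝ)) *
      (∑ x, ‖f x‖ ^ (10 / 7 : ℝ)) ^ (7 / 10 : ℝ)) := by
  by_cases hf : f = 0
  · subst hf
    simp
  have hq1 : (1 : ℝ) ≤ (Fintype.card F : ℝ) := by exact_mod_cast Fintype.card_pos
  obtain ⟨τ, hτ1, hτ⟩ : ∃ τ : ℝ, 1 ≤ τ ∧ τ ^ 10 = (Fintype.card F : ℝ) := by
    refine ⟨(Fintype.card F : ℝ) ^ (1 / 10 : ℝ), Real.one_le_rpow hq1 (by norm_num), ?_⟩
    rw [← Real.rpow_natCast, ← Real.rpow_mul (by linarith)]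
    norm_num
  have hτ0 : 0 < τ := by linarith
  obtain ⟨g, hg0, hg7⟩ : ∃ g : (Fin 5 → F) → ℝ, (∀ x, 0 ≤ g x) ∧ ∀ x, g x ^ 7 = ‖f x‖ := by
    refine ⟨fun x => ‖f x‖ ^ (1 / 7 : ℝ), fun x => by positivity, fun x => ?_⟩
    rw [← Real.rpow_natCast, ← Real.rpow_mul (norm_nonneg _)]
    norm_num
  have hg10 : ∀ x, ‖f x‖ ^ (10 / 7 : ℝ) = g x ^ 10 := fun x => by
    rw [← hg7]; exact pow_rpow_eq _ (hg0 x) 7 10 _ (by norm_num)
  have hpos : 0 < ∑ x, g x ^ 10 := by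
    obtain ⟨x, hx⟩ := Function.ne_iff.1 hf
    have hx' : 0 < g x := by
      rcases (hg0 x).eq_or_lt with h | h
      · exfalso
        apply hx
        have := hg7 x
        rw [← h] at this
        simpa using this.symm
      · exact h
    exact sum_pos' (fun x _ => pow_nonneg (hg0 x) 10) ⟨x, mem_univ _, pow_pos hx' 10⟩
  obtain ⟨θ, hθ, hs⟩ : ∃ θ : ℝ, 0 < θ ∧ ∑ x, g x ^ 10 = θ ^ 10 * τ ^ 50 := by
    generalize ∑ x, g x ^ 10 = A at hpos
    have hA : 0 < A / τ ^ 50 := by positivity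
    refine ⟨(A / τ ^ 50) ^ (1 / 10 : ℝ), Real.rpow_pos_of_pos hA _, ?_⟩
    rw [← Real.rpow_natCast (_ ^ (1 / 10 : ℝ)), ← Real.rpow_mul hA.le]
    norm_num
    field_simp
  have hH : τ ^ 30 / 2 ≤ ((HH F).card : ℝ) := by
    have := card_HH_ge hq h2 h3
    rw [← hτ] at this
    calc _ = (τ ^ 10) ^ 3 / 2 := by ring
      _ ≤ _ := this
  have hmain := main_bound (HH F) τ θ 102 hτ1 hθ (by norm_num) hH (fun φ hφ => by
    have := L2_HH (by omega) h2 h3 i hi φ hφ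
    rw [← hτ] at this
    calc _ ≤ _ := this
      _ = _ := by ring) g hg0 hs
  have hle : ∑ y, ‖(((HH F).card : ℂ))⁻¹ * ∑ x ∈ HH F, f (y - x)‖ ^ (20 / 7 : ℝ)
      ≤ 192 * 102 * (θ ^ 20 * τ ^ 50) := by
    refine le_trans (sum_le_sum fun y _ => ?_) hmain
    apply Real.rpow_le_rpow (norm_nonneg _) _ (by norm_num)
    rw [norm_mul, norm_inv, Complex.norm_natCast]
    apply mul_le_mul_of_nonneg_left _ (by positivity)
    simp_rw [hg7]
    exact norm_sum_le _ _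
  have hle2 : (∑ y, ‖(((HH F).card : ℂ))⁻¹ * ∑ x ∈ HH F, f (y - x)‖ ^ (20 / 7 : ℝ)) ^ (7 / 20 : ℝ)
      ≤ (192 * 102 * (θ ^ 20 * τ ^ 50)) ^ (7 / 20 : ℝ) :=
    Real.rpow_le_rpow (sum_nonneg fun y _ => by positivity) hle (by norm_num)
  refine le_trans (mul_le_mul_of_nonneg_left hle2 (by positivity)) (le_of_eq ?_)
  simp_rw [hg10]
  rw [hs, ← hτ, Real.mul_rpow (x := 192 * 102) (by norm_num) (by positivity),
    Real.mul_rpow (x := θ ^ 20) (by positivity) (by positivity),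
    Real.mul_rpow (x := θ ^ 10) (by positivity) (by positivity),
    pow_rpow_eq θ hθ.le 20 7 _ (by norm_num), pow_rpow_eq θ hθ.le 10 7 _ (by norm_num)]
  have e1 : (τ ^ 10) ^ (-(5 : ℝ) * (7 / 20 : ℝ)) * (τ ^ 50) ^ (7 / 20 : ℝ) = 1 := by
    rw [← Real.rpow_natCast τ 10, ← Real.rpow_natCast τ 50, ← Real.rpow_mul hτ0.le,
      ← Real.rpow_mul hτ0.le, ← Real.rpow_add hτ0]
    norm_num
  have e2 : (τ ^ 10) ^ (-(5 : ℝ) * (7 / 10 : ℝ)) * (τ ^ 50) ^ (7 / 10 : ℝ) = 1 := by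
    rw [← Real.rpow_natCast τ 10, ← Real.rpow_natCast τ 50, ← Real.rpow_mul hτ0.le,
      ← Real.rpow_mul hτ0.le, ← Real.rpow_add hτ0]
    norm_num
  linear_combination ((192 * 102 : ℝ) ^ (7 / 20 : ℝ) * θ ^ 7) * (e1 - e2)

end Pool.Agent.Lib.MP_a1ab69_an
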