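import Pool.Agent.Lib.MP_a1ab69_an.SharpB

/-! From a chain of `ℓ¹ × ℓ¹ + ℓ² × ℓ²` estimates to the strong endpoint estimate. -/

set_option autoImplicit false
open scoped ENNReal

namespace Pool.Agent.Lib.MP_a1ab69_an.Q1

open Finset Pool.Agent.Lib.MP_a1ab69_an.Sharp

theorem geom (A : Finset ℤ) : ∀ R : ℝ, 0 ≤ R → (∀ a ∈ A, (2 : ℝ) ^ a ≤ R) →
    ∑ a ∈ A, (2 : ℝ) ^ a ≤ 2 * R := by
  induction A using Finset.induction_on_max with
  | empty => intro R hR _; simpa using hR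
  | insert a s ha ih =>
    intro R _ h
    have hn : a ∉ s := fun e => lt_irrefl _ (ha a e)
    have h1 := ih ((2 : ℝ) ^ a / 2) (by positivity) fun b hb => by
      rw [div_eq_mul_inv, ← zpow_sub_one₀ two_ne_zero]
      exact zpow_le_zpow_right₀ one_le_two (by have := ha b hb; omega)
    rw [sum_insert hn]
    have := h a (mem_insert_self _ _)
    linarith

variable {G : Type} [AddCommGroup G] [Fintype G]

/-- the estimate of one level -/
def Lev (H : Finset G) (α β : ℝ) : Prop :=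
  ∀ u v : G → ℝ, (∀ x, 0 ≤ u x) → (∀ x, 0 ≤ v x) → ∀ γ : ℝ, 0 < γ →
    bil H u v ≤ α * ((∑ x, u x) * ∑ x, v x) + β * (γ * ∑ x, u x ^ 2 + (∑ x, v x ^ 2) / γ)

theorem dyadic (H : Finset G) {α β : ℝ} (hα : 0 ≤ α) (hβ : 0 ≤ β) (hL : Lev H α β) (D h : ℕ)
    (hh : 0 < h) (σ τ : G → ℝ) (hσ : ∀ x, 0 ≤ σ x) (hτ : ∀ x, 0 ≤ τ x) (N : ℝ)
    (sσ : ∑ x, σ x ^ (2 * D + 2 * h) ≤ N) (sτ : ∑ x, τ x ^ (2 * D + 2 * h) ≤ N)
    {l L : ℝ} (hl : 0 < l) (hL0 : 0 < L) :
    ∑ y, ∑ x ∈ H, (if l ≤ σ (y - x) * τ y ∧ σ (y - x) * τ y ≤ L then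
      (σ (y - x) * τ y) ^ (D + 2 * h) else 0) ≤
      α * (2 / l) ^ D * N ^ 2 + β * L ^ h * (4 ^ h + 2) * N := by
  classical
  set c : G → ℤ := fun x => Int.log 2 (σ x) with hc
  set A : Finset ℤ := univ.image c with hA
  set u : ℤ → G → ℝ := fun a x => if c x = a ∧ 0 < σ x then σ x ^ (D + 2 * h) else 0 with hu
  set v : ℤ → G → ℝ := fun a y =>
    if l ≤ 2 * 2 ^ a * τ y ∧ 2 ^ a * τ y ≤ L then τ y ^ (D + 2 * h) else 0 with hv
  set e : ℤ → ℝ := fun a => ∑ x, if c x = a then σ x ^ (2 * D + 2 * h) else 0 with he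
  have u0 : ∀ a x, 0 ≤ u a x := fun a x => by
    simp only [hu]; split_ifs; exacts [pow_nonneg (hσ x) _, le_rfl]
  have v0 : ∀ a x, 0 ≤ v a x := fun a x => by
    simp only [hv]; split_ifs; exacts [pow_nonneg (hτ x) _, le_rfl]
  have e0 : ∀ a, 0 ≤ e a := fun a => sum_nonneg fun x _ => by
    split_ifs; exacts [pow_nonneg (hσ x) _, le_rfl]
  have N0 : 0 ≤ N := (sum_nonneg fun x _ => pow_nonneg (hσ x) _).trans sσ
  have se : ∑ a ∈ A, e a ≤ N := by
    refine le_trans (le_of_eq ?_) sσ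
    rw [he, sum_comm]
    refine sum_congr rfl fun x _ => ?_
    rw [sum_ite_eq, if_pos (mem_image_of_mem c (mem_univ x))]
  have lo : ∀ x, 0 < σ x → (2 : ℝ) ^ c x ≤ σ x := fun x hx => by
    exact_mod_cast Int.zpow_log_le_self (b := 2) (by norm_num) hx
  have hi : ∀ x, σ x ≤ 2 * (2 : ℝ) ^ c x := fun x => by
    have := Int.lt_zpow_succ_log_self (b := 2) (by norm_num) (σ x)
    rw [zpow_add_one₀ (by norm_num)] at this
    push_cast at this
    linarith
  have step : ∑ y, ∑ x ∈ H, (if l ≤ σ (y - x) * τ y ∧ σ (y - x) * τ y ≤ L then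
      (σ (y - x) * τ y) ^ (D + 2 * h) else 0) ≤ ∑ a ∈ A, bil H (u a) (v a) := by
    unfold bil
    rw [sum_comm (s := A)]
    refine sum_le_sum fun y _ => ?_
    rw [sum_comm (s := A)]
    refine sum_le_sum fun x _ => ?_
    split_ifs with h1
    · refine le_trans (le_of_eq ?_) (single_le_sum (f := fun a => u a (y - x) * v a y)
        (fun a _ => mul_nonneg (u0 _ _) (v0 _ _)) (mem_image_of_mem c (mem_univ (y - x))))
      have hp : 0 < σ (y - x) := (hσ _).lt_of_ne fun e => by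
        rw [← e, zero_mul] at h1; linarith [h1.1]
      simp only [hu, hv]
      rw [if_pos ⟨trivial, hp⟩, if_pos ⟨h1.1.trans (mul_le_mul_of_nonneg_right (hi _) (hτ y)),
        (mul_le_mul_of_nonneg_right (lo _ hp) (hτ y)).trans h1.2⟩, mul_pow]
    · exact sum_nonneg fun a _ => mul_nonneg (u0 _ _) (v0 _ _)
  have one : ∀ a, bil H (u a) (v a) ≤ α * ((2 / l) ^ D * N * e a) + β * (L ^ h * 4 ^ h * e a +
      L ^ h * ∑ y, τ y ^ (2 * D + 2 * h) * (if 2 ^ a * τ y ≤ L then 2 ^ a * τ y / L else 0)) := by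
    intro a
    have r0 : (0 : ℝ) < 2 ^ a := by positivity
    generalize hr : (2 : ℝ) ^ a = r at r0
    have a1 : ∑ x, u a x ≤ e a / r ^ D := by
      rw [he, sum_div]
      refine sum_le_sum fun x _ => ?_
      simp only [hu]
      split_ifs with h1 h2 h3
      · rw [le_div_iff₀ (by positivity), show 2 * D + 2 * h = D + 2 * h + D by ring, pow_add _ _ D]
        refine mul_le_mul_of_nonneg_left (pow_le_pow_left₀ r0.le ?_ _) (pow_nonneg (hσ x) _)
        rw [← hr, ← h2]; exact lo x h1.2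
      · exact absurd h1.1 h2
      · have := hσ x; positivity
      · simp
    have a2 : ∑ y, v a y ≤ (2 * r / l) ^ D * N := by
      refine le_trans ?_ (mul_le_mul_of_nonneg_left sτ (by positivity))
      rw [mul_sum]
      refine sum_le_sum fun y _ => ?_
      have := hτ y
      simp only [hv, hr]
      split_ifs with h1
      · rw [show 2 * D + 2 * h = D + (D + 2 * h) by ring, pow_add _ D (D + 2 * h), ← mul_assoc,
          ← mul_pow]
        refine le_mul_of_one_le_left (by positivity) (one_le_pow₀ ?_)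
        rw [div_mul_eq_mul_div, le_div_iff₀ hl]; linarith [h1.1]
      · positivity
    have a3 : ∑ x, u a x ^ 2 ≤ (2 * r) ^ (2 * h) * e a := by
      rw [he, mul_sum]
      refine sum_le_sum fun x _ => ?_
      have := hσ x
      simp only [hu]
      split_ifs with h1 h2 h3
      · rw [← pow_mul, show (D + 2 * h) * 2 = 2 * h + (2 * D + 2 * h) by ring, pow_add]
        refine mul_le_mul_of_nonneg_right (pow_le_pow_left₀ this ?_ _) (by positivity)
        rw [← hr, ← h2]; exact hi x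
      · exact absurd h1.1 h2
      · rw [zero_pow two_ne_zero]; positivity
      · simp
    have a4 : (∑ y, v a y ^ 2) / (L ^ h / r ^ (2 * h)) ≤ L ^ h *
        ∑ y, τ y ^ (2 * D + 2 * h) * (if r * τ y ≤ L then r * τ y / L else 0) := by
      rw [sum_div, mul_sum]
      refine sum_le_sum fun y _ => ?_
      have := hτ y
      simp only [hv, hr]
      split_ifs with h1 h2 h3
      · have b1 : (r * τ y / L) ^ (2 * h) ≤ r * τ y / L :=
          pow_le_of_le_one (by positivity) ((div_le_one hL0).2 h2) (by omega)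
        calc _ = L ^ h * (τ y ^ (2 * D + 2 * h) * (r * τ y / L) ^ (2 * h)) := by
              rw [div_pow, mul_pow]; field_simp; ring
          _ ≤ _ := by gcongr
      · exact absurd h1.2 h2
      · rw [zero_pow two_ne_zero, zero_div]; positivity
      · simp
    refine (hL _ _ (u0 a) (v0 a) (L ^ h / r ^ (2 * h)) (by positivity)).trans (add_le_add
      (mul_le_mul_of_nonneg_left ?_ hα) (mul_le_mul_of_nonneg_left (add_le_add ?_ a4) hβ))
    · refine (mul_le_mul a1 a2 (sum_nonneg fun y _ => v0 a y)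
        (div_nonneg (e0 a) (by positivity))).trans (le_of_eq ?_)
      rw [div_pow, div_pow, mul_pow]; field_simp
    · refine (mul_le_mul_of_nonneg_left a3 (by positivity)).trans (le_of_eq ?_)
      rw [mul_pow, pow_mul (2 : ℝ)]; field_simp; norm_num [mul_comm]
  have tail : ∑ a ∈ A, ∑ y, τ y ^ (2 * D + 2 * h) *
      (if 2 ^ a * τ y ≤ L then 2 ^ a * τ y / L else 0) ≤ 2 * N := by
    rw [sum_comm]
    refine le_trans ?_ (mul_le_mul_of_nonneg_left sτ two_pos.le)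
    rw [mul_sum]
    refine sum_le_sum fun y _ => ?_
    rw [← mul_sum, mul_comm (2 : ℝ)]
    refine mul_le_mul_of_nonneg_left ?_ (pow_nonneg (hτ y) _)
    rcases (hτ y).eq_or_lt with h0 | h0
    · simp [← h0]
    · rw [← sum_filter, ← sum_div, ← sum_mul, div_le_iff₀ hL0, ← le_div_iff₀ h0, mul_div_assoc]
      exact geom _ _ (by positivity) fun a ha => (le_div_iff₀ h0).2 (mem_filter.1 ha).2
  refine step.trans ((sum_le_sum fun a _ => one a).trans ?_)
  simp only [sum_add_distrib, ← mul_sum]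
  calc _ ≤ α * ((2 / l) ^ D * N * N) + β * (L ^ h * 4 ^ h * N + L ^ h * (2 * N)) := by gcongr
    _ = _ := by ring

/-- the chain of estimates gives the endpoint -/
theorem endpoint (H : Finset G) (D h : ℕ) (hh : 0 < h) (S K N : ℝ) (hS : 1 < S)
    (hN : (Fintype.card G : ℝ) = N) (h0 : N ≤ K * H.card * (S ^ D) ^ D)
    (hL : ∀ i < D, ∃ α β : ℝ, 0 ≤ α ∧ 0 ≤ β ∧ Lev H α β ∧ α * N ≤ K * H.card * (S ^ i) ^ D ∧
      β * (S ^ (i + 1)) ^ h ≤ K * H.card)
    (σ τ : G → ℝ) (hσ : ∀ x, 0 ≤ σ x) (hτ : ∀ x, 0 ≤ τ x)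
    (sσ : ∑ x, σ x ^ (2 * D + 2 * h) ≤ N) (sτ : ∑ x, τ x ^ (2 * D + 2 * h) ≤ N) :
    bil H (fun x => σ x ^ (D + 2 * h)) (fun x => τ x ^ (D + 2 * h)) ≤
      (1 + K + D * (K * (2 ^ D + 4 ^ h + 2))) * (H.card * N) := by
  classical
  have S0 : 0 < S := by linarith
  have N0 : 0 ≤ N := hN ▸ Nat.cast_nonneg _
  have c0 : (0 : ℝ) ≤ H.card := Nat.cast_nonneg _
  have pw : ∀ ρ : ℝ, 0 ≤ ρ → ρ ^ (D + 2 * h) ≤ 1 + ρ ^ (2 * D + 2 * h) / (S ^ D) ^ D +
      ∑ i ∈ range D, if S ^ i ≤ ρ ∧ ρ ≤ S ^ (i + 1) then ρ ^ (D + 2 * h) else 0 := by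
    intro ρ hρ
    have n1 : ∀ i ∈ range D, 0 ≤ if S ^ i ≤ ρ ∧ ρ ≤ S ^ (i + 1) then ρ ^ (D + 2 * h) else 0 :=
      fun i _ => by split_ifs <;> positivity
    have n2 := sum_nonneg n1
    have n3 : 0 ≤ ρ ^ (2 * D + 2 * h) / (S ^ D) ^ D := by positivity
    rcases le_total ρ 1 with h1 | h1
    · have := pow_le_one₀ hρ h1 (n := D + 2 * h); linarith
    rcases le_or_gt (S ^ D) ρ with h2 | h2
    · have : ρ ^ (D + 2 * h) ≤ ρ ^ (2 * D + 2 * h) / (S ^ D) ^ D := by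
        rw [le_div_iff₀ (by positivity), show 2 * D + 2 * h = D + 2 * h + D by ring, pow_add ρ _ D]
        gcongr
      linarith
    · obtain ⟨i, i1, i2⟩ := exists_nat_pow_near h1 hS
      have := single_le_sum n1 (mem_range.2 ((pow_lt_pow_iff_right₀ hS).1 (i1.trans_lt h2)))
      rw [if_pos ⟨i1, i2.le⟩] at this
      linarith
  have step : bil H (fun x => σ x ^ (D + 2 * h)) (fun x => τ x ^ (D + 2 * h)) ≤
      bil H (fun _ => 1) (fun _ => 1) + bil H (fun x => σ x ^ (2 * D + 2 * h))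
        (fun x => τ x ^ (2 * D + 2 * h)) / (S ^ D) ^ D + ∑ i ∈ range D, ∑ y, ∑ x ∈ H,
        if S ^ i ≤ σ (y - x) * τ y ∧ σ (y - x) * τ y ≤ S ^ (i + 1) then
          (σ (y - x) * τ y) ^ (D + 2 * h) else 0 := by
    unfold bil
    rw [sum_comm (s := range D), sum_div]
    simp only [← sum_add_distrib]
    refine sum_le_sum fun y _ => ?_
    rw [sum_comm (s := range D), sum_div]
    simp only [← sum_add_distrib]
    refine sum_le_sum fun x _ => ?_
    rw [← mul_pow, ← mul_pow, mul_one]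
    exact pw _ (mul_nonneg (hσ _) (hτ _))
  have b1 : bil H (fun _ => 1) (fun _ => 1) = H.card * N := by
    rw [bil_one_left]; simp [hN]
  have b2 : bil H (fun x => σ x ^ (2 * D + 2 * h)) (fun x => τ x ^ (2 * D + 2 * h)) /
      (S ^ D) ^ D ≤ K * (H.card * N) := by
    rw [div_le_iff₀ (by positivity)]
    calc _ ≤ _ := bil_le_l1 H _ _ (fun u => pow_nonneg (hσ u) _) (fun u => pow_nonneg (hτ u) _)
      _ ≤ N * N := mul_le_mul sσ sτ (sum_nonneg fun u _ => pow_nonneg (hτ u) _) N0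
      _ ≤ K * H.card * (S ^ D) ^ D * N := by gcongr
      _ = _ := by ring
  have b3 : ∀ i ∈ range D, (∑ y, ∑ x ∈ H,
      if S ^ i ≤ σ (y - x) * τ y ∧ σ (y - x) * τ y ≤ S ^ (i + 1) then
        (σ (y - x) * τ y) ^ (D + 2 * h) else 0) ≤ K * (2 ^ D + 4 ^ h + 2) * (H.card * N) := by
    intro i hi
    obtain ⟨α, β, a0, b0, hl, a1, a2⟩ := hL i (mem_range.1 hi)
    refine (dyadic H a0 b0 hl D h hh σ τ hσ hτ N sσ sτ (by positivity) (by positivity)).trans ?_
    have a3 : α * N / (S ^ i) ^ D ≤ K * H.card := (div_le_iff₀ (by positivity)).2 a1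
    calc _ = α * N / (S ^ i) ^ D * (2 ^ D * N) + β * (S ^ (i + 1)) ^ h * ((4 ^ h + 2) * N) := by
          rw [div_pow]; ring
      _ ≤ K * H.card * (2 ^ D * N) + K * H.card * ((4 ^ h + 2) * N) := by gcongr
      _ = _ := by ring
  have b4 := sum_le_card_nsmul _ _ _ b3
  rw [card_range, nsmul_eq_mul] at b4
  linarith

/-- a log-linear function is maximal at a vertex -/
theorem vertex' (θ : ℝ) (h0 : 0 ≤ θ) (A B : ℝ) (hA : 0 ≤ A) (hB : 0 ≤ B) (P : ℝ × ℝ)
    (hP : P ∈ convexHull ℝ ({((0 : ℝ), (0 : ℝ)), ((0 : ℝ), (1 : ℝ)), ((1 : ℝ), (1 : ℝ)),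
      (θ, 1 - θ)} : Set (ℝ × ℝ))) : A ^ P.1 * B ^ (1 - P.2) ≤ 1 + A + B + A ^ θ * B ^ θ := by
  have p : 0 ≤ A ^ θ * B ^ θ := by positivity
  set T := 1 + A + B + A ^ θ * B ^ θ with hT
  have T0 : 0 < T := by positivity
  refine (convexHull_min (t := {P : ℝ × ℝ | 0 ≤ P.1 ∧ 0 ≤ 1 - P.2 ∧ A ^ P.1 * B ^ (1 - P.2) ≤ T})
    ?_ ?_ hP).2.2
  · intro z hz
    simp only [Set.mem_insert_iff, Set.mem_singleton_iff] at hz
    rcases hz with rfl | rfl | rfl | rfl <;> simp [h0] <;> linarith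
  · rintro u ⟨u1, u2, u3⟩ v ⟨v1, v2, v3⟩ a b ha hb hab
    have e : 1 - (a * u.2 + b * v.2) = (1 - u.2) * a + (1 - v.2) * b := by linear_combination -hab
    simp only [Set.mem_ofPred_eq, Prod.fst_add, Prod.snd_add, Prod.smul_fst, Prod.smul_snd,
      smul_eq_mul, e]
    refine ⟨by positivity, by positivity, ?_⟩
    rw [mul_comm a, mul_comm b, Real.rpow_add_of_nonneg hA (by positivity) (by positivity),
      Real.rpow_add_of_nonneg hB (by positivity) (by positivity), Real.rpow_mul hA,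
      Real.rpow_mul hA, Real.rpow_mul hB, Real.rpow_mul hB, mul_mul_mul_comm,
      ← Real.mul_rpow (by positivity) (by positivity),
      ← Real.mul_rpow (by positivity) (by positivity)]
    calc _ ≤ T ^ a * T ^ b := by gcongr
      _ = T := by rw [← Real.rpow_add T0, hab, Real.rpow_one]

/-- the operator bound on the whole quadrilateral -/
theorem op_bound' (H : Finset G) (hH : H.Nonempty) (θ C N : ℝ) (h0 : 0 ≤ θ)
    (hN : (Fintype.card G : ℝ) = N)
    (hE : ∀ Φ Ψ : G → ℝ, (∀ x, 0 ≤ Φ x) → (∀ x, 0 ≤ Ψ x) → ∑ x, Φ x ≤ N → ∑ x, Ψ x ≤ N →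
      bil H (fun x => Φ x ^ θ) (fun x => Ψ x ^ θ) ≤ C * (H.card * N))
    (p r : ℝ≥0∞) (hp : 1 ≤ p) (hr : 1 ≤ r)
    (hP : ((p⁻¹).toReal, (r⁻¹).toReal) ∈ convexHull ℝ ({((0 : ℝ), (0 : ℝ)), ((0 : ℝ), (1 : ℝ)),
      ((1 : ℝ), (1 : ℝ)), (θ, 1 - θ)} : Set (ℝ × ℝ))) (f : G → ℂ) :
    N ^ (-(r⁻¹).toReal) * nrm r (fun y => (H.card : ℂ)⁻¹ * ∑ x ∈ H, f (y - x)) ≤
      (3 + C) * (N ^ (-(p⁻¹).toReal) * nrm p f) := by
  have N0 : 0 < N := hN ▸ Nat.cast_pos.2 Fintype.card_pos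
  have hc0 : (0 : ℝ) < H.card := Nat.cast_pos.2 hH.card_pos
  obtain ⟨Φ, Φ0, Φ1, Φ2⟩ := up p hp f N N0 hN
  obtain ⟨Ψ, Ψ0, Ψ1, Ψ2⟩ := down r hr (fun y => (H.card : ℂ)⁻¹ * ∑ x ∈ H, f (y - x)) N N0
  set P := N ^ (-(p⁻¹).toReal) * nrm p f with hP'
  have P0 : 0 ≤ P := mul_nonneg (by positivity) (nrm_nonneg p hp f)
  have hb : bil H (fun u => Φ u ^ (p⁻¹).toReal) (fun u => Ψ u ^ (1 - (r⁻¹).toReal)) ≤
      (3 + C) * (H.card * N) := by
    have step : bil H (fun u => Φ u ^ (p⁻¹).toReal) (fun u => Ψ u ^ (1 - (r⁻¹).toReal)) ≤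
        bil H (fun _ => 1) (fun _ => 1) + bil H Φ (fun _ => 1) + bil H (fun _ => 1) Ψ +
          bil H (fun x => Φ x ^ θ) (fun x => Ψ x ^ θ) := by
      unfold bil
      simp only [← sum_add_distrib]
      refine sum_le_sum fun y _ => sum_le_sum fun x _ => ?_
      simpa using vertex' θ h0 _ _ (Φ0 (y - x)) (Ψ0 y) _ hP
    have b1 : bil H (fun _ => 1) (fun _ => 1) = H.card * N := by
      rw [bil_one_left]; simp [hN]
    have b2 : bil H Φ (fun _ => 1) ≤ H.card * N := by rw [bil_one_right]; gcongr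
    have b3 : bil H (fun _ => 1) Ψ ≤ H.card * N := by rw [bil_one_left]; gcongr
    have b4 := hE Φ Ψ Φ0 Ψ0 Φ1 Ψ1
    linarith
  have key : ∑ u, ‖(H.card : ℂ)⁻¹ * ∑ x ∈ H, f (u - x)‖ * Ψ u ^ (1 - (r⁻¹).toReal) ≤
      (H.card : ℝ)⁻¹ * P * bil H (fun u => Φ u ^ (p⁻¹).toReal)
        (fun u => Ψ u ^ (1 - (r⁻¹).toReal)) := by
    unfold bil
    rw [mul_sum]
    refine sum_le_sum fun y _ => ?_
    rw [← sum_mul, ← mul_assoc]
    refine mul_le_mul_of_nonneg_right ?_ (Real.rpow_nonneg (Ψ0 y) _)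
    rw [norm_mul, norm_inv, Complex.norm_natCast, mul_assoc]
    refine mul_le_mul_of_nonneg_left ?_ (by positivity)
    rw [mul_sum]
    exact (norm_sum_le _ _).trans (sum_le_sum fun x _ => Φ2 _)
  have fin := Ψ2.trans (key.trans (mul_le_mul_of_nonneg_left hb (by positivity)))
  have e : (H.card : ℝ)⁻¹ * P * ((3 + C) * (H.card * N)) = N * ((3 + C) * P) := by
    field_simp
  rw [e] at fin
  exact le_of_mul_le_mul_left fin N0

theorem mem_quad (θ x y : ℝ) (h0 : 0 < θ) (hx : 0 ≤ x) (hy : y ≤ 1)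
    (h1 : θ * x + (1 - θ) * (1 - y) ≤ θ) (h2 : (1 - θ) * x ≤ θ * y) :
    (x, y) ∈ convexHull ℝ ({((0 : ℝ), (0 : ℝ)), ((0 : ℝ), (1 : ℝ)), ((1 : ℝ), (1 : ℝ)),
      (θ, 1 - θ)} : Set (ℝ × ℝ)) := by
  set S : Set (ℝ × ℝ) := {((0 : ℝ), (0 : ℝ)), ((0 : ℝ), (1 : ℝ)), ((1 : ℝ), (1 : ℝ)),
    (θ, 1 - θ)} with hS
  have comb : ∀ a b c d : ℝ, 0 ≤ a → 0 ≤ b → 0 ≤ c → 0 ≤ d → a + b + c + d = 1 →
      (c + θ * d, b + c + (1 - θ) * d) ∈ convexHull ℝ S := by
    intro a b c d ha hb hc hd hs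
    have := (convex_convexHull ℝ S).sum_mem (t := (univ : Finset (Fin 4))) (w := ![a, b, c, d])
      (z := ![((0 : ℝ), (0 : ℝ)), (0, 1), (1, 1), (θ, 1 - θ)])
      (fun i _ => by fin_cases i <;> simpa) (by simpa [Fin.sum_univ_four] using hs)
      (fun i _ => subset_convexHull ℝ S (by fin_cases i <;> simp [hS]))
    convert this using 1
    simp only [Fin.sum_univ_four]
    ext <;> simp <;> ring
  rcases le_total (1 - y) x with h | h
  · have := comb 0 ((θ - θ * x - (1 - θ) * (1 - y)) / θ) (x - (1 - y)) ((1 - y) / θ) le_rfl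
      (div_nonneg (by linarith) h0.le) (by linarith) (div_nonneg (by linarith) h0.le)
      (by field_simp; ring)
    convert this using 2 <;> field_simp <;> ring
  · have := comb (1 - y - x) ((θ * y - (1 - θ) * x) / θ) 0 (x / θ) (by linarith)
      (div_nonneg (by linarith) h0.le) le_rfl (div_nonneg hx h0.le) (by field_simp; ring)
    convert this using 2 <;> field_simp <;> ring

end Pool.Agent.Lib.MP_a1ab69_an.Q1
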