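import Pool.Agent.Lib.MP_a1ab69_an.Q1Var

/-! The chain of levels for `H_k`, `k = 2h`, codimension `D ≤ h`. -/

set_option autoImplicit false

namespace Pool.Agent.Lib.MP_a1ab69_an.Q1

open Finset Polynomial Pool.Agent.Lib.MP_a1ab69_an.Sharp

variable {F : Type} [Field F] [Fintype F] [DecidableEq F]

theorem neg_mem {d k : ℕ} {z : Fin d → F} (hz : z ∈ HV d k F) : -z ∈ HV d k F := by
  simp only [HV, mem_filter, mem_univ, true_and, Pi.neg_apply] at hz ⊢
  intro i hi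
  simp only [neg_pow (z _), ← mul_sum, hz i hi]

theorem zero_mem (d k : ℕ) : (0 : Fin d → F) ∈ HV d k F := by simp [HV]

omit [Fintype F] [DecidableEq F] in
theorem sum_lt {d e k : ℕ} (he : e ≤ d) (hk : k ≤ e) (g : Fin d → F) :
    ∑ l : Fin e with l.val < k, g (Fin.castLE he l) = ∑ l : Fin d with l.val < k, g l := by
  refine sum_bij (fun l _ => Fin.castLE he l) (fun l hl => by simpa using hl)
    (fun a _ b _ h => Fin.castLE_injective he h) (fun l hl => ?_) fun _ _ => rfl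
  have := (mem_filter.1 hl).2
  exact ⟨⟨l.val, by omega⟩, by simpa using this, rfl⟩

theorem roots_le (n : ℕ) (hn : 0 < n) (c : F) : #{x : F | x ^ n = c} ≤ n := by
  refine le_trans (card_le_card fun x hx => ?_) ((Multiset.toFinset_card_le _).trans
    (card_nthRoots n c))
  exact Multiset.mem_toFinset.2 ((mem_nthRoots hn).2 (mem_filter.1 hx).2)

theorem level {d e k : ℕ} (he : e ≤ d) (hk : k ≤ e) {ψ : AddChar F ℂ} (hψ : ψ.IsPrimitive)
    (Λ : ℝ) (hΛ : 0 ≤ Λ) (hH : ∀ m, ‖∑ x ∈ HV e k F, EE ψ m x -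
      if m = 0 then (Fintype.card F : ℂ) ^ k else 0‖ ≤ Λ) :
    Lev (HV d k F) (((d + 1) ^ d : ℕ) * ((Fintype.card F : ℝ) ^ k / (Fintype.card F : ℝ) ^ e))
      (((d + 1) ^ d : ℕ) * Λ) := by
  have q0 : (0 : ℝ) < Fintype.card F := Nat.cast_pos.2 Fintype.card_pos
  let π : (Fin d → F) →+ (Fin e → F) :=
    { toFun := fun z c => z (Fin.castLE he c), map_zero' := rfl, map_add' := fun _ _ => rfl }
  refine project π _ (HV e k F) _ (fun z hz => ?_) (fun w => ?_) (by positivity)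
    (mixing (EE ψ) _ (by positivity) (fun a => ?_) 0 (fun a => by simp [EE_apply]) _ _ Λ hΛ
      fun m => by simpa using hH m)
  · simp only [HV, mem_filter, mem_univ, true_and] at hz ⊢
    intro i hi
    exact (sum_lt he hk fun l => z l ^ (i.val - k + 2)).trans (hz (Fin.castLE he i) hi)
  · rcases ({z ∈ HV d k F | π z = w} : Finset _).eq_empty_or_nonempty with h | ⟨z0, h0⟩
    · simp [h]
    have key : ∀ z ∈ ({z ∈ HV d k F | π z = w} : Finset _), ∀ l : Fin d, l.val < k →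
        z l = z0 l := fun z hz l hl =>
      congrFun ((mem_filter.1 hz).2.trans (mem_filter.1 h0).2.symm) ⟨l.val, by omega⟩
    refine (card_le_card (t := Fintype.piFinset fun i : Fin d => if i.val < k then {z0 i} else
      univ.filter fun x : F => x ^ (i.val - k + 2) = z0 i ^ (i.val - k + 2)) fun z hz => ?_).trans ?_
    · refine Fintype.mem_piFinset.2 fun i => ?_
      split_ifs with h
      · simpa using key z hz i h
      · have a := (mem_filter.1 (mem_filter.1 hz).1).2 i (by omega)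
        have b := (mem_filter.1 (mem_filter.1 h0).1).2 i (by omega)
        refine mem_filter.2 ⟨mem_univ _, ?_⟩
        rw [← a, ← b]
        exact sum_congr rfl fun l hl => by rw [key z hz l (mem_filter.1 hl).2]
    · rw [Fintype.card_piFinset]
      refine (prod_le_pow_card _ _ (d + 1) fun i _ => ?_).trans (by simp)
      split_ifs
      · simp
      · exact (roots_le _ (Nat.succ_pos _) _).trans (by have := i.2; omega)
  · simpa using orth hψ a

theorem cone_eq (k : ℕ) : HV (k + 1) k F =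
    univ.filter fun z => ∑ c : Fin (k + 1), (if c.val < k then 1 else -1 : F) * z c ^ 2 = 0 := by
  ext z
  simp only [HV, mem_filter, mem_univ, true_and, sum_filter]
  have e : ∀ n : ℕ, (∑ l : Fin (k + 1), if l.val < k then z l ^ n else 0) =
      ∑ l : Fin k, z l.castSucc ^ n := fun n => by simp [Fin.sum_univ_castSucc]
  simp only [e]
  rw [Fin.sum_univ_castSucc]
  constructor
  · intro h
    have := h (Fin.last k) (by simp)
    simp only [Fin.val_last, Nat.sub_self, zero_add] at this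
    simp [this]
  · intro h i hi
    obtain rfl : i = Fin.last k := Fin.ext (by have := i.2; simp; omega)
    simpa [add_neg_eq_zero] using h

theorem card_near {d k : ℕ} (hk : k ≤ d) (hd : d < 2 * k)
    (hc : ∀ n : ℕ, 0 < n → n ≤ d + 1 → (n : F) ≠ 0)
    (hq : 2 * (2 * (d + 1)) ^ d ≤ √(Fintype.card F : ℝ)) :
    (Fintype.card F : ℝ) ^ k ≤ 2 * #(HV d k F) ∧ (#(HV d k F) : ℝ) ≤ 2 * (Fintype.card F : ℝ) ^ k := by
  have h1 := hat_weil (AddChar.FiniteField.primitiveChar_to_Complex_isPrimitive F) d k hk hc 0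
  simp only [EE_apply, Pi.zero_apply, zero_mul, sum_const_zero, AddChar.map_zero_eq_one, sum_const,
    nsmul_eq_mul, mul_one, if_true] at h1
  have h2 : |(#(HV d k F) : ℝ) - (Fintype.card F : ℝ) ^ k| ≤
      (2 * (d + 1) * √(Fintype.card F : ℝ)) ^ d := by
    rw [← Real.norm_eq_abs, ← Complex.norm_real]
    push_cast
    exact h1
  have w1 : 1 ≤ √(Fintype.card F : ℝ) := Real.one_le_sqrt.2 (Nat.one_le_cast.2 Fintype.card_pos)
  have h3 : 2 * (2 * (d + 1) * √(Fintype.card F : ℝ)) ^ d ≤ (Fintype.card F : ℝ) ^ k := by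
    calc _ = 2 * (2 * (d + 1)) ^ d * √(Fintype.card F : ℝ) ^ d := by rw [mul_pow _ (√_)]; ring
      _ ≤ √(Fintype.card F : ℝ) * √(Fintype.card F : ℝ) ^ d := by gcongr
      _ ≤ √(Fintype.card F : ℝ) ^ (2 * k) := by
        rw [← pow_succ']; exact pow_le_pow_right₀ w1 hd
      _ = _ := by rw [pow_mul, Real.sq_sqrt (Nat.cast_nonneg _)]
  have h4 := abs_le.1 h2
  have h5 : (0 : ℝ) ≤ (Fintype.card F : ℝ) ^ k := by positivity
  constructor <;> linarith [h4.1, h4.2]

/-- the endpoint estimate -/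
theorem main (D h : ℕ) (hD : 0 < D) (hh : D ≤ h)
    (hc : ∀ n : ℕ, 0 < n → n ≤ 2 * h + D + 1 → (n : F) ≠ 0)
    (hq : 2 * (2 * ((2 * h + D : ℕ) + 1)) ^ (2 * h + D) ≤ √(Fintype.card F : ℝ))
    (K : ℝ) (hK : K = 2 * ((2 * h + D + 1) ^ (2 * h + D) : ℕ) *
      (2 * ((2 * h + D : ℕ) + 1)) ^ (2 * h + D))
    (Φ Ψ : (Fin (2 * h + D) → F) → ℝ) (Φ0 : ∀ x, 0 ≤ Φ x) (Ψ0 : ∀ x, 0 ≤ Ψ x)
    (Φ1 : ∑ x, Φ x ≤ (Fintype.card F : ℝ) ^ (2 * h + D))
    (Ψ1 : ∑ x, Ψ x ≤ (Fintype.card F : ℝ) ^ (2 * h + D)) :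
    bil (HV (2 * h + D) (2 * h) F) (fun x => Φ x ^ (((D + 2 * h : ℕ) : ℝ) / (2 * D + 2 * h : ℕ)))
      (fun x => Ψ x ^ (((D + 2 * h : ℕ) : ℝ) / (2 * D + 2 * h : ℕ))) ≤
      (1 + K + D * (K * (2 ^ D + 4 ^ h + 2))) *
        (#(HV (2 * h + D) (2 * h) F) * (Fintype.card F : ℝ) ^ (2 * h + D)) := by
  have hψ := AddChar.FiniteField.primitiveChar_to_Complex_isPrimitive F
  have q1 : (1 : ℝ) < Fintype.card F := Nat.one_lt_cast.2 Fintype.one_lt_card
  obtain ⟨s, s1, hs⟩ : ∃ s : ℝ, 1 < s ∧ (Fintype.card F : ℝ) = s ^ (2 * D) :=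
    ⟨_, Real.one_lt_rpow q1 (by positivity),
      (Real.rpow_inv_natCast_pow (by linarith) (by omega)).symm⟩
  have s0 : 0 < s := by linarith
  have hw : √(Fintype.card F : ℝ) = s ^ D := by
    rw [hs, mul_comm, pow_mul, Real.sqrt_sq (by positivity)]
  have c1 := (card_near (k := 2 * h) (by omega) (by omega) hc hq).1
  set c : ℝ := (#(HV (2 * h + D) (2 * h) F) : ℝ) with hcd
  set C : ℝ := (((2 * h + D + 1) ^ (2 * h + D) : ℕ) : ℝ) with hC
  set A : ℝ := (2 * ((2 * h + D : ℕ) + 1)) ^ (2 * h + D) with hA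
  have C1 : 1 ≤ C := Nat.one_le_cast.2 (Nat.pow_pos (Nat.succ_pos _))
  have A0 : (1 : ℝ) ≤ 2 * ((2 * h + D : ℕ) + 1) := by
    linarith [Nat.cast_nonneg (α := ℝ) (2 * h + D)]
  have A1 : 1 ≤ A := one_le_pow₀ A0
  have k1 : C * A * s ^ (2 * D * (2 * h)) ≤ K * c := by
    rw [hs, ← pow_mul] at c1
    calc _ ≤ C * A * (2 * c) := by gcongr
      _ = _ := by rw [hK]; ring
  have k2 : C * s ^ (2 * D * (2 * h)) ≤ K * c :=
    le_trans (by gcongr; exact le_mul_of_one_le_right (by positivity) A1) k1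
  have root : ∀ a : ℝ, 0 ≤ a → (a ^ ((2 * D + 2 * h : ℕ) : ℝ)⁻¹) ^ (2 * D + 2 * h) = a :=
    fun a ha => Real.rpow_inv_natCast_pow ha (by omega)
  have root2 : ∀ a : ℝ, 0 ≤ a → a ^ (((D + 2 * h : ℕ) : ℝ) / (2 * D + 2 * h : ℕ)) =
      (a ^ ((2 * D + 2 * h : ℕ) : ℝ)⁻¹) ^ (D + 2 * h) := fun a ha => by
    rw [← Real.rpow_natCast, ← Real.rpow_mul ha, div_eq_inv_mul]
  simp only [root2 _ (Φ0 _), root2 _ (Ψ0 _)]
  refine endpoint _ D h (by omega) (s ^ 2) K _ (one_lt_pow₀ s1 two_ne_zero) (by simp) ?_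
    (fun i hi => ?_) _ _ (fun x => Real.rpow_nonneg (Φ0 x) _) (fun x => Real.rpow_nonneg (Ψ0 x) _)
    (by simpa only [root _ (Φ0 _)] using Φ1) (by simpa only [root _ (Ψ0 _)] using Ψ1)
  · calc _ = 1 * s ^ (2 * D * (2 * h)) * ((s ^ 2) ^ D) ^ D := by rw [hs]; ring
      _ ≤ C * s ^ (2 * D * (2 * h)) * ((s ^ 2) ^ D) ^ D := by gcongr
      _ ≤ _ := by gcongr
  obtain ⟨j, rfl⟩ : ∃ j, D = i + (j + 1) := ⟨D - i - 1, by omega⟩
  have a1 : C * ((Fintype.card F : ℝ) ^ (2 * h) / (Fintype.card F : ℝ) ^ (2 * h + (j + 1))) *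
      (Fintype.card F : ℝ) ^ (2 * h + (i + (j + 1))) ≤ K * c * ((s ^ 2) ^ i) ^ (i + (j + 1)) := by
    refine le_trans (le_of_eq ?_) (mul_le_mul_of_nonneg_right k2 (by positivity))
    rw [hs]
    field_simp
    ring
  rcases Nat.eq_zero_or_pos j with rfl | hj
  · refine ⟨_, _, by positivity, by positivity, level (e := 2 * h + (0 + 1)) (by omega) (by omega)
      hψ ((Fintype.card F : ℝ) ^ h) (by positivity) fun m => ?_, a1, le_trans (le_of_eq ?_) k2⟩
    · rw [show HV (2 * h + (0 + 1)) (2 * h) F = _ from cone_eq (2 * h)]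
      refine hat_cone hψ (fun e => hc 2 two_pos (by omega) ?_) h (by simp) _ (fun c => ?_) m
      · rw [← e]; exact ringChar.Nat.cast_ringChar
      · split_ifs <;> simp
    · rw [hs]; ring
  · refine ⟨_, _, by positivity, by positivity, level (e := 2 * h + (j + 1)) (by omega) (by omega)
      hψ _ (by positivity) (hat_weil hψ _ _ (by omega) fun n h0 h1 => hc n h0 (by omega)), a1,
      le_trans ?_ k1⟩
    rw [hw, mul_pow, mul_assoc, mul_assoc, mul_assoc C]
    refine mul_le_mul_of_nonneg_left (mul_le_mul ?_ ?_ (by positivity) (by positivity))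
      (by positivity)
    · refine le_trans (pow_le_pow_left₀ (by positivity) ?_ _) (pow_le_pow_right₀ A0 (by omega))
      push_cast
      linarith [Nat.cast_nonneg (α := ℝ) i]
    · simp only [← pow_mul, ← pow_add]
      refine pow_le_pow_right₀ s1.le ?_
      obtain ⟨j, rfl⟩ : ∃ j', j = j' + 1 := ⟨j - 1, by omega⟩
      obtain ⟨t, rfl⟩ := Nat.exists_eq_add_of_le hh
      nlinarith [Nat.zero_le (i * j), Nat.zero_le (j * j), Nat.zero_le (t * j), Nat.zero_le t,
        Nat.zero_le j]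

end Pool.Agent.Lib.MP_a1ab69_an.Q1
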