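import Pool.Agent.Lib.MP_a1ab69_an.Q1Ana

/-! The mixing lemma and the projection lemma. -/

set_option autoImplicit false

namespace Pool.Agent.Lib.MP_a1ab69_an.Q1

open Finset Pool.Agent.Lib.MP_a1ab69_an.Sharp

variable {G : Type} [AddCommGroup G] [Fintype G] [DecidableEq G]

theorem parseval {M : Type} [Fintype M] (E : M → AddChar G ℂ) (N : ℝ)
    (orth : ∀ a, ∑ m, E m a = if a = 0 then (N : ℂ) else 0) (u : G → ℝ) :
    ∑ m, ‖∑ w, (u w : ℂ) * E m w‖ ^ 2 = N * ∑ w, u w ^ 2 := by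
  have e : ∀ m, ((‖∑ w, (u w : ℂ) * E m w‖ ^ 2 : ℝ) : ℂ) =
      ∑ w, ∑ w', (u w : ℂ) * u w' * E m (w - w') := fun m => by
    rw [Complex.ofReal_pow, ← Complex.mul_conj', map_sum, sum_mul_sum]
    refine sum_congr rfl fun w _ => sum_congr rfl fun w' _ => ?_
    rw [map_mul, Complex.conj_ofReal, sub_eq_add_neg, AddChar.map_add_eq_mul,
      AddChar.map_neg_eq_conj]
    ring
  apply Complex.ofReal_injective
  rw [Complex.ofReal_sum, sum_congr rfl fun m _ => e m, sum_comm]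
  push_cast
  rw [mul_sum]
  refine sum_congr rfl fun w _ => ?_
  rw [sum_comm]
  simp only [← mul_sum, orth, sub_eq_zero, mul_ite, mul_zero, sum_ite_eq, mem_univ, if_true]
  ring

theorem mixing {M : Type} [Fintype M] [DecidableEq M] (E : M → AddChar G ℂ) (N : ℝ) (hN : 0 < N)
    (orth : ∀ a, ∑ m, E m a = if a = 0 then (N : ℂ) else 0) (m0 : M) (h0 : ∀ a, E m0 a = 1)
    (H : Finset G) (c Λ : ℝ) (hΛ : 0 ≤ Λ)
    (hH : ∀ m, ‖∑ x ∈ H, E m x - if m = m0 then (c : ℂ) else 0‖ ≤ Λ) : Lev H (c / N) Λ := by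
  intro u v _ _ γ hγ
  set U : M → ℂ := fun m => ∑ w, (u w : ℂ) * E m w with hU
  set V : M → ℂ := fun m => ∑ w, (v (-w) : ℂ) * E m w with hV
  have e1 : ∑ m, U m * V m * ∑ x ∈ H, E m x = N * (bil H u v : ℝ) := by
    have : ∀ m, U m * V m * ∑ x ∈ H, E m x =
        ∑ y, ∑ x ∈ H, ∑ w, (u w : ℂ) * v y * E m (w - (y - x)) := fun m => by
      rw [hV]
      dsimp only
      rw [← Equiv.sum_comp (Equiv.neg G), mul_sum univ, sum_mul]
      refine sum_congr rfl fun y _ => ?_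
      rw [mul_sum]
      refine sum_congr rfl fun x _ => ?_
      rw [hU, sum_mul, sum_mul]
      refine sum_congr rfl fun w _ => ?_
      rw [show w - (y - x) = w + -y + x by abel, AddChar.map_add_eq_mul, AddChar.map_add_eq_mul]
      simp only [Equiv.neg_apply, neg_neg]
      ring
    rw [sum_congr rfl fun m _ => this m, sum_comm, bil]
    push_cast
    rw [mul_sum]
    refine sum_congr rfl fun y _ => ?_
    rw [sum_comm, mul_sum]
    refine sum_congr rfl fun x _ => ?_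
    rw [sum_comm]
    simp only [← mul_sum, orth, sub_eq_zero, mul_ite, mul_zero, sum_ite_eq', mem_univ, if_true]
    ring
  have e2 : U m0 * V m0 = ((∑ x, u x) * ∑ x, v x : ℝ) := by
    simp only [hU, hV, h0, mul_one]
    rw [← Equiv.sum_comp (Equiv.neg G) fun w => (v (-w) : ℂ)]
    simp
  have e3 : ((N * bil H u v - c * ((∑ x, u x) * ∑ x, v x) : ℝ) : ℂ) =
      ∑ m, U m * V m * (∑ x ∈ H, E m x - if m = m0 then (c : ℂ) else 0) := by
    simp only [mul_sub, sum_sub_distrib, e1, mul_ite, mul_zero, sum_ite_eq', mem_univ, if_true, e2]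
    push_cast
    ring
  have p1 := parseval E N orth u
  have p2 := parseval E N orth fun w => v (-w)
  rw [show ∑ w, v (-w) ^ 2 = ∑ w, v w ^ 2 from
    Equiv.sum_comp (Equiv.neg G) fun w => v w ^ 2] at p2
  have e4 : N * bil H u v - c * ((∑ x, u x) * ∑ x, v x) ≤
      Λ * (γ * (N * ∑ x, u x ^ 2) + (N * ∑ x, v x ^ 2) / γ) := by
    refine (le_abs_self _).trans ?_
    rw [← Real.norm_eq_abs, ← Complex.norm_real, e3, ← p1, ← p2, mul_sum, sum_div,
      ← sum_add_distrib, mul_sum]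
    refine (norm_sum_le _ _).trans (sum_le_sum fun m _ => ?_)
    rw [norm_mul, norm_mul, mul_comm Λ]
    refine mul_le_mul ?_ (hH m) (norm_nonneg _) (by positivity)
    change ‖U m‖ * ‖V m‖ ≤ γ * ‖U m‖ ^ 2 + ‖V m‖ ^ 2 / γ
    have a := norm_nonneg (U m)
    have b := norm_nonneg (V m)
    rw [← sub_nonneg, show γ * ‖U m‖ ^ 2 + ‖V m‖ ^ 2 / γ - ‖U m‖ * ‖V m‖ =
      ((γ * ‖U m‖ - ‖V m‖) ^ 2 + γ * (‖U m‖ * ‖V m‖)) / γ by field_simp; ring]
    positivity
  refine le_of_mul_le_mul_left ?_ hN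
  calc _ ≤ c * ((∑ x, u x) * ∑ x, v x) +
        Λ * (γ * (N * ∑ x, u x ^ 2) + (N * ∑ x, v x ^ 2) / γ) := by linarith
    _ = _ := by field_simp

omit [DecidableEq G] in
theorem project {G' : Type} [AddCommGroup G'] [Fintype G'] [DecidableEq G'] (π : G →+ G')
    (H : Finset G) (H' : Finset G') (C : ℕ) (h1 : ∀ z ∈ H, π z ∈ H')
    (h2 : ∀ w, #{z ∈ H | π z = w} ≤ C) {α β : ℝ} (hα : 0 ≤ α) (hL : Lev H' α β) :
    Lev H (C * α) (C * β) := by
  intro u v hu hv γ hγ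
  let fib : (G → ℝ) → G' → ℝ := fun u w => √(∑ x with π x = w, u x ^ 2)
  have f0 : ∀ u w, 0 ≤ fib u w := fun u w => Real.sqrt_nonneg _
  have f2 : ∀ u : G → ℝ, ∑ w, fib u w ^ 2 = ∑ x, u x ^ 2 := fun u => by
    rw [← sum_fiberwise (s := univ) (g := π)]
    exact sum_congr rfl fun w _ => Real.sq_sqrt (sum_nonneg fun x _ => sq_nonneg _)
  have f1 : ∀ u : G → ℝ, (∀ x, 0 ≤ u x) → ∑ w, fib u w ≤ ∑ x, u x := fun u hu => by
    rw [← sum_fiberwise (s := univ) (g := π)]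
    refine sum_le_sum fun w _ => Real.sqrt_le_iff.2 ⟨sum_nonneg fun x _ => hu x, ?_⟩
    exact sum_sq_le_sq_sum_of_nonneg fun x _ => hu x
  have a1 : ∀ x, ∑ y, u (y - x) * v y ≤ ∑ w, fib u (w - π x) * fib v w := fun x => by
    rw [← sum_fiberwise (s := univ) (g := π)]
    refine sum_le_sum fun w _ => (Real.sum_mul_le_sqrt_mul_sqrt _ _ _).trans (le_of_eq ?_)
    congr 2
    refine sum_nbij' (fun y => y - x) (fun y => y + x) (fun y hy => ?_) (fun y hy => ?_)
      (fun y _ => sub_add_cancel y x) (fun y _ => add_sub_cancel_right y x) fun y _ => rfl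
    · simp [(mem_filter.1 hy).2]
    · simp [(mem_filter.1 hy).2]
  have a2 : bil H u v ≤ C * bil H' (fib u) (fib v) := by
    unfold bil
    rw [sum_comm, sum_comm (t := H'), mul_sum]
    refine (sum_le_sum fun x _ => a1 x).trans ?_
    rw [← sum_fiberwise_of_maps_to h1]
    refine sum_le_sum fun w _ => ?_
    rw [sum_congr rfl fun x hx => by rw [(mem_filter.1 hx).2], sum_const, nsmul_eq_mul]
    exact mul_le_mul_of_nonneg_right (Nat.cast_le.2 (h2 w))
      (sum_nonneg fun y _ => mul_nonneg (f0 _ _) (f0 _ _))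
  have a3 := hL _ _ (f0 u) (f0 v) γ hγ
  rw [f2, f2] at a3
  have a4 : (∑ w, fib u w) * ∑ w, fib v w ≤ (∑ x, u x) * ∑ x, v x :=
    mul_le_mul (f1 u hu) (f1 v hv) (sum_nonneg fun w _ => f0 _ _) (sum_nonneg fun x _ => hu x)
  refine a2.trans ?_
  rw [mul_assoc, mul_assoc, ← mul_add]
  gcongr
  exact a3.trans (by gcongr)

end Pool.Agent.Lib.MP_a1ab69_an.Q1
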