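import Pool.Agent.Lib.MP_a1ab69_an.Q1Lev

/-! The necessary conditions (test functions) and the assembly. -/

set_option autoImplicit false
open scoped ENNReal

namespace Pool.Agent.Lib.MP_a1ab69_an.Q1

open Finset Pool.Agent.Lib.MP_a1ab69_an.Sharp

theorem big (d : ℕ) : ∃ N : ℕ, ∀ (F : Type) [Field F] [Fintype F], N < ringChar F →
    (∀ n : ℕ, 0 < n → n ≤ d + 1 → (n : F) ≠ 0) ∧
      2 * (2 * ((d : ℝ) + 1)) ^ d ≤ √(Fintype.card F : ℝ) := by
  refine ⟨(2 * (2 * (d + 1)) ^ d) ^ 2 + (d + 1), fun F _ _ hN => ⟨fun n h0 h1 hn => ?_, ?_⟩⟩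
  · exact absurd (Nat.le_of_dvd h0 ((ringChar.spec F n).1 hn)) (by omega)
  · have h1 := Nat.le_of_dvd Fintype.card_pos
      ((ringChar.spec F _).1 (FiniteField.cast_card_eq_zero F))
    refine Real.le_sqrt_of_sq_le ?_
    exact_mod_cast (by omega : (2 * (2 * (d + 1)) ^ d) ^ 2 ≤ Fintype.card F)

theorem test {G : Type} [AddCommGroup G] [Fintype G] [DecidableEq G] (H : Finset G) (h0 : 0 ∈ H)
    (hH : ∀ x ∈ H, -x ∈ H) (l d k C : ℝ) (hq : 0 < l) (hc : (H.card : ℝ) ≤ 2 * l ^ k)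
    (p r : ℝ≥0∞) (hp : 1 ≤ p) (hr : 1 ≤ r)
    (hb : ∀ f : G → ℂ, l ^ (-d * (r⁻¹).toReal) *
      nrm r (fun y => (H.card : ℂ)⁻¹ * ∑ x ∈ H, f (y - x)) ≤
        C * (l ^ (-d * (p⁻¹).toReal) * nrm p f)) :
    l ^ (d * (p⁻¹).toReal - (d - k) * (r⁻¹).toReal - k) ≤ 2 * |C| ∧
      l ^ ((d - k) * (p⁻¹).toReal - d * (r⁻¹).toReal) ≤ 2 * |C| := by
  obtain ⟨x0, x1⟩ := inv_mem p hp
  obtain ⟨y0, y1⟩ := inv_mem r hr
  set x := (p⁻¹).toReal
  set y := (r⁻¹).toReal
  have hne : H.Nonempty := ⟨0, h0⟩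
  have hc0 : (0 : ℝ) < H.card := Nat.cast_pos.2 hne.card_pos
  have two : ∀ z : ℝ, 0 ≤ z → z ≤ 1 → (H.card : ℝ) ^ z ≤ 2 * l ^ (k * z) := fun z z0 z1 => by
    refine (Real.rpow_le_rpow hc0.le hc z0).trans ?_
    rw [Real.mul_rpow two_pos.le (by positivity), ← Real.rpow_mul hq.le]
    exact mul_le_mul_of_nonneg_right
      ((Real.rpow_le_rpow_of_exponent_le one_le_two z1).trans (Real.rpow_one _).le) (by positivity)
  have absC : ∀ a b c : ℝ, 0 ≤ a → 0 ≤ b → b ≤ c → C * (a * b) ≤ |C| * (a * c) :=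
    fun a b c ha hb h => mul_le_mul (le_abs_self C) (by gcongr) (by positivity) (abs_nonneg C)
  constructor
  · have h1 := hb (fun u => if u = 0 then 1 else 0)
    have u1 := nrm_le p hp (fun u : G => if u = 0 then (1 : ℂ) else 0) {0}
      (fun u => by split_ifs <;> simp) (fun u hu => by simp at hu; simp [hu])
    have l1 := nrm_ge r hr
      (fun y : G => (H.card : ℂ)⁻¹ * ∑ v ∈ H, if y - v = 0 then (1 : ℂ) else 0) H hne
      (H.card : ℝ)⁻¹ (by positivity) (fun u hu => by simp [sub_eq_zero, hu])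
    simp only [card_singleton, Nat.cast_one, Real.one_rpow] at u1
    have h2 : l ^ (-d * y) * ((H.card : ℝ)⁻¹ * (H.card : ℝ) ^ y) ≤ |C| * (l ^ (-d * x) * 1) :=
      (mul_le_mul_of_nonneg_left l1 (by positivity)).trans
        (h1.trans (absC _ _ _ (by positivity) (nrm_nonneg p hp _) u1))
    have h3 := two (1 - y) (by linarith) (by linarith)
    have e1 : (H.card : ℝ)⁻¹ * (H.card : ℝ) ^ y * (H.card : ℝ) ^ (1 - y) = 1 := by
      rw [mul_assoc, ← Real.rpow_add hc0]; simp [hc0.ne']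
    have e2 : l ^ (d * x - (d - k) * y - k) * l ^ (-d * x) * l ^ (k * (1 - y)) = l ^ (-d * y) := by
      rw [← Real.rpow_add hq, ← Real.rpow_add hq]; congr 1; ring
    have h4 : l ^ (-d * y) ≤ |C| * (l ^ (-d * x) * 1) * (2 * l ^ (k * (1 - y))) := by
      calc _ = l ^ (-d * y) * ((H.card : ℝ)⁻¹ * (H.card : ℝ) ^ y) * (H.card : ℝ) ^ (1 - y) := by
            rw [mul_assoc, e1, mul_one]
        _ ≤ _ := mul_le_mul h2 h3 (by positivity) (by positivity)
    rw [← e2] at h4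
    have pos : 0 < l ^ (-d * x) * l ^ (k * (1 - y)) := by positivity
    refine le_of_mul_le_mul_right ?_ pos
    linarith
  · have h1 := hb (fun u => if u ∈ H then 1 else 0)
    have u1 := nrm_le p hp (fun u : G => if u ∈ H then (1 : ℂ) else 0) H
      (fun u => by split_ifs <;> simp) (fun u hu => by simp [hu])
    have l1 := nrm_ge r hr
      (fun y : G => (H.card : ℂ)⁻¹ * ∑ v ∈ H, if y - v ∈ H then (1 : ℂ) else 0) {0}
      (by simp) 1 zero_le_one (fun u hu => by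
        have hu0 : u = 0 := by simpa using hu
        have : ∀ v ∈ H, (if u - v ∈ H then (1 : ℂ) else 0) = 1 := fun v hv => by
          rw [hu0, zero_sub, if_pos (hH v hv)]
        have hc' : (H.card : ℂ) ≠ 0 := by exact_mod_cast hne.card_pos.ne'
        rw [sum_congr rfl this]
        simp [hc'])
    simp only [card_singleton, Nat.cast_one, Real.one_rpow, mul_one] at l1
    have h2 : l ^ (-d * y) * 1 ≤ |C| * (l ^ (-d * x) * (2 * l ^ (k * x))) :=
      (mul_le_mul_of_nonneg_left l1 (by positivity)).trans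
        (h1.trans (absC _ _ _ (by positivity) (nrm_nonneg p hp _) (u1.trans (two x x0 x1))))
    have e2 : l ^ ((d - k) * x - d * y) * (l ^ (-d * x) * l ^ (k * x)) = l ^ (-d * y) := by
      rw [← Real.rpow_add hq, ← Real.rpow_add hq]; congr 1; ring
    rw [← e2] at h2
    have pos : 0 < l ^ (-d * x) * l ^ (k * x) := by positivity
    refine le_of_mul_le_mul_right ?_ pos
    linarith

theorem exact_range (D h : ℕ) (hD : 0 < D) (hh : D ≤ h) (p r : ℝ≥0∞) (hp : 1 ≤ p) (hr : 1 ≤ r) :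
    (∃ N : ℕ, ∃ C : ℝ, ∀ (F : Type) [Field F] [Fintype F] [DecidableEq F], N < ringChar F →
      ∀ f : (Fin (2 * h + D) → F) → ℂ,
        (Fintype.card F : ℝ) ^ (-((2 * h + D : ℕ) : ℝ) * (r⁻¹).toReal) *
          nrm r (fun y => ((HV (2 * h + D) (2 * h) F).card : ℂ)⁻¹ *
            ∑ x ∈ HV (2 * h + D) (2 * h) F, f (y - x)) ≤
        C * ((Fintype.card F : ℝ) ^ (-((2 * h + D : ℕ) : ℝ) * (p⁻¹).toReal) * nrm p f)) ↔
    ((p⁻¹).toReal, (r⁻¹).toReal) ∈ convexHull ℝ ({((0 : ℝ), (0 : ℝ)), ((0 : ℝ), (1 : ℝ)),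
      ((1 : ℝ), (1 : ℝ)), (((D + 2 * h : ℕ) : ℝ) / (2 * D + 2 * h : ℕ),
        1 - ((D + 2 * h : ℕ) : ℝ) / (2 * D + 2 * h : ℕ))} : Set (ℝ × ℝ)) := by
  obtain ⟨N0, hN0⟩ := big (2 * h + D)
  have D0 : (0 : ℝ) < D := Nat.cast_pos.2 hD
  constructor
  · rintro ⟨N, C, hC⟩
    have key := fun (l : ℕ) (hl : l.Prime) (hN : max N N0 < l) =>
      have : Fact l.Prime := ⟨hl⟩
      have hc : max N N0 < ringChar (ZMod l) := by rwa [ZMod.ringChar_zmod_n]
      have hb := hN0 (ZMod l) ((le_max_right _ _).trans_lt hc)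
      test (HV (2 * h + D) (2 * h) (ZMod l)) (zero_mem _ _) (fun _ => neg_mem)
        (Fintype.card (ZMod l)) (2 * h + D : ℕ) (2 * h : ℕ) C (Nat.cast_pos.2 Fintype.card_pos)
        (by rw [Real.rpow_natCast]; exact (card_near (by omega) (by omega) hb.1 hb.2).2) p r hp hr
        (hC (ZMod l) ((le_max_left _ _).trans_lt hc))
    simp only [ZMod.card] at key
    have a := exp_nonpos _ _ _ fun l a b _ => (key l a b).1
    have b := exp_nonpos _ _ _ fun l a b _ => (key l a b).2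
    have M0 : (0 : ℝ) < 2 * D + 2 * h := by positivity
    push_cast at a b ⊢
    refine mem_quad _ _ _ (by positivity) (inv_mem p hp).1 (inv_mem r hr).2 ?_ ?_
    · rw [← sub_nonneg]
      refine le_of_le_of_eq (div_nonneg (neg_nonneg.2 a) M0.le) ?_
      field_simp
      ring
    · rw [← sub_nonneg]
      refine le_of_le_of_eq (div_nonneg (neg_nonneg.2 b) M0.le) ?_
      field_simp
      ring
  · intro hP
    refine ⟨N0, ?_, fun F _ _ _ hN f => ?_⟩
    rotate_left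
    have hb := hN0 F hN
    have := op_bound' (HV (2 * h + D) (2 * h) F) ⟨0, zero_mem _ _⟩ _ _
      ((Fintype.card F : ℝ) ^ (2 * h + D)) (by positivity) (by simp)
      (main D h hD hh hb.1 hb.2 _ rfl) p r hp hr hP f
    rw [← Real.rpow_natCast, ← Real.rpow_mul (Nat.cast_nonneg _),
      ← Real.rpow_mul (Nat.cast_nonneg _), mul_neg, mul_neg, ← neg_mul, ← neg_mul] at this
    exact this

end Pool.Agent.Lib.MP_a1ab69_an.Q1
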