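import Pool.Agent.Lib.MP_2c63aa_nt.FW.Short

/-! The Weil bound for additive character sums in one variable over any finite field. -/

set_option autoImplicit false

namespace Pool.Agent.Lib.MP_a1ab69_an.Q1

open Polynomial Finset Pool.Agent.FW Pool.Agent.Lib.MP_639284_nt
open Pool.Agent.Shared.HasseDavenport (mon mem_mon)

variable {F : Type} [Field F]

/-- the generating series of the power sums of the roots -/
noncomputable def LD (P : F[X]) : PowerSeries F :=
  -(PowerSeries.X * ((derivative P.reverse : F[X]) : PowerSeries F)) *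
    ((P.reverse : F[X]) : PowerSeries F)⁻¹

theorem rev_inv {P : F[X]} (hP : P.Monic) :
    ((P.reverse : F[X]) : PowerSeries F)⁻¹ * ((P.reverse : F[X]) : PowerSeries F) = 1 :=
  PowerSeries.inv_mul_cancel _ (by
    simp [Polynomial.constantCoeff_coe, coeff_zero_reverse, hP.leadingCoeff])

theorem LD_spec {P : F[X]} (hP : P.Monic) : LD P * ((P.reverse : F[X]) : PowerSeries F) =
    -(PowerSeries.X * ((derivative P.reverse : F[X]) : PowerSeries F)) := by
  rw [LD, mul_assoc, rev_inv hP, mul_one]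

theorem LD_mul {P Q : F[X]} (hP : P.Monic) (hQ : Q.Monic) : LD (P * Q) = LD P + LD Q := by
  have a := LD_spec hP
  have b := LD_spec hQ
  have c := LD_spec (hP.mul hQ)
  have a' := rev_inv hP
  have b' := rev_inv hQ
  rw [reverse_mul_of_domain, derivative_mul] at c
  push_cast at c
  set R : PowerSeries F := ((P.reverse : F[X]) : PowerSeries F)
  set S : PowerSeries F := ((Q.reverse : F[X]) : PowerSeries F)
  have e : (LD (P * Q) - (LD P + LD Q)) * (R * S) = 0 := by
    linear_combination c - S * a - R * b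
  have e2 : LD (P * Q) - (LD P + LD Q) = (LD (P * Q) - (LD P + LD Q)) * (R * S) * (R⁻¹ * S⁻¹) := by
    calc _ = (LD (P * Q) - (LD P + LD Q)) * ((R⁻¹ * R) * (S⁻¹ * S)) := by rw [a', b']; ring
      _ = _ := by ring
  rw [e, zero_mul] at e2
  exact sub_eq_zero.1 e2

theorem LD_congr {P Q : F[X]} (hP : P.Monic) (hQ : Q.Monic) {m : ℕ}
    (h : X ^ (m + 1) ∣ P.reverse - Q.reverse) : PowerSeries.X ^ (m + 1) ∣ LD P - LD Q := by
  obtain ⟨W, hW⟩ := h
  have a := LD_spec hP
  have b := LD_spec hQ
  have a' := rev_inv hP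
  have b' := rev_inv hQ
  have h1 : derivative P.reverse - derivative Q.reverse =
      C ((m + 1 : ℕ) : F) * X ^ m * W + X ^ (m + 1) * derivative W := by
    rw [← derivative_sub, hW, derivative_mul, derivative_X_pow]
    simp
  have h2 := congrArg (fun z : F[X] => (z : PowerSeries F)) h1
  have h3 := congrArg (fun z : F[X] => (z : PowerSeries F)) hW
  simp only [Polynomial.coe_sub, Polynomial.coe_add, Polynomial.coe_mul, Polynomial.coe_pow,
    Polynomial.coe_X] at h2 h3
  set R : PowerSeries F := ((P.reverse : F[X]) : PowerSeries F)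
  set S : PowerSeries F := ((Q.reverse : F[X]) : PowerSeries F)
  set S' : PowerSeries F := ((derivative Q.reverse : F[X]) : PowerSeries F)
  set c : PowerSeries F := ((C ((m + 1 : ℕ) : F) : F[X]) : PowerSeries F)
  set V : PowerSeries F := (W : PowerSeries F)
  set V' : PowerSeries F := ((derivative W : F[X]) : PowerSeries F)
  have e : (LD P - LD Q) * (R * S) = PowerSeries.X ^ (m + 1) *
      (PowerSeries.X * S' * V - c * V * S - PowerSeries.X * V' * S) := by
    linear_combination S * a - R * b - PowerSeries.X * S * h2 + PowerSeries.X * S' * h3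
  refine ⟨(PowerSeries.X * S' * V - c * V * S - PowerSeries.X * V' * S) * (R⁻¹ * S⁻¹), ?_⟩
  rw [← mul_assoc, ← e]
  calc _ = (LD P - LD Q) * ((R⁻¹ * R) * (S⁻¹ * S)) := by rw [a', b']; ring
    _ = _ := by ring

theorem LD_lin (x : F) (i : ℕ) : PowerSeries.coeff (i + 1) (LD (X - C x)) = x ^ (i + 1) := by
  have hP : (X - C x : F[X]).Monic := monic_X_sub_C x
  have a := LD_spec hP
  have a' := rev_inv hP
  have r : (X - C x : F[X]).reverse = 1 - C x * X := by
    rw [sub_eq_add_neg, ← C_neg, reverse_add_C]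
    simp [reverse, sub_eq_add_neg]
  rw [r] at a a'
  set g : PowerSeries F := PowerSeries.mk fun n => x ^ n with hg
  have h1 : g = 1 + PowerSeries.C x * (g * PowerSeries.X) := by
    ext n
    cases n with
    | zero => simp [hg]
    | succ n => simp [hg, PowerSeries.coeff_succ_mul_X, _root_.pow_succ', PowerSeries.coeff_one]
  have h2 : ((derivative (1 - C x * X : F[X]) : F[X]) : PowerSeries F) = -PowerSeries.C x := by
    simp
  rw [h2] at a
  have h3 : ((1 - C x * X : F[X]) : PowerSeries F) = 1 - PowerSeries.C x * PowerSeries.X := by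
    simp
  rw [h3] at a a'
  have e : LD (X - C x) = g - 1 := by
    have e1 : (LD (X - C x) - (g - 1)) * (1 - PowerSeries.C x * PowerSeries.X) = 0 := by
      linear_combination a - h1
    have e2 : LD (X - C x) - (g - 1) = (LD (X - C x) - (g - 1)) *
        (1 - PowerSeries.C x * PowerSeries.X) * (1 - PowerSeries.C x * PowerSeries.X)⁻¹ := by
      rw [mul_assoc, mul_comm _ (_⁻¹), a', mul_one]
    rw [e1, zero_mul] at e2
    exact sub_eq_zero.1 e2
  rw [e]
  simp [hg, PowerSeries.coeff_one]

theorem LD_zero (P : F[X]) : PowerSeries.coeff 0 (LD P) = 0 := by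
  simp [LD]

theorem LD_pow (a : F) {n : ℕ} (hn : 0 < n) {i : ℕ} (hi : i ≤ n) :
    PowerSeries.coeff i (LD (X ^ n + C a)) = if i = n then -((n : F) * a) else 0 := by
  obtain ⟨n, rfl⟩ : ∃ n', n = n' + 1 := ⟨n - 1, by omega⟩
  have hP : (X ^ (n + 1) + C a : F[X]).Monic := monic_X_pow_add_C a hn.ne'
  have b := LD_spec hP
  have b' := rev_inv hP
  have r : (X ^ (n + 1) + C a : F[X]).reverse = 1 + C a * X ^ (n + 1) := by
    rw [reverse_add_C]
    simp [reverse]
  rw [r] at b b'
  have h2 : ((derivative (1 + C a * X ^ (n + 1) : F[X]) : F[X]) : PowerSeries F) =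
      PowerSeries.C (((n + 1 : ℕ) : F) * a) * PowerSeries.X ^ n := by
    have : derivative (1 + C a * X ^ (n + 1) : F[X]) = C (((n + 1 : ℕ) : F) * a) * X ^ n := by
      rw [derivative_add, derivative_one, derivative_C_mul, derivative_X_pow, C_mul]
      simp only [Nat.add_sub_cancel]
      ring
    rw [this, Polynomial.coe_mul, Polynomial.coe_pow, Polynomial.coe_X, Polynomial.coe_C]
  have h3 : ((1 + C a * X ^ (n + 1) : F[X]) : PowerSeries F) =
      1 + PowerSeries.C a * PowerSeries.X ^ (n + 1) := by simp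
  rw [h2] at b
  rw [h3] at b b'
  set c : PowerSeries F := PowerSeries.C (((n + 1 : ℕ) : F) * a) with hc
  set R : PowerSeries F := 1 + PowerSeries.C a * PowerSeries.X ^ (n + 1) with hR
  have e : PowerSeries.X ^ (n + 1 + 1) ∣
      LD (X ^ (n + 1) + C a) + c * PowerSeries.X ^ (n + 1) := by
    refine ⟨c * PowerSeries.C a * PowerSeries.X ^ n * R⁻¹, ?_⟩
    have e1 : (LD (X ^ (n + 1) + C a) + c * PowerSeries.X ^ (n + 1)) * R =
        PowerSeries.X ^ (n + 1 + 1) * (c * PowerSeries.C a * PowerSeries.X ^ n) := by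
      linear_combination b + c * PowerSeries.X ^ (n + 1) * hR
    rw [← mul_assoc, ← e1, mul_assoc, mul_comm R, b', mul_one]
  have := PowerSeries.X_pow_dvd_iff.1 e i (by omega)
  rw [map_add, hc, PowerSeries.coeff_C_mul, PowerSeries.coeff_X_pow] at this
  rw [eq_neg_of_add_eq_zero_left this]
  split_ifs <;> simp

/-- Weil's bound -/
theorem weil_add [Fintype F] (ψ : AddChar F ℂ) (hψ : ψ ≠ 1) (f : F[X]) (h0 : f.coeff 0 = 0)
    (hn : 0 < f.natDegree) (hc : (f.natDegree : F) ≠ 0) :
    ‖∑ x, ψ (f.eval x)‖ ≤ f.natDegree * √(Fintype.card F : ℝ) := by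
  classical
  set n := f.natDegree with hnd
  obtain ⟨G, _, _, cl, h⟩ := exists_grp F n
  let Φ : F[X] → F := fun P => ∑ i ∈ range (n + 1), f.coeff i * PowerSeries.coeff i (LD P)
  have Φm : ∀ P Q : F[X], P.Monic → Q.Monic → Φ (P * Q) = Φ P + Φ Q := fun P Q hP hQ => by
    simp only [Φ, LD_mul hP hQ, map_add, mul_add, sum_add_distrib]
  have Φc : ∀ P Q : F[X], P.Monic → Q.Monic → cl P = cl Q → Φ P = Φ Q := fun P Q hP hQ e => by
    have := PowerSeries.X_pow_dvd_iff.1 (LD_congr hP hQ ((h.eq P Q hP hQ).1 e))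
    refine sum_congr rfl fun i hi => ?_
    have h1 := this i (mem_range.1 hi)
    rw [map_sub, sub_eq_zero] at h1
    rw [h1]
  choose rep hrep hcl using h.surj
  have hm : ∀ γ, (rep γ).Monic := fun γ => (mem_mon.1 (hrep γ)).1
  have Φ1 : Φ 1 = 0 := by simpa using Φm 1 1 monic_one monic_one
  let χ : AddChar G ℂ :=
    { toFun := fun γ => ψ (Φ (rep γ))
      map_zero_eq_one' := by
        rw [Φc _ 1 (hm 0) monic_one (by rw [hcl, h.one]), Φ1, ψ.map_zero_eq_one]
      map_add_eq_mul' := fun a b => by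
        rw [← ψ.map_add_eq_mul, ← Φm _ _ (hm a) (hm b),
          Φc _ _ (hm (a + b)) ((hm a).mul (hm b)) (by rw [h.mul (rep a) (rep b) (hm a) (hm b), hcl, hcl, hcl])] }
  have hχ : ∀ P : F[X], P.Monic → χ (cl P) = ψ (Φ P) := fun P hP => by
    change ψ (Φ (rep (cl P))) = _
    rw [Φc _ P (hm _) hP (hcl _)]
  clear_value χ
  have hl : f.coeff n ≠ 0 := by
    rw [hnd, coeff_natDegree]
    exact leadingCoeff_ne_zero.2 (ne_zero_of_natDegree_gt hn)
  have hχ0 : χ ≠ 0 := by
    obtain ⟨b, hb⟩ := AddChar.ne_one_iff.1 hψ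
    intro e
    have h1 := hχ (X ^ n + C (-b / (f.coeff n * n))) (monic_X_pow_add_C _ hn.ne')
    rw [e, AddChar.zero_apply] at h1
    have h2 : Φ (X ^ n + C (-b / (f.coeff n * n))) = b := by
      simp only [Φ]
      rw [sum_congr rfl fun i hi => by rw [LD_pow _ hn (Nat.lt_succ_iff.1 (mem_range.1 hi))]]
      simp only [mul_ite, mul_zero, sum_ite_eq', mem_range, Nat.lt_succ_self, if_true]
      field_simp
    rw [h2] at h1
    exact hb h1.symm
  have hw := weil (Ω := AlgebraicClosure F) h hχ0 (s := 1) one_pos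
  rw [sum_cnt (Ω := AlgebraicClosure F) (cl := cl) χ one_pos] at hw
  have hq : 1 < Nat.card F ^ 1 := by simpa using Finite.one_lt_card (α := F)
  have hF : FQ (AlgebraicClosure F) (Nat.card F ^ 1) =
      univ.image (algebraMap F (AlgebraicClosure F)) := by
    symm
    refine eq_of_subset_of_card_le (fun y hy => ?_) ?_
    · obtain ⟨x, -, rfl⟩ := mem_image.1 hy
      rw [mem_FQ hq, ← map_pow, pow_one, Nat.card_eq_fintype_card, FiniteField.pow_card]
    · rw [card_fq F _ one_pos, card_image_of_injective _ (algebraMap F _).injective]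
      simp
  rw [hF, sum_image fun a _ b _ e => (algebraMap F _).injective e] at hw
  have e : ∀ x : F, χ (cl (nm F 1 (algebraMap F (AlgebraicClosure F) x))) = ψ (f.eval x) := by
    intro x
    rw [nm, minpoly.eq_X_sub_C, natDegree_X_sub_C, Nat.div_one, pow_one, hχ _ (monic_X_sub_C x),
      eval_eq_sum_range]
    refine congrArg ψ (sum_congr rfl fun i _ => ?_)
    cases i with
    | zero => simp [h0]
    | succ i => rw [LD_lin]
  simp only [e, pow_one, Nat.card_eq_fintype_card] at hw
  refine hw.trans (mul_le_mul_of_nonneg_right (Nat.cast_le.2 (by omega)) (by positivity))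

end Pool.Agent.Lib.MP_a1ab69_an.Q1
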