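import Pool.Agent.Lib.MP_a1ab69_an.Q1Mix
import Pool.Agent.Lib.MP_a1ab69_an.Q1Weil

/-! Fourier bounds for the varieties `H_k`. -/

set_option autoImplicit false

namespace Pool.Agent.Lib.MP_a1ab69_an.Q1

open Finset Polynomial

variable {F : Type} [Field F] [Fintype F] [DecidableEq F] {ψ : AddChar F ℂ}

/-- the variety `H_k` in `F^d` -/
def HV (d k : ℕ) (F : Type) [Field F] [Fintype F] [DecidableEq F] : Finset (Fin d → F) :=
  Finset.univ.filter (fun x : Fin d → F => ∀ i : Fin d, k ≤ i.val →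
    ∑ l ∈ Finset.univ.filter (fun l : Fin d => l.val < k), x l ^ (i.val - k + 2)
      = x i ^ (i.val - k + 2))

omit [Fintype F] [DecidableEq F] in
theorem psi_sum {ι : Type} (s : Finset ι) (g : ι → F) : ψ (∑ i ∈ s, g i) = ∏ i ∈ s, ψ (g i) := by
  classical
  induction s using Finset.induction_on with
  | empty => simp
  | insert a s ha ih => rw [sum_insert ha, prod_insert ha, ψ.map_add_eq_mul, ih]

omit [Field F] [DecidableEq F] in
theorem sum_pi {R ι : Type} [CommRing R] [Fintype ι] [DecidableEq ι] (g : ι → F → R) :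
    ∑ m : ι → F, ∏ c, g c (m c) = ∏ c, ∑ x, g c x := by
  rw [prod_univ_sum, Fintype.piFinset_univ]

/-- the characters of `F^ι` -/
def EE (ψ : AddChar F ℂ) {ι : Type} [Fintype ι] (m : ι → F) : AddChar (ι → F) ℂ where
  toFun z := ψ (∑ c, m c * z c)
  map_zero_eq_one' := by simp
  map_add_eq_mul' a b := by simp [mul_add, sum_add_distrib, ψ.map_add_eq_mul]

omit [Fintype F] [DecidableEq F] in
theorem EE_apply {ι : Type} [Fintype ι] (m z : ι → F) : EE ψ m z = ψ (∑ c, m c * z c) := rfl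

theorem orth (hψ : ψ.IsPrimitive) {ι : Type} [Fintype ι] [DecidableEq ι] (z : ι → F) :
    ∑ m, EE ψ m z = if z = 0 then (Fintype.card F : ℂ) ^ Fintype.card ι else 0 := by
  simp only [EE_apply, psi_sum]
  rw [sum_pi fun c x => ψ (x * z c)]
  simp only [AddChar.sum_mulShift _ hψ]
  split_ifs with h
  · simp [h]
  · obtain ⟨c, hc⟩ := Function.ne_iff.1 h
    exact prod_eq_zero (mem_univ c) (by rw [if_neg (show ¬z c = 0 from hc), Nat.cast_zero])

theorem hat_weil (hψ : ψ.IsPrimitive) (d k : ℕ) (hk : k ≤ d)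
    (hc : ∀ n : ℕ, 0 < n → n ≤ d + 1 → (n : F) ≠ 0) (m : Fin d → F) :
    ‖∑ x ∈ HV d k F, EE ψ m x - if m = 0 then (Fintype.card F : ℂ) ^ k else 0‖ ≤
      (2 * (d + 1) * √(Fintype.card F : ℝ)) ^ d := by
  set q := Fintype.card F with hq
  have q1 : (1 : ℝ) ≤ q := Nat.one_le_cast.2 Fintype.card_pos
  set B : ℝ := (d + 1) * √(q : ℝ) with hB
  have B1 : 1 ≤ B := one_le_mul_of_one_le_of_one_le (by simp) (Real.one_le_sqrt.2 q1)
  let w : Fin d → Fin d → F := fun i c =>
    if k ≤ i.val then (if c.val < k then 1 else 0) - (if c = i then 1 else 0) else 0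
  let f : (Fin d → F) → Fin d → F[X] := fun t c =>
    C (m c) * X + ∑ i, C (t i * w i c) * X ^ (i.val - k + 2)
  let S : (Fin d → F) → Fin d → ℂ := fun t c => ∑ x, ψ ((f t c).eval x)
  have mem : ∀ z, z ∈ HV d k F ↔ (fun i => ∑ c, w i c * z c ^ (i.val - k + 2)) = 0 := fun z => by
    simp only [HV, mem_filter, mem_univ, true_and, funext_iff, Pi.zero_apply]
    refine forall_congr' fun i => ?_
    by_cases h : k ≤ i.val
    · simp [w, h, sub_mul, sum_sub_distrib, sub_eq_zero, sum_filter]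
    · simp [w, h]
  have e1 : (q : ℂ) ^ d * ∑ x ∈ HV d k F, EE ψ m x = ∑ t, ∏ c, S t c := by
    simp only [S, ← sum_pi, ← psi_sum]
    rw [sum_comm, mul_sum, ← univ_inter (HV d k F), ← sum_ite_mem]
    refine sum_congr rfl fun z _ => ?_
    have h1 := orth hψ fun i => ∑ c, w i c * z c ^ (i.val - k + 2)
    simp only [← mem, Fintype.card_fin] at h1
    have h2 : ∀ t : Fin d → F, ψ (∑ c, (f t c).eval (z c)) =
        EE ψ t (fun i => ∑ c, w i c * z c ^ (i.val - k + 2)) * EE ψ m z := fun t => by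
      rw [EE_apply, EE_apply, ← ψ.map_add_eq_mul]
      congr 1
      simp only [f, eval_add, eval_mul, eval_C, eval_X, eval_finsetSum, eval_pow,
        sum_add_distrib, mul_sum, mul_assoc]
      rw [add_comm, sum_comm]
    rw [sum_congr rfl fun t _ => h2 t, ← sum_mul, h1, ite_mul, zero_mul]
  let T : Finset (Fin d → F) := Fintype.piFinset fun i => if k ≤ i.val then {0} else univ
  have hT : ∀ t, t ∈ T ↔ ∀ i : Fin d, k ≤ i.val → t i = 0 := fun t => by
    simp only [T, Fintype.mem_piFinset]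
    refine forall_congr' fun i => ?_
    split_ifs with h <;> simp [h]
  have cT : #T = q ^ k := by
    rw [Fintype.card_piFinset]
    have : ∀ i : Fin d, #(if k ≤ i.val then ({0} : Finset F) else univ) =
        if i.val < k then q else 1 := fun i => by
      split_ifs <;> first | omega | simp [hq]
    simp only [this]
    rw [prod_ite, prod_const, prod_const_one, mul_one, Fin.card_filter_val_lt, min_eq_right hk]
  have good : ∀ t ∈ T, ∏ c, S t c = if m = 0 then (q : ℂ) ^ d else 0 := fun t ht => by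
    have h1 := orth hψ m
    rw [Fintype.card_fin] at h1
    rw [← h1]
    simp only [EE_apply, psi_sum]
    rw [sum_pi fun c x => ψ (x * m c)]
    refine prod_congr rfl fun c _ => sum_congr rfl fun x _ => congrArg ψ ?_
    have h2 : ∀ i, t i * w i c = 0 := fun i => by
      by_cases h : k ≤ i.val
      · rw [(hT t).1 ht i h, zero_mul]
      · simp [w, h]
    simp only [f, h2, C_0, zero_mul, sum_const_zero, add_zero, eval_mul, eval_C, eval_X, mul_comm x]
  have weil : ∀ t c (i : Fin d), k ≤ i.val → t i * w i c ≠ 0 → ‖S t c‖ ≤ B := fun t c i hi h => by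
    have h1 : (f t c).coeff (i.val - k + 2) = t i * w i c := by
      simp only [f, coeff_add, finsetSum_coeff, coeff_C_mul_X, coeff_C_mul_X_pow]
      rw [if_neg (by omega), zero_add, sum_eq_single i, if_pos rfl]
      · intro j _ hj
        by_cases hj' : k ≤ j.val
        · exact if_neg fun e => hj (Fin.ext (by omega))
        · simp [w, hj']
      · simp
    have h2 : i.val - k + 2 ≤ (f t c).natDegree := le_natDegree_of_ne_zero (h1 ▸ h)
    have h3 : (f t c).natDegree ≤ d + 1 := natDegree_add_le_of_degree_le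
      ((natDegree_C_mul_le _ _).trans (natDegree_X_le.trans (by omega)))
      (natDegree_sum_le_of_forall_le _ _ fun j _ =>
        (natDegree_C_mul_X_pow_le _ _).trans (by have := j.2; omega))
    have h4 : ψ ≠ 1 := by simpa using hψ (a := 1) one_ne_zero
    refine (weil_add ψ h4 (f t c) (by simp [f]) (by omega) (hc _ (by omega) h3)).trans ?_
    exact mul_le_mul_of_nonneg_right (by exact_mod_cast h3) (by positivity)
  let b : Fin d → F → ℝ := fun _ τ => (if τ = 0 then (q : ℝ) else 0) + B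
  have b0 : ∀ c τ, B ≤ b c τ := fun c τ => le_add_of_nonneg_left (by positivity)
  have bad : ∀ t ∈ Tᶜ, ‖∏ c, S t c‖ ≤ ∏ c, b c (t c) := fun t ht => by
    rw [norm_prod]
    refine prod_le_prod (fun _ _ => norm_nonneg _) fun c _ => ?_
    by_cases h : c.val < k
    · rw [mem_compl, hT] at ht
      push Not at ht
      obtain ⟨i, hi, h1⟩ := ht
      have h2 : c ≠ i := fun e => by rw [e] at h; omega
      exact (weil t c i hi (by simpa [w, hi, h, h2] using h1)).trans (b0 c _)
    · by_cases h1 : t c = 0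
      · refine (norm_sum_le _ _).trans ?_
        simp only [AddChar.norm_apply, sum_const, card_univ, nsmul_eq_mul, mul_one, b, if_pos h1]
        linarith
      · exact (weil t c c (by omega) (by simpa [w, h, not_lt.1 h] using h1)).trans (b0 c _)
  have e2 : (q : ℂ) ^ d * (∑ x ∈ HV d k F, EE ψ m x - if m = 0 then (q : ℂ) ^ k else 0) =
      ∑ t ∈ Tᶜ, ∏ c, S t c := by
    rw [mul_sub, e1, ← sum_add_sum_compl T, sum_congr rfl good, sum_const, cT]
    split_ifs <;> simp [mul_comm]
  have e3 : (q : ℝ) ^ d * ‖∑ x ∈ HV d k F, EE ψ m x - if m = 0 then (q : ℂ) ^ k else 0‖ ≤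
      (q * (2 * B)) ^ d := by
    rw [← Complex.norm_natCast, ← norm_pow, ← norm_mul, e2, Complex.norm_natCast]
    refine (norm_sum_le _ _).trans ((sum_le_sum bad).trans ((sum_le_univ_sum_of_nonneg fun t =>
      prod_nonneg fun c _ => (zero_le_one.trans B1).trans (b0 c _)).trans ?_))
    rw [sum_pi]
    simp only [b, sum_add_distrib, sum_ite_eq', mem_univ, if_true, sum_const, card_univ,
      nsmul_eq_mul, prod_const, Fintype.card_fin]
    refine pow_le_pow_left₀ (by positivity) ?_ _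
    nlinarith
  rw [mul_pow] at e3
  rw [mul_assoc]
  exact le_of_mul_le_mul_left e3 (by positivity)

theorem hat_cone (hψ : ψ.IsPrimitive) (h2 : ringChar F ≠ 2) {ι : Type} [Fintype ι]
    [DecidableEq ι] (h : ℕ) (hι : Fintype.card ι = 2 * h + 1) (ε : ι → F) (hε : ∀ c, ε c ≠ 0)
    (m : ι → F) :
    ‖∑ z with ∑ c, ε c * z c ^ 2 = 0, EE ψ m z -
      if m = 0 then (Fintype.card F : ℂ) ^ (2 * h) else 0‖ ≤ (Fintype.card F : ℝ) ^ h := by
  set q := Fintype.card F with hq
  have q0 : (0 : ℝ) < q := Nat.cast_pos.2 Fintype.card_pos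
  set η : MulChar F ℂ := (quadraticChar F).ringHomComp (Int.castRingHom ℂ) with hη
  have ηq : η.IsQuadratic := (quadraticChar_isQuadratic F).comp _
  have η1 : η ≠ 1 := (MulChar.ringHomComp_ne_one_iff Int.cast_injective).2 (quadraticChar_ne_one h2)
  have ηn : ∀ a, ‖η a‖ ≤ 1 := fun a => by rcases ηq a with e | e | e <;> simp [e]
  have ηs : ∀ a, η a ^ (2 * h + 1) = η a := fun a => by
    rcases ηq a with e | e | e <;> simp [e, pow_succ]
  have η0 : η 0 = 0 := MulChar.map_zero η
  set g := gaussSum η ψ with hg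
  have gn : ‖g‖ ^ 2 ≤ q := by
    rw [← norm_pow, gaussSum_sq η1 ηq hψ, norm_mul, Complex.norm_natCast]
    exact mul_le_of_le_one_left q0.le (ηn _)
  have gs : ∀ a, ∑ x, η x * ψ (a * x) = η a * g := fun a => by
    rcases eq_or_ne a 0 with rfl | ha
    · simpa [η0] using MulChar.sum_eq_zero_of_ne_one η1
    · have h1 := gaussSum_mulShift_eq η ψ (Units.mk0 a ha)
      rwa [ηq.inv] at h1
  have t2 : (2 : F) ≠ 0 := Ring.two_ne_zero h2
  have quad : ∀ a μ : F, a ≠ 0 →
      ∑ x, ψ (μ * x + a * x ^ 2) = ψ (-μ ^ 2 / (4 * a)) * (η a * g) := fun a μ ha => by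
    have h1 : ∑ x, ψ (a * x ^ 2) = η a * g := by
      rw [sum_comp (fun s => ψ (a * s)) fun x : F => x ^ 2, sum_subset (subset_univ _)
        fun s _ hs => by
          rw [filter_false_of_mem fun x _ e => hs (mem_image.2 ⟨x, mem_univ x, e⟩)]; simp]
      have h3 : ∀ s : F, (#{x : F | x ^ 2 = s} : ℂ) = η s + 1 := fun s => by
        have := congrArg (Int.cast : ℤ → ℂ) (quadraticChar_card_sqrts h2 s)
        simpa [hη] using this
      simp only [nsmul_eq_mul, h3, add_mul, one_mul, sum_add_distrib, gs]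
      simp only [mul_comm a, AddChar.sum_mulShift a hψ, if_neg ha, Nat.cast_zero, add_zero]
    rw [← h1, mul_sum, ← Equiv.sum_comp (Equiv.subRight (μ / (2 * a)))]
    refine sum_congr rfl fun x _ => ?_
    rw [← ψ.map_add_eq_mul, Equiv.subRight_apply, show (4 : F) = 2 * 2 by norm_num]
    congr 1
    field_simp
    ring
  have e1 : (q : ℂ) * ∑ z with ∑ c, ε c * z c ^ 2 = 0, EE ψ m z =
      ∑ τ : F, ∏ c, ∑ x, ψ (m c * x + τ * ε c * x ^ 2) := by
    simp only [← sum_pi, ← psi_sum]
    rw [sum_comm, mul_sum, sum_filter]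
    refine sum_congr rfl fun z _ => ?_
    simp only [sum_add_distrib, mul_assoc, ← mul_sum, ψ.map_add_eq_mul,
      AddChar.sum_mulShift _ hψ, EE_apply]
    split_ifs <;> simp [mul_comm, hq]
  have e2 : ∏ c, ∑ x, ψ (m c * x + 0 * ε c * x ^ 2) =
      q * if m = 0 then (q : ℂ) ^ (2 * h) else 0 := by
    have h1 := orth hψ m
    simp only [EE_apply, psi_sum] at h1
    rw [sum_pi fun c x => ψ (x * m c), hι] at h1
    simp only [zero_mul, add_zero, mul_comm (m _), h1]
    split_ifs <;> simp [pow_succ', hq]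
  have e3 : ∀ τ ∈ univ.erase (0 : F), ∏ c, ∑ x, ψ (m c * x + τ * ε c * x ^ 2) =
      g ^ (2 * h + 1) * η (∏ c, ε c) * (η τ⁻¹ * ψ ((∑ c, -m c ^ 2 / (4 * ε c)) * τ⁻¹)) := by
    intro τ hτ
    rw [prod_congr rfl fun c _ => quad _ _ (mul_ne_zero (ne_of_mem_erase hτ) (hε c)),
      ← MulChar.inv_apply', ηq.inv]
    simp only [map_mul, prod_mul_distrib, prod_const, card_univ, hι, ηs, map_prod, ← psi_sum,
      sum_mul]
    rw [sum_congr rfl fun c _ => show -m c ^ 2 / (4 * (τ * ε c)) = -m c ^ 2 / (4 * ε c) * τ⁻¹ by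
      simp only [div_eq_mul_inv, mul_inv]; ring]
    ring
  have e4 : (q : ℂ) * (∑ z with ∑ c, ε c * z c ^ 2 = 0, EE ψ m z -
      if m = 0 then (q : ℂ) ^ (2 * h) else 0) =
      g ^ (2 * h + 1) * η (∏ c, ε c) * (η (∑ c, -m c ^ 2 / (4 * ε c)) * g) := by
    rw [mul_sub, e1, ← add_sum_erase _ _ (mem_univ 0), e2, add_sub_cancel_left, sum_congr rfl e3,
      ← mul_sum, sum_erase _ (by simp [η0]), ← gs, ← Equiv.sum_comp (Equiv.inv F)]
    simp
  have e5 := congrArg norm e4
  rw [norm_mul, Complex.norm_natCast, norm_mul, norm_mul, norm_mul, norm_pow] at e5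
  refine le_of_mul_le_mul_left (e5.trans_le ?_) q0
  calc _ ≤ ‖g‖ ^ (2 * h + 1) * 1 * (1 * ‖g‖) := by gcongr <;> exact ηn _
    _ = (‖g‖ ^ 2) ^ (h + 1) := by ring
    _ ≤ (q : ℝ) ^ (h + 1) := by gcongr
    _ = _ := pow_succ' _ _

end Pool.Agent.Lib.MP_a1ab69_an.Q1
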