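import Mathlib

set_option autoImplicit false

namespace Pool.Agent.Lib.MP_a1ab69_an.Sharp

open Finset

/-- the pointwise inequality behind the endpoint estimate -/
theorem pw_aux (σ τ w : ℝ) (hτ : 0 ≤ τ) (h : τ ≤ σ) (hw : 0 < w) :
    σ ^ 10 * τ ^ 10 ≤ 1 + σ ^ 14 * τ ^ 14 / w ^ 28 + (σ ^ 7 * min (σ ^ 7) (w ^ 21)) * τ ^ 7 := by
  have hσ : 0 ≤ σ := hτ.trans h
  have p2 : 0 ≤ σ ^ 14 * τ ^ 14 / w ^ 28 := by positivity
  have hm : 0 ≤ min (σ ^ 7) (w ^ 21) := le_min (by positivity) (by positivity)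
  have p3 : 0 ≤ (σ ^ 7 * min (σ ^ 7) (w ^ 21)) * τ ^ 7 := by positivity
  by_cases h1 : σ ≤ 1
  · have a : σ ^ 10 ≤ 1 := pow_le_one₀ hσ h1
    have b : τ ^ 10 ≤ 1 := pow_le_one₀ hτ (h.trans h1)
    have c : σ ^ 10 * τ ^ 10 ≤ 1 := mul_le_one₀ a (by positivity) b
    linarith
  · push Not at h1
    rcases le_total (σ ^ 7) (w ^ 21) with h2 | h2
    · rw [min_eq_left h2]
      have a : τ ^ 3 ≤ σ ^ 3 := pow_le_pow_left₀ hτ h 3
      have b : σ ^ 3 ≤ σ ^ 4 := pow_le_pow_right₀ h1.le (by norm_num)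
      have c : σ ^ 10 * τ ^ 10 ≤ σ ^ 7 * σ ^ 7 * τ ^ 7 := by
        calc σ ^ 10 * τ ^ 10 = (σ ^ 10 * τ ^ 7) * τ ^ 3 := by ring
          _ ≤ (σ ^ 10 * τ ^ 7) * σ ^ 4 := by gcongr; exact a.trans b
          _ = _ := by ring
      linarith
    · rw [min_eq_right h2]
      rw [min_eq_right h2] at p3
      have hst : 0 ≤ σ * τ := by positivity
      rcases le_total (σ * τ) (w ^ 7) with h3 | h3
      · have a : (σ * τ) ^ 3 ≤ (w ^ 7) ^ 3 := pow_le_pow_left₀ hst h3 3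
        have c : σ ^ 10 * τ ^ 10 ≤ σ ^ 7 * w ^ 21 * τ ^ 7 := by
          calc σ ^ 10 * τ ^ 10 = (σ ^ 7 * τ ^ 7) * (σ * τ) ^ 3 := by ring
            _ ≤ (σ ^ 7 * τ ^ 7) * (w ^ 7) ^ 3 := by gcongr
            _ = _ := by ring
        linarith
      · have a : (w ^ 7) ^ 4 ≤ (σ * τ) ^ 4 := pow_le_pow_left₀ (by positivity) h3 4
        have c : σ ^ 10 * τ ^ 10 ≤ σ ^ 14 * τ ^ 14 / w ^ 28 := by
          rw [le_div_iff₀ (by positivity)]
          calc σ ^ 10 * τ ^ 10 * w ^ 28 = (σ ^ 10 * τ ^ 10) * (w ^ 7) ^ 4 := by ring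
            _ ≤ (σ ^ 10 * τ ^ 10) * (σ * τ) ^ 4 := by gcongr
            _ = _ := by ring
        linarith

theorem pw (σ τ w : ℝ) (hσ : 0 ≤ σ) (hτ : 0 ≤ τ) (hw : 0 < w) :
    σ ^ 10 * τ ^ 10 ≤ 1 + σ ^ 14 * τ ^ 14 / w ^ 28 + (σ ^ 7 * min (σ ^ 7) (w ^ 21)) * τ ^ 7
      + σ ^ 7 * (τ ^ 7 * min (τ ^ 7) (w ^ 21)) := by
  have hm : 0 ≤ min (σ ^ 7) (w ^ 21) := le_min (by positivity) (by positivity)
  have hm' : 0 ≤ min (τ ^ 7) (w ^ 21) := le_min (by positivity) (by positivity)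
  rcases le_total τ σ with h | h
  · have := pw_aux σ τ w hτ h hw
    have p : 0 ≤ σ ^ 7 * (τ ^ 7 * min (τ ^ 7) (w ^ 21)) := by positivity
    linarith
  · have := pw_aux τ σ w hσ h hw
    have p : 0 ≤ (σ ^ 7 * min (σ ^ 7) (w ^ 21)) * τ ^ 7 := by positivity
    have e1 : τ ^ 10 * σ ^ 10 = σ ^ 10 * τ ^ 10 := by ring
    have e2 : τ ^ 14 * σ ^ 14 / w ^ 28 = σ ^ 14 * τ ^ 14 / w ^ 28 := by ring
    have e3 : τ ^ 7 * min (τ ^ 7) (w ^ 21) * σ ^ 7 = σ ^ 7 * (τ ^ 7 * min (τ ^ 7) (w ^ 21)) := by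
      ring
    rw [e1, e2, e3] at this
    linarith

theorem rpow_le_one_add (a z : ℝ) (ha : 0 ≤ a) (h0 : 0 ≤ z) (h1 : z ≤ 1) : a ^ z ≤ 1 + a := by
  rcases le_total a 1 with h | h
  · have := Real.rpow_le_one ha h h0
    linarith
  · have := Real.rpow_le_rpow_of_exponent_le h h1
    rw [Real.rpow_one] at this
    linarith

/-- a log-linear function is maximal at a vertex of the quadrilateral -/
theorem vertex (σ τ x z : ℝ) (hσ : 0 ≤ σ) (hτ : 0 ≤ τ) (hx : 0 ≤ x) (hz : 0 ≤ z)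
    (h1 : 5 * x + 2 * z ≤ 5) (h2 : 2 * x + 5 * z ≤ 5) :
    (σ ^ 14) ^ x * (τ ^ 14) ^ z ≤ 1 + σ ^ 14 + τ ^ 14 + σ ^ 10 * τ ^ 10 := by
  have p1 : 0 ≤ σ ^ 14 := by positivity
  have p2 : 0 ≤ τ ^ 14 := by positivity
  have p3 : 0 ≤ σ ^ 10 * τ ^ 10 := by positivity
  rcases hσ.eq_or_lt with hs | hs
  · by_cases hx0 : x = 0
    · rw [hx0, Real.rpow_zero, one_mul]
      have := rpow_le_one_add (τ ^ 14) z p2 hz (by linarith)
      linarith
    · have : (σ ^ 14) ^ x = 0 := by rw [← hs, zero_pow (by norm_num), Real.zero_rpow hx0]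
      rw [this, zero_mul]; linarith
  rcases hτ.eq_or_lt with ht | ht
  · by_cases hz0 : z = 0
    · rw [hz0, Real.rpow_zero, mul_one]
      have := rpow_le_one_add (σ ^ 14) x p1 hx (by linarith)
      linarith
    · have : (τ ^ 14) ^ z = 0 := by rw [← ht, zero_pow (by norm_num), Real.zero_rpow hz0]
      rw [this, mul_zero]; linarith
  set a := Real.log σ with ha
  set b := Real.log τ with hb
  have es : ∀ n : ℕ, σ ^ n = Real.exp (n * a) := fun n => by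
    rw [Real.exp_nat_mul, ha, Real.exp_log hs]
  have et : ∀ n : ℕ, τ ^ n = Real.exp (n * b) := fun n => by
    rw [Real.exp_nat_mul, hb, Real.exp_log ht]
  have e0 : (σ ^ 14) ^ x * (τ ^ 14) ^ z = Real.exp (14 * a * x + 14 * b * z) := by
    rw [es 14, et 14, ← Real.exp_mul, ← Real.exp_mul, ← Real.exp_add]; norm_num
  have e3 : σ ^ 10 * τ ^ 10 = Real.exp (10 * a + 10 * b) := by
    rw [es 10, et 10, ← Real.exp_add]; norm_num
  have e1 : σ ^ 14 = Real.exp (14 * a) := by rw [es 14]; norm_num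
  have e2 : τ ^ 14 = Real.exp (14 * b) := by rw [et 14]; norm_num
  rw [e0]
  have key : 14 * a * x + 14 * b * z ≤ 0 ∨ 14 * a * x + 14 * b * z ≤ 14 * a ∨
      14 * a * x + 14 * b * z ≤ 14 * b ∨ 14 * a * x + 14 * b * z ≤ 10 * a + 10 * b := by
    rcases le_total a 0 with ha0 | ha0 <;> rcases le_total b 0 with hb0 | hb0
    · left; nlinarith [mul_nonneg hx (neg_nonneg.2 ha0), mul_nonneg hz (neg_nonneg.2 hb0)]
    · right; right; left
      nlinarith [mul_nonneg hx (neg_nonneg.2 ha0), mul_nonneg hb0 (by linarith : 0 ≤ 1 - z)]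
    · right; left
      nlinarith [mul_nonneg hz (neg_nonneg.2 hb0), mul_nonneg ha0 (by linarith : 0 ≤ 1 - x)]
    · rcases le_total (5 * b) (2 * a) with h3 | h3
      · right; left
        nlinarith [mul_nonneg ha0 (by linarith : 0 ≤ 5 - 5 * x - 2 * z),
          mul_nonneg hz (by linarith : 0 ≤ 2 * a - 5 * b)]
      · rcases le_total (5 * a) (2 * b) with h4 | h4
        · right; right; left
          nlinarith [mul_nonneg hb0 (by linarith : 0 ≤ 5 - 2 * x - 5 * z),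
            mul_nonneg hx (by linarith : 0 ≤ 2 * b - 5 * a)]
        · right; right; right
          nlinarith [mul_nonneg (by linarith : 0 ≤ 5 * a - 2 * b) (by linarith : 0 ≤ 5 - 5 * x - 2 * z),
            mul_nonneg (by linarith : 0 ≤ 5 * b - 2 * a) (by linarith : 0 ≤ 5 - 2 * x - 5 * z)]
  rcases key with k | k | k | k
  · have := Real.exp_le_exp.2 k
    rw [Real.exp_zero] at this; linarith
  · have := Real.exp_le_exp.2 k
    rw [← e1] at this; linarith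
  · have := Real.exp_le_exp.2 k
    rw [← e2] at this; linarith
  · have := Real.exp_le_exp.2 k
    rw [← e3] at this; linarith

variable {G : Type} [AddCommGroup G] [Fintype G] [DecidableEq G]

/-- the bilinear form of the (unnormalised) averaging operator -/
def bil (H : Finset G) (φ ψ : G → ℝ) : ℝ := ∑ y, ∑ x ∈ H, φ (y - x) * ψ y

omit [DecidableEq G] in
theorem bil_symm (H : Finset G) (hH : ∀ x ∈ H, -x ∈ H) (φ ψ : G → ℝ) :
    bil H φ ψ = bil H ψ φ := by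
  unfold bil
  rw [sum_comm, sum_comm (s := univ) (t := H)]
  refine Finset.sum_nbij' (fun x => -x) (fun x => -x) hH hH (fun x _ => neg_neg x)
    (fun x _ => neg_neg x) (fun x _ => ?_)
  rw [← Equiv.sum_comp (Equiv.addRight x) (fun y => φ (y - x) * ψ y)]
  refine sum_congr rfl fun u _ => ?_
  simp [mul_comm]

omit [DecidableEq G] in
theorem bil_one_right (H : Finset G) (φ : G → ℝ) :
    bil H φ (fun _ => 1) = H.card * ∑ u, φ u := by
  unfold bil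
  rw [sum_comm]
  have : ∀ x ∈ H, ∑ y, φ (y - x) * 1 = ∑ u, φ u := fun x _ => by
    rw [← Equiv.sum_comp (Equiv.addRight x) (fun y => φ (y - x) * 1)]
    simp
  rw [sum_congr rfl this, sum_const, nsmul_eq_mul]

omit [DecidableEq G] in
theorem bil_one_left (H : Finset G) (ψ : G → ℝ) :
    bil H (fun _ => 1) ψ = H.card * ∑ u, ψ u := by
  unfold bil
  rw [mul_sum]
  refine sum_congr rfl fun y _ => ?_
  simp

omit [DecidableEq G] in
theorem bil_le_l1 (H : Finset G) (φ ψ : G → ℝ) (hφ : ∀ x, 0 ≤ φ x) (hψ : ∀ x, 0 ≤ ψ x) :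
    bil H φ ψ ≤ (∑ u, φ u) * ∑ u, ψ u := by
  unfold bil
  rw [mul_sum]
  refine sum_le_sum fun y _ => ?_
  rw [← sum_mul]
  refine mul_le_mul_of_nonneg_right ?_ (hψ y)
  rw [← Equiv.sum_comp (Equiv.subLeft y) φ]
  exact sum_le_sum_of_subset_of_nonneg (subset_univ H) (fun x _ _ => hφ _)

omit [DecidableEq G] in
theorem bil_le_l2 (H : Finset G) (φ ψ : G → ℝ) (M : ℝ) (hM : 0 ≤ M)
    (h : (∑ y, (∑ x ∈ H, φ (y - x)) ^ 2) * ∑ y, ψ y ^ 2 ≤ M ^ 2) : bil H φ ψ ≤ M := by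
  have e : bil H φ ψ = ∑ y, (∑ x ∈ H, φ (y - x)) * ψ y := by
    unfold bil
    exact sum_congr rfl fun y _ => by rw [sum_mul]
  rw [e]
  exact (abs_le_of_sq_le_sq' ((sum_mul_sq_le_sq_mul_sq univ _ _).trans h) hM).2

omit [DecidableEq G] in
theorem mixed (H : Finset G) (w : ℝ) (hw : 0 < w)
    (hL2 : ∀ φ : G → ℝ, (∀ x, 0 ≤ φ x) → ∑ y, (∑ x ∈ H, φ (y - x)) ^ 2 ≤
      102 * w ^ 14 * (∑ u, φ u) ^ 2 + 102 * w ^ 42 * ∑ u, φ u ^ 2)
    (σ τ : G → ℝ) (hσ : ∀ x, 0 ≤ σ x)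
    (sσ : ∑ u, σ u ^ 14 ≤ w ^ 70) (sτ : ∑ u, τ u ^ 14 ≤ w ^ 70) :
    bil H (fun u => σ u ^ 7 * min (σ u ^ 7) (w ^ 21)) (fun u => τ u ^ 7) ≤ 15 * w ^ 112 := by
  have hm : ∀ u, 0 ≤ min (σ u ^ 7) (w ^ 21) := fun u =>
    le_min (pow_nonneg (hσ u) 7) (by positivity)
  have h0 : ∀ u, 0 ≤ σ u ^ 7 * min (σ u ^ 7) (w ^ 21) := fun u =>
    mul_nonneg (pow_nonneg (hσ u) 7) (hm u)
  have a1 : ∑ u, σ u ^ 7 * min (σ u ^ 7) (w ^ 21) ≤ w ^ 70 := by
    refine le_trans (sum_le_sum fun u _ => ?_) sσ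
    calc σ u ^ 7 * min (σ u ^ 7) (w ^ 21) ≤ σ u ^ 7 * σ u ^ 7 :=
          mul_le_mul_of_nonneg_left (min_le_left _ _) (pow_nonneg (hσ u) 7)
      _ = σ u ^ 14 := by ring
  have a2 : ∑ u, (σ u ^ 7 * min (σ u ^ 7) (w ^ 21)) ^ 2 ≤ w ^ 42 * w ^ 70 := by
    calc ∑ u, (σ u ^ 7 * min (σ u ^ 7) (w ^ 21)) ^ 2 ≤ ∑ u, w ^ 42 * σ u ^ 14 := by
          refine sum_le_sum fun u _ => ?_
          calc (σ u ^ 7 * min (σ u ^ 7) (w ^ 21)) ^ 2 ≤ (σ u ^ 7 * w ^ 21) ^ 2 :=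
                pow_le_pow_left₀ (h0 u)
                  (mul_le_mul_of_nonneg_left (min_le_right _ _) (pow_nonneg (hσ u) 7)) 2
            _ = w ^ 42 * σ u ^ 14 := by ring
      _ = w ^ 42 * ∑ u, σ u ^ 14 := by rw [mul_sum]
      _ ≤ _ := by gcongr
  have a3 : ∑ u, (τ u ^ 7) ^ 2 ≤ w ^ 70 := by
    refine le_trans (le_of_eq (sum_congr rfl fun u _ => ?_)) sτ
    ring
  have a0 : 0 ≤ ∑ u, σ u ^ 7 * min (σ u ^ 7) (w ^ 21) := sum_nonneg fun u _ => h0 u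
  have a4 := hL2 _ h0
  have a5 : ∑ y, (∑ x ∈ H, σ (y - x) ^ 7 * min (σ (y - x) ^ 7) (w ^ 21)) ^ 2 ≤ 204 * w ^ 154 := by
    have c1 := mul_le_mul_of_nonneg_left (pow_le_pow_left₀ a0 a1 2)
      (by positivity : (0 : ℝ) ≤ 102 * w ^ 14)
    have c2 := mul_le_mul_of_nonneg_left a2 (by positivity : (0 : ℝ) ≤ 102 * w ^ 42)
    have c3 : 102 * w ^ 14 * (w ^ 70) ^ 2 + 102 * w ^ 42 * (w ^ 42 * w ^ 70) = 204 * w ^ 154 := by
      ring
    exact a4.trans ((add_le_add c1 c2).trans c3.le)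
  refine bil_le_l2 H _ _ _ (by positivity) ?_
  calc _ ≤ (204 * w ^ 154) * w ^ 70 :=
        mul_le_mul a5 a3 (sum_nonneg fun u _ => sq_nonneg _) (by positivity)
    _ = 204 * w ^ 224 := by ring
    _ ≤ 225 * w ^ 224 := by gcongr; norm_num
    _ = _ := by ring

omit [DecidableEq G] in
/-- the estimate on the whole quadrilateral, bilinear form -/
theorem bil_main (H : Finset G) (hH : ∀ x ∈ H, -x ∈ H) (w : ℝ) (hw : 0 < w)
    (hG : (Fintype.card G : ℝ) = w ^ 70) (hc : w ^ 42 / 2 ≤ (H.card : ℝ))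
    (hL2 : ∀ φ : G → ℝ, (∀ x, 0 ≤ φ x) → ∑ y, (∑ x ∈ H, φ (y - x)) ^ 2 ≤
      102 * w ^ 14 * (∑ u, φ u) ^ 2 + 102 * w ^ 42 * ∑ u, φ u ^ 2)
    (σ τ : G → ℝ) (hσ : ∀ x, 0 ≤ σ x) (hτ : ∀ x, 0 ≤ τ x)
    (sσ : ∑ u, σ u ^ 14 ≤ w ^ 70) (sτ : ∑ u, τ u ^ 14 ≤ w ^ 70)
    (x z : ℝ) (hx : 0 ≤ x) (hz : 0 ≤ z) (h1 : 5 * x + 2 * z ≤ 5) (h2 : 2 * x + 5 * z ≤ 5) :
    bil H (fun u => (σ u ^ 14) ^ x) (fun u => (τ u ^ 14) ^ z) ≤ 66 * (H.card * w ^ 70) := by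
  have hc0 : (0 : ℝ) ≤ H.card := Nat.cast_nonneg _
  have step : bil H (fun u => (σ u ^ 14) ^ x) (fun u => (τ u ^ 14) ^ z) ≤
      2 * bil H (fun _ => 1) (fun _ => 1) + bil H (fun u => σ u ^ 14) (fun _ => 1)
      + bil H (fun _ => 1) (fun u => τ u ^ 14)
      + bil H (fun u => σ u ^ 14) (fun u => τ u ^ 14) / w ^ 28
      + bil H (fun u => σ u ^ 7 * min (σ u ^ 7) (w ^ 21)) (fun u => τ u ^ 7)
      + bil H (fun u => σ u ^ 7) (fun u => τ u ^ 7 * min (τ u ^ 7) (w ^ 21)) := by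
    unfold bil
    rw [mul_sum, sum_div]
    simp only [← sum_add_distrib]
    refine sum_le_sum fun y _ => ?_
    rw [mul_sum, sum_div]
    simp only [← sum_add_distrib]
    refine sum_le_sum fun v _ => ?_
    have a := vertex (σ (y - v)) (τ y) x z (hσ _) (hτ _) hx hz h1 h2
    have b := pw (σ (y - v)) (τ y) w (hσ _) (hτ _) hw
    linarith
  have b1 : bil H (fun _ => 1) (fun _ => 1) = H.card * w ^ 70 := by
    rw [bil_one_left]; simp [hG]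
  have b2 : bil H (fun u => σ u ^ 14) (fun _ => 1) ≤ H.card * w ^ 70 := by
    rw [bil_one_right]; gcongr
  have b3 : bil H (fun _ => 1) (fun u => τ u ^ 14) ≤ H.card * w ^ 70 := by
    rw [bil_one_left]; gcongr
  have b4 : bil H (fun u => σ u ^ 14) (fun u => τ u ^ 14) / w ^ 28 ≤ w ^ 112 := by
    rw [div_le_iff₀ (by positivity)]
    calc _ ≤ _ := bil_le_l1 H _ _ (fun u => pow_nonneg (hσ u) 14) (fun u => pow_nonneg (hτ u) 14)
      _ ≤ w ^ 70 * w ^ 70 :=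
        mul_le_mul sσ sτ (sum_nonneg fun u _ => pow_nonneg (hτ u) 14) (by positivity)
      _ = _ := by ring
  have b5 := mixed H w hw hL2 σ τ hσ sσ sτ
  have b6 := mixed H w hw hL2 τ σ hτ sτ sσ
  rw [bil_symm H hH] at b6
  have b7 : w ^ 112 ≤ 2 * (H.card * w ^ 70) := by
    calc w ^ 112 = 2 * (w ^ 42 / 2 * w ^ 70) := by ring
      _ ≤ _ := by gcongr
  linarith

end Pool.Agent.Lib.MP_a1ab69_an.Sharp
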