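import Mathlib
import Pool.Agent.Lib.MP_a1ab69_an.SharpA

set_option autoImplicit false
open scoped ENNReal

namespace Pool.Agent.Lib.MP_a1ab69_an.Sharp

open Finset

variable {G : Type} [Fintype G]

/-- the `ℓ^p` norm -/
noncomputable abbrev nrm (p : ℝ≥0∞) (f : G → ℂ) : ℝ :=
  ‖(WithLp.toLp p f : PiLp p (fun _ : G => ℂ))‖

theorem toReal_ge (p : ℝ≥0∞) (hp : 1 ≤ p) (ht : p ≠ ⊤) : 1 ≤ p.toReal := by
  have := ENNReal.toReal_mono ht hp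
  simpa using this

theorem inv_mem (p : ℝ≥0∞) (hp : 1 ≤ p) : 0 ≤ (p⁻¹).toReal ∧ (p⁻¹).toReal ≤ 1 := by
  refine ⟨ENNReal.toReal_nonneg, ?_⟩
  have := ENNReal.toReal_mono ENNReal.one_ne_top (ENNReal.inv_le_one.2 hp)
  simpa using this

theorem nrm_fin (p : ℝ≥0∞) (hp : 1 ≤ p) (ht : p ≠ ⊤) (f : G → ℂ) :
    nrm p f = (∑ u, ‖f u‖ ^ p.toReal) ^ (p⁻¹).toReal := by
  have h1 := toReal_ge p hp ht
  unfold nrm
  rw [PiLp.norm_eq_sum (by linarith), ENNReal.toReal_inv, one_div]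

theorem nrm_top (f : G → ℂ) : nrm ⊤ f = ⨆ u, ‖f u‖ := by
  unfold nrm
  rw [PiLp.norm_eq_ciSup]

theorem nrm_nonneg (p : ℝ≥0∞) (hp : 1 ≤ p) (f : G → ℂ) : 0 ≤ nrm p f := by
  have : Fact (1 ≤ p) := ⟨hp⟩
  exact norm_nonneg _

theorem repr_fin (p : ℝ≥0∞) (hp : 1 ≤ p) (ht : p ≠ ⊤) (f : G → ℂ) (N : ℝ) (hN : 0 < N)
    (hS : 0 < ∑ u, ‖f u‖ ^ p.toReal) :
    ∃ Φ : G → ℝ, (∀ u, 0 ≤ Φ u) ∧ ∑ u, Φ u = N ∧
      ∀ u, ‖f u‖ = (N ^ (-(p⁻¹).toReal) * nrm p f) * Φ u ^ (p⁻¹).toReal := by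
  have h1 := toReal_ge p hp ht
  set S := ∑ u, ‖f u‖ ^ p.toReal with hSdef
  refine ⟨fun u => N * ‖f u‖ ^ p.toReal / S, fun u => by positivity, ?_, fun u => ?_⟩
  · rw [← sum_div, ← mul_sum, ← hSdef]; field_simp
  · rw [nrm_fin p hp ht, ← hSdef, Real.div_rpow (by positivity) hS.le,
      Real.mul_rpow hN.le (by positivity), ← Real.rpow_mul (norm_nonneg _), Real.rpow_neg hN.le,
      ENNReal.toReal_inv, mul_inv_cancel₀ (by linarith), Real.rpow_one]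
    have a : 0 < N ^ (p.toReal)⁻¹ := Real.rpow_pos_of_pos hN _
    have b : 0 < S ^ (p.toReal)⁻¹ := Real.rpow_pos_of_pos hS _
    field_simp

theorem zero_of_sum (p : ℝ≥0∞) (hp : 1 ≤ p) (ht : p ≠ ⊤) (f : G → ℂ)
    (hS : ¬ 0 < ∑ u, ‖f u‖ ^ p.toReal) : (∀ u, ‖f u‖ = 0) ∧ nrm p f = 0 := by
  have h1 := toReal_ge p hp ht
  have h0 : ∑ u, ‖f u‖ ^ p.toReal = 0 :=
    le_antisymm (not_lt.1 hS) (sum_nonneg fun u _ => by positivity)
  constructor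
  · intro u
    have := (sum_eq_zero_iff_of_nonneg (fun u _ => by positivity)).1 h0 u (mem_univ u)
    exact (Real.rpow_eq_zero (norm_nonneg _) (by linarith)).1 this
  · rw [nrm_fin p hp ht, h0, ENNReal.toReal_inv]
    exact Real.zero_rpow (inv_ne_zero (by linarith))

theorem up (p : ℝ≥0∞) (hp : 1 ≤ p) (f : G → ℂ) (N : ℝ) (hN0 : 0 < N)
    (hN : (Fintype.card G : ℝ) = N) :
    ∃ Φ : G → ℝ, (∀ u, 0 ≤ Φ u) ∧ ∑ u, Φ u ≤ N ∧
      ∀ u, ‖f u‖ ≤ (N ^ (-(p⁻¹).toReal) * nrm p f) * Φ u ^ (p⁻¹).toReal := by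
  by_cases ht : p = ⊤
  · subst ht
    refine ⟨fun _ => 1, fun _ => zero_le_one, by simp [hN], fun u => ?_⟩
    rw [nrm_top]
    simp only [ENNReal.inv_top, ENNReal.toReal_zero, neg_zero, Real.rpow_zero, one_mul, mul_one]
    exact le_ciSup (f := fun u => ‖f u‖) (Set.finite_range _).bddAbove u
  · by_cases hS : 0 < ∑ u, ‖f u‖ ^ p.toReal
    · obtain ⟨Φ, h0, h1, h2⟩ := repr_fin p hp ht f N hN0 hS
      exact ⟨Φ, h0, h1.le, fun u => (h2 u).le⟩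
    · obtain ⟨h1, h2⟩ := zero_of_sum p hp ht f hS
      refine ⟨fun _ => 0, fun _ => le_rfl, by simp [hN0.le], fun u => ?_⟩
      rw [h1 u, h2]; simp

theorem down [Nonempty G] (r : ℝ≥0∞) (hr : 1 ≤ r) (h : G → ℂ) (N : ℝ) (hN0 : 0 < N) :
    ∃ Ψ : G → ℝ, (∀ u, 0 ≤ Ψ u) ∧ ∑ u, Ψ u ≤ N ∧
      N * (N ^ (-(r⁻¹).toReal) * nrm r h) ≤ ∑ u, ‖h u‖ * Ψ u ^ (1 - (r⁻¹).toReal) := by
  classical
  by_cases ht : r = ⊤
  · subst ht
    obtain ⟨u0, hu0⟩ := exists_eq_ciSup_of_finite (f := fun u => ‖h u‖)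
    refine ⟨fun u => if u = u0 then N else 0, fun u => by positivity, by simp, ?_⟩
    rw [nrm_top, ← hu0]
    simp [mul_comm]
  · by_cases hS : 0 < ∑ u, ‖h u‖ ^ r.toReal
    · obtain ⟨Φ, h0, h1, h2⟩ := repr_fin r hr ht h N hN0 hS
      refine ⟨Φ, h0, h1.le, le_of_eq ?_⟩
      have : ∀ u, ‖h u‖ * Φ u ^ (1 - (r⁻¹).toReal) = (N ^ (-(r⁻¹).toReal) * nrm r h) * Φ u := by
        intro u
        rw [h2 u, mul_assoc (N ^ (-(r⁻¹).toReal) * nrm r h),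
          ← Real.rpow_add' (h0 u) (by simp)]
        simp
      rw [sum_congr rfl fun u _ => this u, ← mul_sum, h1, mul_comm]
    · obtain ⟨h1, h2⟩ := zero_of_sum r hr ht h hS
      refine ⟨fun _ => 0, fun _ => le_rfl, by simp [hN0.le], ?_⟩
      rw [h2]; simp [h1]

theorem nrm_ge (p : ℝ≥0∞) (hp : 1 ≤ p) (h : G → ℂ) (S : Finset G) (hS : S.Nonempty) (c : ℝ)
    (hc : 0 ≤ c) (hh : ∀ u ∈ S, c ≤ ‖h u‖) : c * (S.card : ℝ) ^ (p⁻¹).toReal ≤ nrm p h := by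
  by_cases ht : p = ⊤
  · subst ht
    obtain ⟨u, hu⟩ := hS
    rw [nrm_top]
    simp only [ENNReal.inv_top, ENNReal.toReal_zero, Real.rpow_zero, mul_one]
    exact (hh u hu).trans (le_ciSup (f := fun u => ‖h u‖) (Set.finite_range _).bddAbove u)
  · have h1 := toReal_ge p hp ht
    rw [nrm_fin p hp ht]
    have a : c ^ p.toReal * S.card ≤ ∑ u, ‖h u‖ ^ p.toReal := by
      calc c ^ p.toReal * S.card = ∑ _u ∈ S, c ^ p.toReal := by
            rw [sum_const, nsmul_eq_mul, mul_comm]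
        _ ≤ ∑ u ∈ S, ‖h u‖ ^ p.toReal :=
            sum_le_sum fun u hu => Real.rpow_le_rpow hc (hh u hu) (by linarith)
        _ ≤ _ := sum_le_sum_of_subset_of_nonneg (subset_univ S) (fun u _ _ => by positivity)
    have b := Real.rpow_le_rpow (by positivity) a (inv_mem p hp).1
    rw [Real.mul_rpow (by positivity) (by positivity), ← Real.rpow_mul hc] at b
    have e : p.toReal * (p⁻¹).toReal = 1 := by
      rw [ENNReal.toReal_inv, mul_inv_cancel₀ (by linarith)]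
    rwa [e, Real.rpow_one] at b

theorem nrm_le [Nonempty G] (p : ℝ≥0∞) (hp : 1 ≤ p) (h : G → ℂ) (S : Finset G)
    (hh : ∀ u, ‖h u‖ ≤ 1) (h0 : ∀ u, u ∉ S → h u = 0) :
    nrm p h ≤ (S.card : ℝ) ^ (p⁻¹).toReal := by
  by_cases ht : p = ⊤
  · subst ht
    rw [nrm_top]
    simp only [ENNReal.inv_top, ENNReal.toReal_zero, Real.rpow_zero]
    exact ciSup_le hh
  · have h1 := toReal_ge p hp ht
    rw [nrm_fin p hp ht]
    refine Real.rpow_le_rpow (sum_nonneg fun u _ => by positivity) ?_ (inv_mem p hp).1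
    calc ∑ u, ‖h u‖ ^ p.toReal = ∑ u ∈ S, ‖h u‖ ^ p.toReal := by
          refine (sum_subset (subset_univ S) fun u _ hu => ?_).symm
          rw [h0 u hu, norm_zero]
          exact Real.zero_rpow (by linarith)
      _ ≤ ∑ _u ∈ S, (1 : ℝ) :=
          sum_le_sum fun u _ => Real.rpow_le_one (norm_nonneg _) (hh u) (by linarith)
      _ = _ := by simp

/-- the operator bound on the whole quadrilateral -/
theorem op_bound [AddCommGroup G] (H : Finset G) (hH : ∀ x ∈ H, -x ∈ H) (w : ℝ) (hw : 0 < w)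
    (hG : (Fintype.card G : ℝ) = w ^ 70) (hc : w ^ 42 / 2 ≤ (H.card : ℝ))
    (hL2 : ∀ φ : G → ℝ, (∀ x, 0 ≤ φ x) → ∑ y, (∑ x ∈ H, φ (y - x)) ^ 2 ≤
      102 * w ^ 14 * (∑ u, φ u) ^ 2 + 102 * w ^ 42 * ∑ u, φ u ^ 2)
    (p r : ℝ≥0∞) (hp : 1 ≤ p) (hr : 1 ≤ r)
    (h1 : 5 * (p⁻¹).toReal - 2 * (r⁻¹).toReal ≤ 3) (h2 : 2 * (p⁻¹).toReal ≤ 5 * (r⁻¹).toReal)
    (f : G → ℂ) :
    (w ^ 70) ^ (-(r⁻¹).toReal) * nrm r (fun y => (H.card : ℂ)⁻¹ * ∑ x ∈ H, f (y - x)) ≤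
      66 * ((w ^ 70) ^ (-(p⁻¹).toReal) * nrm p f) := by
  have hN : 0 < w ^ 70 := by positivity
  have hc0 : (0 : ℝ) < H.card := lt_of_lt_of_le (by positivity) hc
  obtain ⟨Φ, Φ0, Φ1, Φ2⟩ := up p hp f (w ^ 70) hN hG
  obtain ⟨Ψ, Ψ0, Ψ1, Ψ2⟩ := down r hr (fun y => (H.card : ℂ)⁻¹ * ∑ x ∈ H, f (y - x)) (w ^ 70) hN
  set P := (w ^ 70) ^ (-(p⁻¹).toReal) * nrm p f with hP
  have P0 : 0 ≤ P := mul_nonneg (by positivity) (nrm_nonneg p hp f)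
  have root : ∀ a : ℝ, 0 ≤ a → (a ^ ((14 : ℕ) : ℝ)⁻¹) ^ 14 = a := fun a ha =>
    Real.rpow_inv_natCast_pow ha (by norm_num)
  have hb := bil_main H hH w hw hG hc hL2 (fun u => Φ u ^ ((14 : ℕ) : ℝ)⁻¹)
    (fun u => Ψ u ^ ((14 : ℕ) : ℝ)⁻¹) (fun u => Real.rpow_nonneg (Φ0 u) _)
    (fun u => Real.rpow_nonneg (Ψ0 u) _) (by simpa only [root _ (Φ0 _)] using Φ1)
    (by simpa only [root _ (Ψ0 _)] using Ψ1) (p⁻¹).toReal (1 - (r⁻¹).toReal) (inv_mem p hp).1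
    (by linarith [(inv_mem r hr).2]) (by linarith) (by linarith)
  simp only [root _ (Φ0 _), root _ (Ψ0 _)] at hb
  have key : ∑ u, ‖(H.card : ℂ)⁻¹ * ∑ x ∈ H, f (u - x)‖ * Ψ u ^ (1 - (r⁻¹).toReal) ≤
      (H.card : ℝ)⁻¹ * P * bil H (fun u => Φ u ^ (p⁻¹).toReal)
        (fun u => Ψ u ^ (1 - (r⁻¹).toReal)) := by
    unfold bil
    rw [mul_sum]
    refine sum_le_sum fun y _ => ?_
    rw [← sum_mul, ← mul_assoc]
    refine mul_le_mul_of_nonneg_right ?_ (Real.rpow_nonneg (Ψ0 y) _)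
    rw [norm_mul, norm_inv, Complex.norm_natCast, mul_assoc]
    refine mul_le_mul_of_nonneg_left ?_ (by positivity)
    rw [mul_sum]
    exact (norm_sum_le _ _).trans (sum_le_sum fun x _ => Φ2 _)
  have fin := Ψ2.trans (key.trans (mul_le_mul_of_nonneg_left hb (by positivity)))
  have e : (H.card : ℝ)⁻¹ * P * (66 * (H.card * w ^ 70)) = w ^ 70 * (66 * P) := by
    field_simp
  rw [e] at fin
  exact le_of_mul_le_mul_left fin hN

/-- a bound `q ^ a ≤ C` along unbounded `q` forces `a ≤ 0` -/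
theorem exp_nonpos (a C : ℝ) (N : ℕ)
    (h : ∀ l : ℕ, l.Prime → N < l → l ≡ 1 [MOD 4] → (l : ℝ) ^ a ≤ C) : a ≤ 0 := by
  by_contra ha
  push Not at ha
  have t := (tendsto_rpow_atTop ha).comp tendsto_natCast_atTop_atTop
  obtain ⟨M, hM⟩ := Filter.eventually_atTop.1 (t.eventually_gt_atTop C)
  obtain ⟨l, hl, hgt, hmod⟩ := Nat.exists_prime_gt_modEq_one (k := 4) (max M N) (by norm_num)
  have a1 := hM l (le_of_lt (lt_of_le_of_lt (le_max_left _ _) hgt))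
  have a2 := h l hl (lt_of_le_of_lt (le_max_right _ _) hgt) hmod
  exact absurd a2 (not_le.2 a1)

theorem mem_quad_iff (x y : ℝ) (hx : 0 ≤ x) (hy : y ≤ 1) :
    (x, y) ∈ convexHull ℝ ({((0 : ℝ), (0 : ℝ)), ((0 : ℝ), (1 : ℝ)), ((1 : ℝ), (1 : ℝ)),
      ((5 / 7 : ℝ), (2 / 7 : ℝ))} : Set (ℝ × ℝ)) ↔ 5 * x - 2 * y ≤ 3 ∧ 2 * x ≤ 5 * y := by
  constructor
  · intro h
    have hconv : Convex ℝ {z : ℝ × ℝ | 5 * z.1 - 2 * z.2 ≤ 3 ∧ 2 * z.1 ≤ 5 * z.2} := by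
      intro u hu v hv a b ha hb hab
      simp only [Set.mem_ofPred_eq, Prod.fst_add, Prod.snd_add, Prod.smul_fst, Prod.smul_snd,
        smul_eq_mul] at hu hv ⊢
      constructor <;> nlinarith [hu.1, hu.2, hv.1, hv.2]
    exact convexHull_min (t := {z : ℝ × ℝ | 5 * z.1 - 2 * z.2 ≤ 3 ∧ 2 * z.1 ≤ 5 * z.2}) (by
      intro z hz
      simp only [Set.mem_insert_iff, Set.mem_singleton_iff] at hz
      rcases hz with rfl | rfl | rfl | rfl <;> simp only [Set.mem_ofPred_eq] <;> norm_num)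
      hconv h
  · rintro ⟨h1, h2⟩
    set S : Set (ℝ × ℝ) := {((0 : ℝ), (0 : ℝ)), ((0 : ℝ), (1 : ℝ)), ((1 : ℝ), (1 : ℝ)),
      ((5 / 7 : ℝ), (2 / 7 : ℝ))} with hS
    have comb : ∀ a b c d : ℝ, 0 ≤ a → 0 ≤ b → 0 ≤ c → 0 ≤ d → a + b + c + d = 1 →
        (c + 5 / 7 * d, b + c + 2 / 7 * d) ∈ convexHull ℝ S := by
      intro a b c d ha hb hc hd hs
      have := (convex_convexHull ℝ S).sum_mem (t := (univ : Finset (Fin 4))) (w := ![a, b, c, d])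
        (z := ![((0 : ℝ), (0 : ℝ)), (0, 1), (1, 1), (5 / 7, 2 / 7)])
        (fun i _ => by fin_cases i <;> simpa) (by simpa [Fin.sum_univ_four] using hs)
        (fun i _ => subset_convexHull ℝ S (by fin_cases i <;> simp [hS]))
      convert this using 1
      simp only [Fin.sum_univ_four]
      ext <;> simp <;> ring
    rcases le_total (1 - y) x with h | h
    · have := comb 0 (1 - x - 2 / 5 * (1 - y)) (x - (1 - y)) (7 / 5 * (1 - y)) le_rfl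
        (by linarith) (by linarith) (by linarith) (by ring)
      convert this using 2 <;> ring
    · have := comb (1 - y - x) (y - 2 / 5 * x) 0 (7 / 5 * x) (by linarith)
        (by linarith) le_rfl (by linarith) (by ring)
      convert this using 2 <;> ring

end Pool.Agent.Lib.MP_a1ab69_an.Sharp
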